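import Pool.Agent.Lib.MP_7ed9c3_nt.Ext.Spec

/-!
# MP_7ed9c3_nt, part Ext: the mean of |cos|
-/

set_option autoImplicit false

namespace MP7ed9c3.Ext

open NumberField IsDedekindDomain Filter Topology MP7ed9c3.Tw

lemma AbsCos_periodic : Function.Periodic (fun y : ℝ => |Real.cos y|) Real.pi := by
  intro y
  show |Real.cos (y + Real.pi)| = |Real.cos y|
  rw [Real.cos_add_pi, abs_neg]

lemma AbsCos_int : ∫ y in (0 : ℝ)..Real.pi, |Real.cos y| = 2 := by
  have hpi := Real.pi_pos
  have h1 : ∫ y in (0 : ℝ)..(Real.pi / 2), |Real.cos y| = 1 := by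
    have e : ∫ y in (0 : ℝ)..(Real.pi / 2), |Real.cos y| =
        ∫ y in (0 : ℝ)..(Real.pi / 2), Real.cos y := by
      apply intervalIntegral.integral_congr
      intro y hy
      rw [Set.uIcc_of_le (by linarith)] at hy
      exact abs_of_nonneg (Real.cos_nonneg_of_mem_Icc ⟨by linarith [hy.1], hy.2⟩)
    rw [e, integral_cos, Real.sin_pi_div_two, Real.sin_zero, sub_zero]
  have h2 : ∫ y in (Real.pi / 2)..Real.pi, |Real.cos y| = 1 := by
    have e : ∫ y in (Real.pi / 2)..Real.pi, |Real.cos y| =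
        ∫ y in (Real.pi / 2)..Real.pi, -Real.cos y := by
      apply intervalIntegral.integral_congr
      intro y hy
      rw [Set.uIcc_of_le (by linarith)] at hy
      exact abs_of_nonpos (Real.cos_nonpos_of_pi_div_two_le_of_le hy.1 (by linarith [hy.2]))
    rw [e, intervalIntegral.integral_neg, integral_cos, Real.sin_pi_div_two, Real.sin_pi]
    norm_num
  have hc : Continuous fun y : ℝ => |Real.cos y| := Real.continuous_cos.abs
  rw [← intervalIntegral.integral_add_adjacent_intervals (hc.intervalIntegrable 0 (Real.pi / 2))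
    (hc.intervalIntegrable (Real.pi / 2) Real.pi), h1, h2]
  norm_num

/-- the integral of a nonnegative periodic function over `[0, S]` -/
lemma AbsCos_bounds (S : ℝ) (hS : 0 ≤ S) :
    |(∫ y in (0 : ℝ)..S, |Real.cos y|) - 2 / Real.pi * S| ≤ 4 := by
  have hpi := Real.pi_pos
  have hc : Continuous fun y : ℝ => |Real.cos y| := Real.continuous_cos.abs
  set k : ℕ := ⌊S / Real.pi⌋₊ with hk
  have hk1 : (k : ℝ) * Real.pi ≤ S := by
    have := Nat.floor_le (div_nonneg hS hpi.le)
    rwa [le_div_iff₀ hpi] at this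
  have hk2 : S < ((k : ℝ) + 1) * Real.pi := by
    have := Nat.lt_floor_add_one (S / Real.pi)
    rwa [div_lt_iff₀ hpi] at this
  have h1 : ∫ y in (0 : ℝ)..((k : ℝ) * Real.pi), |Real.cos y| = 2 * k := by
    have h := AbsCos_periodic.intervalIntegral_add_zsmul_eq (k : ℤ) 0
      (fun a b => hc.intervalIntegrable a b)
    simp only [zero_add, natCast_zsmul, nsmul_eq_mul] at h
    rw [h, AbsCos_int]
    ring
  have h2 : ∫ y in ((k : ℝ) * Real.pi)..S, |Real.cos y| ≤ S - (k : ℝ) * Real.pi := by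
    have h3 : ∫ y in ((k : ℝ) * Real.pi)..S, |Real.cos y| ≤
        ∫ y in ((k : ℝ) * Real.pi)..S, (1 : ℝ) := by
      apply intervalIntegral.integral_mono_on hk1 (hc.intervalIntegrable _ _)
        intervalIntegrable_const
      intro y _
      exact Real.abs_cos_le_one y
    rwa [intervalIntegral.integral_const, smul_eq_mul, mul_one] at h3
  have h3 : 0 ≤ ∫ y in ((k : ℝ) * Real.pi)..S, |Real.cos y| :=
    intervalIntegral.integral_nonneg hk1 fun y _ => abs_nonneg _
  have h4 : ∫ y in (0 : ℝ)..S, |Real.cos y| = 2 * k + ∫ y in ((k : ℝ) * Real.pi)..S,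
      |Real.cos y| := by
    rw [← h1]
    exact (intervalIntegral.integral_add_adjacent_intervals (hc.intervalIntegrable _ _)
      (hc.intervalIntegrable _ _)).symm
  have hpi4 : Real.pi ≤ 4 := Real.pi_le_four
  have h5 : 2 * (k : ℝ) ≤ 2 / Real.pi * S := by
    rw [div_mul_eq_mul_div, le_div_iff₀ hpi]
    linarith
  have h6 : 2 / Real.pi * S ≤ 2 * (k : ℝ) + 2 := by
    rw [div_mul_eq_mul_div, div_le_iff₀ hpi]
    linarith
  rw [h4, abs_le]
  constructor <;> nlinarith

theorem absCos : S_AbsCos := by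
  intro t ht
  have hpi := Real.pi_pos
  have hta : 0 < |t| := abs_pos.mpr ht
  rw [tendsto_iff_norm_sub_tendsto_zero]
  have h0 : Tendsto (fun T : ℝ => 4 / |t| / T) atTop (𝓝 0) := tendsto_const_nhds.div_atTop tendsto_id
  refine squeeze_zero' (Eventually.of_forall fun x => norm_nonneg _) ?_ h0
  filter_upwards [eventually_gt_atTop (0 : ℝ)] with T hT
  have h1 : ∫ y in (0 : ℝ)..T, |Real.cos (t * y)| = ∫ y in (0 : ℝ)..T, |Real.cos (|t| * y)| := by
    apply intervalIntegral.integral_congr
    intro y _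
    show |Real.cos (t * y)| = |Real.cos (|t| * y)|
    rcases abs_choice t with h | h
    · rw [h]
    · rw [h, neg_mul, Real.cos_neg]
  have h2 : ∫ y in (0 : ℝ)..T, |Real.cos (|t| * y)| =
      |t|⁻¹ * ∫ y in (0 : ℝ)..(|t| * T), |Real.cos y| := by
    have h := intervalIntegral.integral_comp_mul_left (a := 0) (b := T)
      (fun y : ℝ => |Real.cos y|) hta.ne'
    rw [mul_zero, smul_eq_mul] at h
    exact h
  have h3 := AbsCos_bounds (|t| * T) (by positivity)
  rw [h1, h2, Real.norm_eq_abs]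
  have h4 : 1 / T * (|t|⁻¹ * ∫ y in (0 : ℝ)..(|t| * T), |Real.cos y|) - 2 / Real.pi =
      ((∫ y in (0 : ℝ)..(|t| * T), |Real.cos y|) - 2 / Real.pi * (|t| * T)) / (|t| * T) := by
    field_simp
  rw [h4, abs_div, abs_of_pos (by positivity : 0 < |t| * T), div_div]
  exact div_le_div_of_nonneg_right h3 (by positivity)

end MP7ed9c3.Ext
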