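import Pool.Agent.Lib.MP_7ed9c3_nt.Ext.Spec

/-!
# MP_7ed9c3_nt, Ext/Alg: powers of trigonometric polynomials
-/

set_option autoImplicit false

namespace MP7ed9c3.Ext

open NumberField IsDedekindDomain Filter Topology MP7ed9c3.Tw

/-- the linear span of the functions `fx Y g cos(u y)` -/
inductive Alg_A (G : Type) [_root_.Group G] : (G → ℝ → ℝ) → Prop
  | base (Y : Type) [Fintype Y] [MulAction G Y] (u : ℝ) :
      Alg_A G (fun g y => fx Y g * Real.cos (u * y))
  | add (h h' : G → ℝ → ℝ) : Alg_A G h → Alg_A G h' → Alg_A G (fun g y => h g y + h' g y)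
  | smul (c : ℝ) (h : G → ℝ → ℝ) : Alg_A G h → Alg_A G (fun g y => c * h g y)

theorem Alg_fx_prod {G : Type} [_root_.Group G] (Y Y' : Type) [MulAction G Y] [MulAction G Y']
    (g : G) : fx (Y × Y') g = fx Y g * fx Y' g := by
  unfold fx
  rw [← Nat.cast_mul, ← Nat.card_prod]
  congr 1
  apply Nat.card_congr
  refine ⟨fun p => (⟨p.1.1, congrArg Prod.fst p.2⟩, ⟨p.1.2, congrArg Prod.snd p.2⟩),
    fun p => ⟨(p.1.1, p.2.1), Prod.ext p.1.2 p.2.2⟩, fun p => rfl, fun p => rfl⟩

theorem Alg_fx_unit {G : Type} [_root_.Group G] (g : G) : fx PUnit.{1} g = 1 := by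
  unfold fx
  have h : Nat.card {y : PUnit.{1} // g • y = y} = 1 := by
    rw [Nat.card_eq_one_iff_unique]
    exact ⟨⟨fun a b => Subtype.ext rfl⟩, ⟨⟨PUnit.unit, rfl⟩⟩⟩
  rw [h, Nat.cast_one]

theorem Alg_one (G : Type) [_root_.Group G] : Alg_A G (fun _ _ => 1) := by
  have h := Alg_A.base (G := G) PUnit.{1} 0
  have h1 : (fun (g : G) (y : ℝ) => fx PUnit.{1} g * Real.cos (0 * y)) = fun _ _ => 1 := by
    funext g y
    rw [Alg_fx_unit, zero_mul, Real.cos_zero, mul_one]
  rw [h1] at h
  exact h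

theorem Alg_mul_base {G : Type} [_root_.Group G] (Y Y' : Type) [Fintype Y] [MulAction G Y]
    [Fintype Y'] [MulAction G Y'] (u u' : ℝ) :
    Alg_A G (fun g y => (fx Y g * Real.cos (u * y)) * (fx Y' g * Real.cos (u' * y))) := by
  have h := Alg_A.add _ _ (Alg_A.smul (1 / 2) _ (Alg_A.base (G := G) (Y × Y') (u + u')))
    (Alg_A.smul (1 / 2) _ (Alg_A.base (G := G) (Y × Y') (u - u')))
  have h1 : (fun (g : G) (y : ℝ) => 1 / 2 * (fx (Y × Y') g * Real.cos ((u + u') * y)) +
      1 / 2 * (fx (Y × Y') g * Real.cos ((u - u') * y))) =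
      fun g y => (fx Y g * Real.cos (u * y)) * (fx Y' g * Real.cos (u' * y)) := by
    funext g y
    rw [Alg_fx_prod, add_mul, sub_mul, Real.cos_add, Real.cos_sub]
    ring
  rw [h1] at h
  exact h

theorem Alg_mul {G : Type} [_root_.Group G] {h h' : G → ℝ → ℝ} (hA : Alg_A G h)
    (hA' : Alg_A G h') : Alg_A G (fun g y => h g y * h' g y) := by
  induction hA with
  | base Y u =>
    induction hA' with
    | base Y' u' => exact Alg_mul_base Y Y' u u'
    | add k k' _ _ ih ih' =>
      have h1 := Alg_A.add _ _ ih ih'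
      have h2 : (fun (g : G) (y : ℝ) => fx Y g * Real.cos (u * y) * k g y +
          fx Y g * Real.cos (u * y) * k' g y) =
          fun g y => fx Y g * Real.cos (u * y) * (k g y + k' g y) := by
        funext g y
        ring
      rw [h2] at h1
      exact h1
    | smul c k _ ih =>
      have h1 := Alg_A.smul c _ ih
      have h2 : (fun (g : G) (y : ℝ) => c * (fx Y g * Real.cos (u * y) * k g y)) =
          fun g y => fx Y g * Real.cos (u * y) * (c * k g y) := by
        funext g y
        ring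
      rw [h2] at h1
      exact h1
  | add k k' _ _ ih ih' =>
    have h1 := Alg_A.add _ _ ih ih'
    have h2 : (fun (g : G) (y : ℝ) => k g y * h' g y + k' g y * h' g y) =
        fun g y => (k g y + k' g y) * h' g y := by
      funext g y
      ring
    rw [h2] at h1
    exact h1
  | smul c k _ ih =>
    have h1 := Alg_A.smul c _ ih
    have h2 : (fun (g : G) (y : ℝ) => c * (k g y * h' g y)) =
        fun g y => c * k g y * h' g y := by
      funext g y
      ring
    rw [h2] at h1
    exact h1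

theorem Alg_pow {G : Type} [_root_.Group G] {h : G → ℝ → ℝ} (hA : Alg_A G h) (k : ℕ) :
    Alg_A G (fun g y => h g y ^ k) := by
  induction k with
  | zero =>
    have h1 : (fun (g : G) (y : ℝ) => h g y ^ 0) = fun _ _ => 1 := by
      funext g y
      rw [pow_zero]
    rw [h1]
    exact Alg_one G
  | succ k ih =>
    have h1 : (fun (g : G) (y : ℝ) => h g y ^ (k + 1)) = fun g y => h g y ^ k * h g y := by
      funext g y
      rw [pow_succ]
    rw [h1]
    exact Alg_mul ih hA

theorem Alg_sum {G : Type} [_root_.Group G] {m : ℕ} (h : Fin m → G → ℝ → ℝ)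
    (hA : ∀ j, Alg_A G (h j)) (s : Finset (Fin m)) :
    Alg_A G (fun g y => ∑ j ∈ s, h j g y) := by
  classical
  induction s using Finset.induction_on with
  | empty =>
    have h0 := Alg_A.smul 0 _ (Alg_one G)
    have h1 : (fun (g : G) (y : ℝ) => ∑ j ∈ (∅ : Finset (Fin m)), h j g y) =
        fun _ _ => 0 * 1 := by
      funext g y
      rw [Finset.sum_empty, zero_mul]
    rw [h1]
    exact h0
  | insert a s ha ih =>
    have h1 : (fun (g : G) (y : ℝ) => ∑ j ∈ insert a s, h j g y) =
        fun g y => h a g y + ∑ j ∈ s, h j g y := by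
      funext g y
      rw [Finset.sum_insert ha]
    rw [h1]
    exact Alg_A.add _ _ (hA a) ih

/-- good functions -/
def Alg_Good {X G : Type} [_root_.Group G] [Fintype G] (q : X → ℕ) (σ : X → G) (ℓ : X → ℝ)
    (h : G → ℝ → ℝ) : Prop :=
  (∃ B : ℝ, ∀ g y, |h g y| ≤ B) ∧ (∀ g, Continuous (h g)) ∧
    ∃ L : ℝ, HasMean q (fun v => h (σ v) (ℓ v)) L ∧ Tendsto (gmean h) atTop (𝓝 L)

theorem Alg_good (hM : S_MeanLin) (hS : S_GSet) {X G : Type} [_root_.Group G] [Fintype G]
    {q : X → ℕ} {σ : X → G} {ℓ : X → ℝ} (hq : Norms q) (hT : TransHyp q σ ℓ) {h : G → ℝ → ℝ}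
    (hA : Alg_A G h) : Alg_Good q σ ℓ h := by
  obtain ⟨m1, m2, -, -, -⟩ := hM X q hq
  induction hA with
  | base Y u =>
    refine ⟨⟨Nat.card Y, fun g y => ?_⟩, fun g => by fun_prop, hS X G q σ ℓ hq hT Y u⟩
    have h1 : 0 ≤ fx Y g := by
      unfold fx
      positivity
    have h2 : fx Y g ≤ Nat.card Y := by
      unfold fx
      exact_mod_cast Nat.card_le_card_of_injective (fun y : {y : Y // g • y = y} => y.1)
        Subtype.val_injective
    rw [abs_mul, abs_of_nonneg h1]
    calc fx Y g * |Real.cos (u * y)| ≤ fx Y g * 1 :=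
          mul_le_mul_of_nonneg_left (Real.abs_cos_le_one _) h1
      _ ≤ Nat.card Y := by linarith
  | add k k' _ _ ih ih' =>
    obtain ⟨⟨B, hB⟩, hc, L, hL1, hL2⟩ := ih
    obtain ⟨⟨B', hB'⟩, hc', L', hL1', hL2'⟩ := ih'
    refine ⟨⟨B + B', fun g y => (abs_add_le _ _).trans (add_le_add (hB g y) (hB' g y))⟩,
      fun g => (hc g).add (hc' g), L + L', ?_, ?_⟩
    · exact m1 _ _ L L' ⟨B, fun v => hB _ _⟩ ⟨B', fun v => hB' _ _⟩ hL1 hL1'
    · refine (hL2.add hL2').congr fun T => ?_
      unfold gmean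
      rw [← mul_add, ← intervalIntegral.integral_add]
      · congr 1
        congr 1
        funext y
        rw [Finset.sum_add_distrib, mul_add]
      · exact (continuous_const.mul (continuous_finsetSum _ fun g _ => hc g)).intervalIntegrable _ _
      · exact (continuous_const.mul (continuous_finsetSum _ fun g _ => hc' g)).intervalIntegrable _ _
  | smul c k _ ih =>
    obtain ⟨⟨B, hB⟩, hc, L, hL1, hL2⟩ := ih
    refine ⟨⟨|c| * B, fun g y => ?_⟩, fun g => continuous_const.mul (hc g), c * L,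
      m2 c _ L hL1, ?_⟩
    · rw [abs_mul]
      exact mul_le_mul_of_nonneg_left (hB g y) (abs_nonneg c)
    · refine (hL2.const_mul c).congr fun T => ?_
      unfold gmean
      have h1 : (fun y : ℝ => (1 / (Fintype.card G : ℝ)) * ∑ g : G, c * k g y) =
          fun y : ℝ => c * ((1 / (Fintype.card G : ℝ)) * ∑ g : G, k g y) := by
        funext y
        rw [← Finset.mul_sum]
        ring
      have h2 : (∫ y in (0 : ℝ)..T, (1 / (Fintype.card G : ℝ)) * ∑ g : G, c * k g y) =
          c * ∫ y in (0 : ℝ)..T, (1 / (Fintype.card G : ℝ)) * ∑ g : G, k g y := by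
        rw [h1]
        exact intervalIntegral.integral_const_mul c _
      rw [h2]
      ring

theorem alg (hM : S_MeanLin) (hS : S_GSet) : S_Alg := by
  intro X G _ _ q σ ℓ hq hT m Y _ _ c t k
  have h1 : Alg_A G (fun g y => (∑ j, c j * (fx (Y j) g * Real.cos (t j * y))) ^ k) := by
    apply Alg_pow
    exact Alg_sum (fun j g y => c j * (fx (Y j) g * Real.cos (t j * y)))
      (fun j => Alg_A.smul (c j) _ (Alg_A.base (Y j) (t j))) Finset.univ
  obtain ⟨-, -, L, hL1, hL2⟩ := Alg_good hM hS hq hT h1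
  exact ⟨L, hL1, hL2⟩

end MP7ed9c3.Ext
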