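import Pool.Agent.Lib.MP_7ed9c3_nt.Ext.Spec

/-!
# MP_7ed9c3_nt, Ext: reduction of embeddings (`S_Bij`)
-/

set_option autoImplicit false

namespace MP7ed9c3.Ext

open NumberField Polynomial

section

variable {K F N : Type} [Field K] [NumberField K] [Field F] [NumberField F] [Field N]
  [NumberField N] [Algebra K F] [Algebra K N]

/-- the value of an embedding at `θ` -/
private noncomputable def ev (θ : 𝓞 F) (φ : F →ₐ[K] N) : 𝓞 N := RingOfIntegers.mapAlgHom φ θ

omit [NumberField K] [NumberField F] [NumberField N] in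
private theorem ev_coe (θ : 𝓞 F) (φ : F →ₐ[K] N) : ((ev θ φ : 𝓞 N) : N) = φ (θ : F) := rfl

omit [NumberField K] [NumberField F] [NumberField N] in
private theorem ev_inj (θ : 𝓞 F) (h : IntermediateField.adjoin K {(θ : F)} = ⊤) :
    Function.Injective (ev θ : (F →ₐ[K] N) → 𝓞 N) := by
  intro φ ψ hφ
  have h1 : φ (θ : F) = ψ (θ : F) := by
    have := congrArg (fun x : 𝓞 N => (x : N)) hφ
    simpa only [ev_coe] using this
  have h2 : φ.comp (IntermediateField.val (⊤ : IntermediateField K F)) =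
      ψ.comp (IntermediateField.val (⊤ : IntermediateField K F)) :=
    IntermediateField.algHom_ext_of_eq_adjoin K h.symm (fun x hx => by
      have hx' : (x : F) = θ := hx
      show φ (x : F) = ψ (x : F)
      rw [hx', h1])
  ext x
  exact DFunLike.congr_fun h2 ⟨x, IntermediateField.mem_top⟩

omit [NumberField N] in
private theorem card_emb' [IsGalois K N] (h : Nonempty (F →ₐ[K] N)) :
    Fintype.card (F →ₐ[K] N) = Module.finrank K F := by
  obtain ⟨φ⟩ := h
  let pb := Field.powerBasisOfFiniteOfSeparable K F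
  rw [← Nat.card_eq_fintype_card,
    AlgHom.natCard_of_powerBasis pb (Algebra.IsSeparable.isSeparable K pb.gen) ?_, pb.finrank]
  have h1 : (minpoly K (φ pb.gen)) = minpoly K pb.gen := minpoly.algHom_eq φ φ.injective _
  rw [← h1]
  exact Normal.splits inferInstance _

omit [NumberField N] in
/-- The minimal polynomial factors over `𝓞 N`. -/
private theorem factor [IsGalois K N] (h : Nonempty (F →ₐ[K] N)) (θ : 𝓞 F)
    (hθ : IntermediateField.adjoin K {(θ : F)} = ⊤) :
    (minpoly (𝓞 K) θ).map (algebraMap (𝓞 K) (𝓞 N)) =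
      ∏ φ : F →ₐ[K] N, (X - C (ev θ φ)) := by
  have hint : IsIntegral (𝓞 K) θ := Algebra.IsIntegral.isIntegral θ
  have hintF : IsIntegral (𝓞 K) (θ : F) := hint.map (IsScalarTower.toAlgHom (𝓞 K) (𝓞 F) F)
  have hmin : minpoly K (θ : F) = (minpoly (𝓞 K) θ).map (algebraMap (𝓞 K) K) := by
    rw [minpoly.isIntegrallyClosed_eq_field_fractions' K hintF]
    congr 1
    exact minpoly.algHom_eq (IsScalarTower.toAlgHom (𝓞 K) (𝓞 F) F)
      (FaithfulSMul.algebraMap_injective (𝓞 F) F) θ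
  apply Polynomial.map_injective (algebraMap (𝓞 N) N) (FaithfulSMul.algebraMap_injective (𝓞 N) N)
  rw [Polynomial.map_map, ← IsScalarTower.algebraMap_eq (𝓞 K) (𝓞 N) N,
    IsScalarTower.algebraMap_eq (𝓞 K) K N, ← Polynomial.map_map, ← hmin, Polynomial.map_prod]
  have hprod : (∏ φ : F →ₐ[K] N, (X - C (ev θ φ)).map (algebraMap (𝓞 N) N)) =
      ∏ φ : F →ₐ[K] N, (X - C (φ (θ : F))) := by
    apply Finset.prod_congr rfl
    intro φ _
    rw [Polynomial.map_sub, Polynomial.map_X, Polynomial.map_C]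
    rfl
  rw [hprod]
  have hinj : Function.Injective (fun φ : F →ₐ[K] N => φ (θ : F)) := by
    intro φ ψ hφ
    exact ev_inj θ hθ (RingOfIntegers.ext hφ)
  have hmon : (minpoly K (θ : F)).Monic := minpoly.monic (Algebra.IsIntegral.isIntegral _)
  refine (Polynomial.eq_of_monic_of_dvd_of_natDegree_le
    (monic_prod_of_monic _ _ fun φ _ => monic_X_sub_C (φ (θ : F))) (hmon.map _) ?_ ?_)
  · apply Finset.prod_dvd_of_coprime
    · intro φ _ ψ _ hne
      exact pairwise_coprime_X_sub_C hinj hne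
    · intro φ _
      rw [dvd_iff_isRoot, IsRoot.def, eval_map_algebraMap]
      have := Polynomial.aeval_algHom_apply φ (θ : F) (minpoly K (θ : F))
      rw [this, minpoly.aeval, map_zero]
  · rw [natDegree_map, natDegree_prod_of_monic _ _ (fun φ _ => monic_X_sub_C _)]
    simp only [natDegree_X_sub_C, Finset.sum_const, Finset.card_univ, smul_eq_mul, mul_one]
    rw [card_emb' h, ← IntermediateField.adjoin.finrank (Algebra.IsIntegral.isIntegral _), hθ,
      IntermediateField.finrank_top']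

end

theorem bij (hP : S_Prim) : S_Bij := by
  intro K F N _ _ _ _ _ _ _ _ _ hne
  classical
  obtain ⟨θ, D2, hD2, hθ, hp⟩ := hP K F
  have hfac := factor (K := K) (F := F) (N := N) hne θ hθ
  have hinj := ev_inj (K := K) (N := N) θ hθ
  let Δ : 𝓞 N := ∏ x ∈ (Finset.univ : Finset ((F →ₐ[K] N) × (F →ₐ[K] N))).filter
    (fun x => x.1 ≠ x.2), (ev θ x.1 - ev θ x.2)
  have hΔ : Δ ≠ 0 := by
    apply Finset.prod_ne_zero_iff.2
    intro x hx
    exact sub_ne_zero.2 (hinj.ne (Finset.mem_filter.1 hx).2)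
  have hcom : (Ideal.span {Δ}).comap (algebraMap (𝓞 K) (𝓞 N)) ≠ ⊥ :=
    Ideal.comap_ne_bot_of_integral_mem hΔ (Ideal.mem_span_singleton_self Δ)
      (Algebra.IsIntegral.isIntegral Δ)
  obtain ⟨D1, hD1, hD10⟩ := Submodule.exists_mem_ne_zero_of_ne_bot hcom
  have hdvd : Δ ∣ algebraMap (𝓞 K) (𝓞 N) D1 := Ideal.mem_span_singleton.1 hD1
  refine ⟨D1 * D2, mul_ne_zero hD10 hD2, ?_⟩
  intro P hPp hDP
  have hD1P : algebraMap (𝓞 K) (𝓞 N) D1 ∉ P := fun h => hDP (by
    rw [map_mul]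
    exact P.mul_mem_right _ h)
  have hD2P : algebraMap (𝓞 K) (𝓞 N) D2 ∉ P := fun h => hDP (by
    rw [map_mul]
    exact P.mul_mem_left _ h)
  have hred : ∀ φ : F →ₐ[K] N, redHom K F N P φ θ = Ideal.Quotient.mk P (ev θ φ) := fun φ => rfl
  constructor
  · intro φ ψ hφ
    by_contra hne
    have h1 : Ideal.Quotient.mk P (ev θ φ) = Ideal.Quotient.mk P (ev θ ψ) := by
      rw [← hred, ← hred, hφ]
    have h2 : ev θ φ - ev θ ψ ∈ P := Ideal.Quotient.eq.1 h1
    have h3 : ev θ φ - ev θ ψ ∣ Δ :=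
      Finset.dvd_prod_of_mem (fun x : (F →ₐ[K] N) × (F →ₐ[K] N) => ev θ x.1 - ev θ x.2)
        (Finset.mem_filter.2 ⟨Finset.mem_univ (φ, ψ), hne⟩)
    exact hD1P (P.mem_of_dvd (h3.trans hdvd) h2)
  · intro h
    have : IsDomain (𝓞 N ⧸ P) := Ideal.Quotient.isDomain P
    have h0 : aeval (h θ) (minpoly (𝓞 K) θ) = 0 := by
      rw [Polynomial.aeval_algHom_apply, minpoly.aeval, map_zero]
    have h1 : ∏ φ : F →ₐ[K] N, (h θ - Ideal.Quotient.mk P (ev θ φ)) = 0 := by
      have h2 : aeval (h θ) (minpoly (𝓞 K) θ) =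
          eval (h θ) (((minpoly (𝓞 K) θ).map (algebraMap (𝓞 K) (𝓞 N))).map
            (Ideal.Quotient.mk P)) := by
        rw [Polynomial.map_map, Polynomial.eval_map, Polynomial.aeval_def]
        rfl
      rw [hfac, Polynomial.map_prod, Polynomial.eval_prod, h0] at h2
      rw [h2]
      apply Finset.prod_congr rfl
      intro φ _
      rw [Polynomial.map_sub, Polynomial.map_X, Polynomial.map_C, eval_sub, eval_X, eval_C]
    obtain ⟨φ, -, hφ⟩ := Finset.prod_eq_zero_iff.1 h1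
    have hφ' : redHom K F N P φ θ = h θ := by rw [hred, ← sub_eq_zero.1 hφ]
    refine ⟨φ, ?_⟩
    ext a
    obtain ⟨p, hpa⟩ := hp a
    have h3 : ∀ g : 𝓞 F →ₐ[𝓞 K] (𝓞 N ⧸ P),
        algebraMap (𝓞 K) (𝓞 N ⧸ P) D2 * g a = aeval (g θ) p := by
      intro g
      rw [Polynomial.aeval_algHom_apply, ← hpa, map_mul, AlgHom.commutes]
    have h4 : algebraMap (𝓞 K) (𝓞 N ⧸ P) D2 ≠ 0 := by
      intro h5
      apply hD2P
      rw [← Ideal.Quotient.eq_zero_iff_mem]
      exact h5
    apply mul_left_cancel₀ h4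
    rw [h3, h3, hφ']

end MP7ed9c3.Ext
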