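import Pool.Agent.Lib.MP_7ed9c3_nt.Ext.Spec

/-!
# Burnside's lemma for the embeddings
-/

set_option autoImplicit false

namespace MP7ed9c3.Ext

open NumberField IsDedekindDomain Filter Topology MP7ed9c3.Tw

/-- The action of the Galois group on the embeddings. -/
def Burn_act (K F N : Type) [Field K] [Field F] [Field N] [Algebra K F] [Algebra K N] :
    MulAction (N ≃ₐ[K] N) (F →ₐ[K] N) where
  smul g φ := (g : N →ₐ[K] N).comp φ
  one_smul φ := by
    ext x
    rfl
  mul_smul g h φ := by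
    ext x
    rfl

/-- Transitivity. -/
theorem Burn_trans (K F N : Type) [Field K] [Field F] [Field N] [Algebra K F] [Algebra K N]
    [FiniteDimensional K N] [Normal K N] (φ ψ : F →ₐ[K] N) :
    ∃ g : N ≃ₐ[K] N, (g : N →ₐ[K] N).comp φ = ψ := by
  letI i1 : Algebra F N := φ.toRingHom.toAlgebra
  haveI i2 : IsScalarTower K F N := IsScalarTower.of_algebraMap_eq fun x => (φ.commutes x).symm
  have h := AlgHom.liftNormal_commutes ψ N
  refine ⟨AlgEquiv.ofBijective (ψ.liftNormal N)
    (Algebra.IsAlgebraic.algHom_bijective (ψ.liftNormal N)), ?_⟩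
  ext x
  exact h x

theorem Burn_sum (K F N : Type) [Field K] [NumberField K] [Field F] [NumberField F] [Field N]
    [NumberField N] [Algebra K F] [Algebra K N] [IsGalois K N] (hne : Nonempty (F →ₐ[K] N)) :
    ∑ g : N ≃ₐ[K] N, fix K F N g = Fintype.card (N ≃ₐ[K] N) := by
  classical
  letI := Burn_act K F N
  haveI : Finite (F →ₐ[K] N) := inferInstance
  letI : Fintype (F →ₐ[K] N) := Fintype.ofFinite _
  letI : ∀ g : N ≃ₐ[K] N, Fintype (MulAction.fixedBy (F →ₐ[K] N) g) := fun g => Fintype.ofFinite _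
  letI : Fintype (Quotient (MulAction.orbitRel (N ≃ₐ[K] N) (F →ₐ[K] N))) := Fintype.ofFinite _
  have h := MulAction.sum_card_fixedBy_eq_card_orbits_mul_card_group (N ≃ₐ[K] N) (F →ₐ[K] N)
  have h1 : Fintype.card (Quotient (MulAction.orbitRel (N ≃ₐ[K] N) (F →ₐ[K] N))) = 1 := by
    rw [Fintype.card_eq_one_iff]
    obtain ⟨φ⟩ := hne
    refine ⟨Quotient.mk'' φ, ?_⟩
    intro y
    induction y using Quotient.inductionOn' with
    | h ψ =>
      rw [Quotient.eq'']
      obtain ⟨g, hg⟩ := Burn_trans K F N φ ψ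
      exact ⟨g, hg⟩
  rw [h1, one_mul] at h
  rw [← h]
  apply Finset.sum_congr rfl
  intro g _
  unfold fix
  rw [Nat.card_eq_fintype_card]
  exact Fintype.card_congr (Equiv.refl _)

theorem burn : S_Burn := by
  intro K F N _ _ _ _ _ _ _ _ _ hne
  classical
  have hs := Burn_sum K F N hne
  have hc : (0 : ℝ) < Fintype.card (N ≃ₐ[K] N) := by
    exact_mod_cast Fintype.card_pos
  have h1 : ∀ g : N ≃ₐ[K] N, |(fix K F N g : ℝ) - 1| =
      ((fix K F N g : ℝ) - 1) + 2 * (if fix K F N g = 0 then (1 : ℝ) else 0) := by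
    intro g
    split_ifs with h
    · rw [h]
      norm_num
    · have h2 : (1 : ℝ) ≤ fix K F N g := by
        exact_mod_cast Nat.one_le_iff_ne_zero.mpr h
      rw [abs_of_nonneg (by linarith)]
      ring
  have h3 : (Nat.card {g : N ≃ₐ[K] N // ∀ φ : F →ₐ[K] N, (g : N →ₐ[K] N).comp φ ≠ φ} : ℝ) =
      ∑ g : N ≃ₐ[K] N, if fix K F N g = 0 then (1 : ℝ) else 0 := by
    rw [Finset.sum_boole, Nat.card_eq_fintype_card, Fintype.card_subtype]
    congr 2
    ext g
    simp only [Finset.mem_filter, Finset.mem_univ, true_and]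
    unfold fix
    rw [Finite.card_eq_zero_iff, isEmpty_subtype]
  unfold der
  rw [h3, Finset.sum_congr rfl fun g _ => h1 g, Finset.sum_add_distrib, Finset.sum_sub_distrib,
    ← Finset.mul_sum]
  have h4 : ∑ g : N ≃ₐ[K] N, (fix K F N g : ℝ) = Fintype.card (N ≃ₐ[K] N) := by
    exact_mod_cast hs
  rw [h4, Finset.sum_const, Finset.card_univ, nsmul_eq_mul, mul_one, sub_self, zero_add,
    Nat.card_eq_fintype_card]
  field_simp

end MP7ed9c3.Ext
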