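import Pool.Agent.Lib.MP_7ed9c3_nt.Ext.Spec

/-!
# MP_7ed9c3_nt, part Ext: the fixed embeddings and the residue field (task 5059)
-/

set_option autoImplicit false

namespace MP7ed9c3.Ext

open NumberField IsDedekindDomain Filter Topology MP7ed9c3.Tw

/-- the roots of `X ^ q - X` in a domain containing a field with `q` elements -/
theorem Cnt_roots {k L : Type} [Field k] [Finite k] [CommRing L] [IsDomain L] (i : k →+* L)
    {z : L} (hz : z ^ Nat.card k = z) : ∃ b, i b = z := by
  classical
  have : Fintype k := Fintype.ofFinite k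
  set q := Nat.card k with hq
  have hqf : q = Fintype.card k := Nat.card_eq_fintype_card
  have hq1 : 1 < q := Finite.one_lt_card
  have hne : (Polynomial.X ^ q - Polynomial.X : Polynomial L) ≠ 0 := by
    intro h
    have := congrArg (fun p => Polynomial.coeff p q) h
    simp only [Polynomial.coeff_sub, Polynomial.coeff_X_pow_self, Polynomial.coeff_zero] at this
    rw [Polynomial.coeff_X_of_ne_one (by omega)] at this
    simp at this
  have hdeg : (Polynomial.X ^ q - Polynomial.X : Polynomial L).natDegree ≤ q := by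
    refine (Polynomial.natDegree_sub_le _ _).trans ?_
    rw [Polynomial.natDegree_X_pow, Polynomial.natDegree_X]
    exact max_le le_rfl hq1.le
  set s := (Polynomial.X ^ q - Polynomial.X : Polynomial L).roots.toFinset with hs
  have hscard : s.card ≤ q :=
    (Multiset.toFinset_card_le _).trans ((Polynomial.card_roots' _).trans hdeg)
  have hinj : Function.Injective i := i.injective
  set T := (Finset.univ : Finset k).image i with hT
  have hTcard : T.card = q := by
    rw [hT, Finset.card_image_of_injective _ hinj, Finset.card_univ, hqf]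
  have hsub : T ⊆ s := by
    intro y hy
    rw [hT, Finset.mem_image] at hy
    obtain ⟨b, -, rfl⟩ := hy
    rw [hs, Multiset.mem_toFinset, Polynomial.mem_roots hne, Polynomial.IsRoot.def]
    rw [Polynomial.eval_sub, Polynomial.eval_pow, Polynomial.eval_X, ← map_pow, hqf,
      FiniteField.pow_card, sub_self]
  have heq : T = s := Finset.eq_of_subset_of_card_le hsub (by omega)
  have hzs : z ∈ s := by
    rw [hs, Multiset.mem_toFinset, Polynomial.mem_roots hne, Polynomial.IsRoot.def]
    rw [Polynomial.eval_sub, Polynomial.eval_pow, Polynomial.eval_X, hz, sub_self]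
  rw [← heq, hT, Finset.mem_image] at hzs
  obtain ⟨b, -, hb⟩ := hzs
  exact ⟨b, hb⟩

/-- homomorphisms with values in the image of `i` -/
theorem Cnt_card {R A k L : Type} [CommRing R] [CommRing A] [CommRing k] [CommRing L]
    [Algebra R A] [Algebra R k] [Algebra R L] (i : k →ₐ[R] L) (hi : Function.Injective i) :
    Nat.card (A →ₐ[R] k) = Nat.card {h : A →ₐ[R] L // ∀ a, ∃ b, i b = h a} := by
  refine Nat.card_congr (Equiv.ofBijective
    (fun ψ => (⟨i.comp ψ, fun a => ⟨ψ a, rfl⟩⟩ : {h : A →ₐ[R] L // ∀ a, ∃ b, i b = h a})) ⟨?_, ?_⟩)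
  · intro ψ ψ' h
    have h' := congrArg Subtype.val h
    refine AlgHom.ext (fun a => hi ?_)
    exact congrArg (fun f => f a) h'
  · rintro ⟨h, hh⟩
    have hr : ∀ a, h a ∈ i.range := by
      intro a
      obtain ⟨b, hb⟩ := hh a
      exact ⟨b, hb⟩
    refine ⟨((AlgEquiv.ofInjective i hi).symm : i.range →ₐ[R] k).comp
      (h.codRestrict i.range hr), ?_⟩
    refine Subtype.ext (AlgHom.ext (fun a => ?_))
    have := AlgEquiv.ofInjective_apply i hi
      ((AlgEquiv.ofInjective i hi).symm (h.codRestrict i.range hr a))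
    show i ((AlgEquiv.ofInjective i hi).symm (h.codRestrict i.range hr a)) = h a
    rw [← this, AlgEquiv.apply_symm_apply]
    rfl

theorem cnt : S_Cnt := by
  intro K F N _ _ _ _ _ _ _ _ v P g hP hbij
  obtain ⟨hPp, hcomap, hfrob⟩ := hP
  have hdom : IsDomain (𝓞 N ⧸ P) := Ideal.Quotient.isDomain P
  have hmax : v.asIdeal.IsMaximal := v.isMaximal
  let _ : Field (𝓞 K ⧸ v.asIdeal) := Ideal.Quotient.field v.asIdeal
  have hcard : Nat.card (𝓞 K ⧸ v.asIdeal) = nm v := rfl
  have hnm : 2 ≤ nm v := by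
    have : 1 < Ideal.absNorm v.asIdeal := HeightOneSpectrum.one_lt_absNorm v
    exact this
  have hfin : Finite (𝓞 K ⧸ v.asIdeal) := by
    refine Nat.finite_of_card_ne_zero ?_
    rw [hcard]; omega
  -- the embedding of the residue fields
  have hker : ∀ a : 𝓞 K, a ∈ v.asIdeal → Algebra.ofId (𝓞 K) (𝓞 N ⧸ P) a = 0 := by
    intro a ha
    rw [← hcomap, Ideal.mem_comap] at ha
    have : (Ideal.Quotient.mk P) (algebraMap (𝓞 K) (𝓞 N) a) = 0 :=
      Ideal.Quotient.eq_zero_iff_mem.2 ha
    exact this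
  let i : (𝓞 K ⧸ v.asIdeal) →ₐ[𝓞 K] (𝓞 N ⧸ P) :=
    Ideal.Quotient.liftₐ v.asIdeal (Algebra.ofId (𝓞 K) (𝓞 N ⧸ P)) hker
  have hi : Function.Injective i := (i : (𝓞 K ⧸ v.asIdeal) →+* (𝓞 N ⧸ P)).injective
  rw [Cnt_card i hi]
  have hiff : ∀ z : 𝓞 N ⧸ P, (∃ b, i b = z) ↔ z ^ nm v = z := by
    intro z
    constructor
    · rintro ⟨b, rfl⟩
      have : Fintype (𝓞 K ⧸ v.asIdeal) := Fintype.ofFinite _
      rw [← map_pow, ← hcard, Nat.card_eq_fintype_card, FiniteField.pow_card]
    · intro hz
      exact Cnt_roots (i : (𝓞 K ⧸ v.asIdeal) →+* (𝓞 N ⧸ P)) (z := z) (by rw [hcard]; exact hz)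
  -- reduction of the composition with Frobenius
  have hred : ∀ (φ : F →ₐ[K] N) (a : 𝓞 F),
      redHom K F N P ((g : N →ₐ[K] N).comp φ) a = (redHom K F N P φ a) ^ nm v := by
    intro φ a
    show Ideal.Quotient.mk P (RingOfIntegers.mapAlgHom ((g : N →ₐ[K] N).comp φ) a) =
      (Ideal.Quotient.mk P (RingOfIntegers.mapAlgHom φ a)) ^ nm v
    rw [← map_pow, Ideal.Quotient.eq]
    exact hfrob (RingOfIntegers.mapAlgHom φ a)
  unfold fix
  symm
  refine Nat.card_congr (Equiv.subtypeEquiv (Equiv.ofBijective _ hbij) (fun φ => ?_))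
  constructor
  · intro h a
    rw [hiff]
    show (redHom K F N P φ a) ^ nm v = redHom K F N P φ a
    rw [← hred, h]
  · intro h
    apply hbij.1
    refine AlgHom.ext (fun a => ?_)
    rw [hred]
    exact (hiff _).1 (h a)

end MP7ed9c3.Ext
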