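import Pool.Agent.Lib.MP_7ed9c3_nt.Ext.Spec

/-! # MP_7ed9c3_nt, part Ext: the mean of a cosine -/

set_option autoImplicit false

namespace MP7ed9c3.Ext

open NumberField IsDedekindDomain Filter Topology MP7ed9c3.Tw

theorem CosM_int {u : ℝ} (hu : u ≠ 0) (T : ℝ) :
    ∫ y in (0 : ℝ)..T, Real.cos (u * y) = Real.sin (u * T) / u := by
  rw [intervalIntegral.integral_comp_mul_left (fun x => Real.cos x) hu, integral_cos, mul_zero,
    Real.sin_zero, sub_zero, smul_eq_mul]
  field_simp

theorem cosM : S_CosM := by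
  intro u
  by_cases hu : u = 0
  · rw [if_pos hu]
    refine tendsto_const_nhds.congr' ?_
    filter_upwards [eventually_gt_atTop 0] with T hT
    have h1 : ∫ y in (0 : ℝ)..T, Real.cos (u * y) = T := by
      simp [hu]
    rw [h1]
    field_simp
  · rw [if_neg hu]
    simp_rw [CosM_int hu]
    have h1 : Tendsto (fun T : ℝ => (1 / |u|) * T⁻¹) atTop (𝓝 0) := by
      have := tendsto_inv_atTop_zero.const_mul (1 / |u|)
      rwa [mul_zero] at this
    refine squeeze_zero_norm' ?_ h1
    filter_upwards [eventually_gt_atTop 0] with T hT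
    have hu' : 0 < |u| := abs_pos.mpr hu
    rw [Real.norm_eq_abs, abs_mul, abs_div, abs_div, abs_one, abs_of_pos hT]
    have h2 : |Real.sin (u * T)| ≤ 1 := Real.abs_sin_le_one _
    calc 1 / T * (|Real.sin (u * T)| / |u|) ≤ 1 / T * (1 / |u|) := by gcongr
      _ = 1 / |u| * T⁻¹ := by ring

end MP7ed9c3.Ext
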