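import Pool.Agent.Lib.MP_7ed9c3_nt.Ext.Spec

/-!
# MP_7ed9c3_nt, part Ext: primes of degree one and fixed embeddings
-/

set_option autoImplicit false

namespace MP7ed9c3.Ext

open NumberField IsDedekindDomain Filter Topology MP7ed9c3.Tw

theorem Deg_finite_mem {K : Type} [Field K] [NumberField K] {x : 𝓞 K} (hx : x ≠ 0) :
    {v : HeightOneSpectrum (𝓞 K) | x ∈ v.asIdeal}.Finite := by
  have h0 : Ideal.span {x} ≠ 0 := by
    intro h
    exact hx (Ideal.span_singleton_eq_bot.mp h)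
  refine (Ideal.finite_factors h0).subset ?_
  intro v hv
  simp only [Set.mem_ofPred_eq] at hv ⊢
  rw [Ideal.dvd_span_singleton]
  exact hv

theorem deg (hH : S_Homs) (hF : S_Frob) (hB : S_Bij) (hC : S_Cnt) : S_Deg := by
  intro K N _ _ _ _ _ _
  choose P σ hP using fun v : HeightOneSpectrum (𝓞 K) => hF K N v
  refine ⟨σ, fun F _ _ _ hne => ?_⟩
  obtain ⟨D, hD, h⟩ := hB K F N hne
  refine ⟨{v | D ∈ v.asIdeal}, Deg_finite_mem hD, fun v hv => ?_⟩
  have h1 := hP v
  have h2 : algebraMap (𝓞 K) (𝓞 N) D ∉ P v := by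
    intro h3
    apply hv
    show D ∈ v.asIdeal
    rw [← h1.2.1]
    exact h3
  rw [hH K F v]
  exact hC K F N v (P v) (σ v) h1 (h (P v) h1.1 h2)

end MP7ed9c3.Ext
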