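import Pool.Agent.Lib.MP_7ed9c3_nt.Ext.Spec
import Pool.Agent.Lib.MP_7ed9c3_nt.N2

/-!
# MP_7ed9c3_nt, part Ext: minimal models exist at every prime
-/

set_option autoImplicit false

namespace MP7ed9c3.Ext

open NumberField IsDedekindDomain Filter Topology MP7ed9c3.Tw

theorem existsMin : S_ExistsMin := by
  intro K _ _ E hE v
  classical
  obtain ⟨W₀, hW₀, hC₀⟩ := existsModel K E hE
  have hne : ∃ n : ℕ, ∃ W : WeierstrassCurve (𝓞 K),
      (∃ C : WeierstrassCurve.VariableChange K, C • E = W.map (algebraMap (𝓞 K) K)) ∧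
        W.Δ ∉ v.asIdeal ^ n := by
    by_contra h
    push Not at h
    have h1 : W₀.Δ ∈ ⨅ n : ℕ, v.asIdeal ^ n := by
      rw [Submodule.mem_iInf]
      intro n
      exact h n W₀ hC₀
    rw [Ideal.iInf_pow_eq_bot_of_isDomain v.asIdeal v.isPrime.ne_top] at h1
    exact hW₀ (by simpa using h1)
  obtain ⟨W, hC, hW⟩ := Nat.find_spec hne
  refine ⟨W, hC, ?_⟩
  intro W' hC' n hn
  by_contra h
  have h1 : Nat.find hne ≤ n := Nat.find_min' hne ⟨W', hC', h⟩
  exact hW (Ideal.pow_le_pow_right h1 hn)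

end MP7ed9c3.Ext
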