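import Pool.Agent.Lib.MP_7ed9c3_nt.Ext.Spec

/-!
# MP_7ed9c3_nt, part Ext, Fib: the primes of F over a prime of K
-/

set_option autoImplicit false

namespace MP7ed9c3.Ext

open NumberField IsDedekindDomain Filter Topology MP7ed9c3.Tw

theorem fib : S_Fib := by
  classical
  intro K F _ _ _ _ _ v
  set p : Ideal (𝓞 K) := v.asIdeal with hp
  have hpm : p.IsMaximal := v.isMaximal
  have hp0 : p ≠ ⊥ := v.ne_bot
  have hpp : p.IsPrime := v.isPrime
  have hfin : (p.primesOver (𝓞 F)).Finite := IsDedekindDomain.primesOver_finite p (𝓞 F)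
  have hcomp : ∀ w : HeightOneSpectrum (𝓞 F), w.asIdeal.comap (algebraMap (𝓞 K) (𝓞 F)) = p →
      w.asIdeal ∈ p.primesOver (𝓞 F) := fun w hw => ⟨w.isPrime, ⟨hw.symm⟩⟩
  let mk : p.primesOver (𝓞 F) → HeightOneSpectrum (𝓞 F) := fun q =>
    ⟨q.1, q.2.1, by
      have := q.2.2
      exact Ideal.ne_bot_of_liesOver_of_ne_bot hp0 q.1⟩
  have hmk : ∀ q : p.primesOver (𝓞 F), (mk q).asIdeal.comap (algebraMap (𝓞 K) (𝓞 F)) = p :=
    fun q => q.2.2.over.symm
  have hset : {w : HeightOneSpectrum (𝓞 F) |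
      w.asIdeal.comap (algebraMap (𝓞 K) (𝓞 F)) = p} = Set.range mk := by
    ext w
    constructor
    · intro hw
      exact ⟨⟨w.asIdeal, hcomp w hw⟩, rfl⟩
    · rintro ⟨q, rfl⟩
      exact hmk q
  have hfin' : Finite (p.primesOver (𝓞 F)) := hfin
  have hsum := Ideal.sum_ramification_inertia_eq_finrank p (𝓞 F)
  rw [← IsFractionRing.finrank_eq (𝓞 K) K (𝓞 F) F] at hsum
  have hnm : ∀ q : p.primesOver (𝓞 F), nm (mk q) = nm v ^ (q.1.inertiaDeg (𝓞 K)) := by
    intro q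
    have := q.2.1
    have := q.2.2
    exact (Ideal.absNorm_pow_inertiaDeg p q.1).symm
  have hpos : ∀ q : p.primesOver (𝓞 F), 1 ≤ q.1.ramificationIdx (𝓞 K) ∧
      1 ≤ q.1.inertiaDeg (𝓞 K) := by
    intro q
    have := q.2.1
    exact ⟨Ideal.ramificationIdx_pos q.1 (𝓞 K), Ideal.inertiaDeg_pos q.1 (𝓞 K)⟩
  refine ⟨by rw [hset]; exact Set.finite_range mk, ?_, ?_⟩
  · rw [hset, ← Nat.card_coe_set_eq]
    calc Nat.card (Set.range mk) ≤ Nat.card (p.primesOver (𝓞 F)) :=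
          Finite.card_range_le mk
      _ = ∑ q : p.primesOver (𝓞 F), 1 := by
        rw [Finset.sum_const, smul_eq_mul, mul_one, Finset.card_univ, Nat.card_eq_fintype_card]
      _ ≤ _ := by
        rw [← hsum]
        exact Finset.sum_le_sum fun q _ => Nat.one_le_iff_ne_zero.2
          (Nat.mul_ne_zero (Nat.one_le_iff_ne_zero.1 (hpos q).1)
            (Nat.one_le_iff_ne_zero.1 (hpos q).2))
  · intro w hw hne
    have e1 : w = mk ⟨w.asIdeal, hcomp w hw⟩ := rfl
    have e2 := hnm ⟨w.asIdeal, hcomp w hw⟩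
    rw [← e1] at e2
    set f := (w.asIdeal).inertiaDeg (𝓞 K) with hf
    have hf1 : 1 ≤ f := (hpos ⟨w.asIdeal, hcomp w hw⟩).2
    have hf2 : f ≠ 1 := by
      intro h
      apply hne
      rw [e2]
      show nm v ^ f = nm v
      rw [h, pow_one]
    rw [e2]
    show nm v ^ 2 ≤ nm v ^ f
    refine Nat.pow_le_pow_right ?_ (by omega)
    have : nm v ≠ 0 := by
      unfold nm
      rw [Ne, Ideal.absNorm_eq_zero_iff]
      exact hp0
    omega

end MP7ed9c3.Ext
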