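import Pool.Agent.Lib.MP_7ed9c3_nt.Ext.Spec

/-!
# MP_7ed9c3_nt, part Ext: the embeddings of a fixed field are the cosets
-/

set_option autoImplicit false

namespace MP7ed9c3.Ext

open NumberField IsDedekindDomain Filter Topology MP7ed9c3.Tw

/-- the map from cosets to embeddings -/
noncomputable def FixF_map {K N : Type} [Field K] [Field N] [Algebra K N]
    (H : Subgroup (N ≃ₐ[K] N)) :
    (N ≃ₐ[K] N) ⧸ H → (IntermediateField.fixedField H →ₐ[K] N) :=
  Quotient.lift (fun τ : N ≃ₐ[K] N => (τ : N →ₐ[K] N).comp (IntermediateField.fixedField H).val) (by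
    intro τ τ' h
    have h1 : τ⁻¹ * τ' ∈ H := QuotientGroup.leftRel_apply.mp h
    apply AlgHom.ext
    intro a
    have h2 : (τ⁻¹ * τ') (a : N) = (a : N) :=
      (IntermediateField.mem_fixedField_iff H (a : N)).mp a.2 _ h1
    have h3 : τ ((τ⁻¹ * τ') (a : N)) = τ' (a : N) := by
      rw [← AlgEquiv.mul_apply, mul_inv_cancel_left]
    rw [h2] at h3
    exact h3)

theorem fixF : S_FixF := by
  intro K N _ _ _ _ _ _ H
  refine ⟨IntermediateField.fixedField H, inferInstance, inferInstance, inferInstance,
    ⟨(IntermediateField.fixedField H).val⟩, fun g => ?_⟩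
  have hmk : ∀ τ : N ≃ₐ[K] N, FixF_map H (QuotientGroup.mk τ) =
      (τ : N →ₐ[K] N).comp (IntermediateField.fixedField H).val := fun τ => rfl
  have hinj : Function.Injective (FixF_map H) := by
    intro y y'
    induction y using QuotientGroup.induction_on with
    | H τ =>
      induction y' using QuotientGroup.induction_on with
      | H τ' =>
        intro h
        rw [hmk, hmk] at h
        rw [QuotientGroup.eq]
        have h1 : τ⁻¹ * τ' ∈ IntermediateField.fixingSubgroup (IntermediateField.fixedField H) := by
          rw [IntermediateField.mem_fixingSubgroup_iff]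
          intro a ha
          have h2 := DFunLike.congr_fun h ⟨a, ha⟩
          have h3 : τ a = τ' a := h2
          rw [AlgEquiv.mul_apply, ← h3, ← AlgEquiv.mul_apply, inv_mul_cancel]
          rfl
        rwa [IntermediateField.fixingSubgroup_fixedField] at h1
  have hsurj : Function.Surjective (FixF_map H) := by
    intro φ
    have h1 : Function.Bijective (φ.liftNormal N) :=
      Algebra.IsAlgebraic.algHom_bijective _
    refine ⟨QuotientGroup.mk (AlgEquiv.ofBijective (φ.liftNormal N) h1), ?_⟩
    rw [hmk]
    apply AlgHom.ext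
    intro a
    exact φ.liftNormal_commutes N a
  have hequiv : ∀ y : (N ≃ₐ[K] N) ⧸ H,
      FixF_map H (g • y) = (g : N →ₐ[K] N).comp (FixF_map H y) := by
    intro y
    induction y using QuotientGroup.induction_on with
    | H τ =>
      rw [hmk]
      apply AlgHom.ext
      intro a
      rfl
  unfold fix
  symm
  refine Nat.card_congr (Equiv.subtypeEquiv (Equiv.ofBijective _ ⟨hinj, hsurj⟩) fun y => ?_)
  show g • y = y ↔ (g : N →ₐ[K] N).comp (FixF_map H y) = FixF_map H y
  rw [← hequiv y]
  exact hinj.eq_iff.symm

end MP7ed9c3.Ext
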