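import Pool.Agent.Lib.MP_7ed9c3_nt.Ext.Spec

/-! Existence of Frobenius elements. -/

set_option autoImplicit false

namespace MP7ed9c3.Ext

open NumberField IsDedekindDomain Filter Topology MP7ed9c3.Tw

theorem Frob_exists_prime (K N : Type) [Field K] [NumberField K] [Field N] [NumberField N]
    [Algebra K N] (v : HeightOneSpectrum (𝓞 K)) : ∃ P : Ideal (𝓞 N), P.IsMaximal ∧
      P.comap (algebraMap (𝓞 K) (𝓞 N)) = v.asIdeal := by
  haveI : v.asIdeal.IsMaximal := v.isMaximal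
  have hinj : Function.Injective (algebraMap (𝓞 K) (𝓞 N)) :=
    FaithfulSMul.algebraMap_injective (𝓞 K) (𝓞 N)
  obtain ⟨P, hP, h⟩ := Ideal.exists_ideal_over_maximal_of_isIntegral (S := 𝓞 N) v.asIdeal
    (by rw [(RingHom.injective_iff_ker_eq_bot _).1 hinj]; exact bot_le)
  exact ⟨P, hP, h⟩

theorem frob : S_Frob := by
  intro K N _ _ _ _ _ _ v
  obtain ⟨P, hP, hPv⟩ := Frob_exists_prime K N v
  haveI := hP
  haveI : P.IsPrime := hP.isPrime
  have hP0 : P ≠ ⊥ := by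
    rintro rfl
    apply v.ne_bot
    rw [← hPv]
    have hinj : Function.Injective (algebraMap (𝓞 K) (𝓞 N)) :=
      FaithfulSMul.algebraMap_injective (𝓞 K) (𝓞 N)
    exact (RingHom.injective_iff_ker_eq_bot _).1 hinj
  haveI : Finite (𝓞 N ⧸ P) := Ideal.finiteQuotientOfFreeOfNeBot P hP0
  haveI := Algebra.isInvariant_of_isGalois' (𝓞 K) K N (𝓞 N)
  haveI : Finite (𝓞 N ≃ₐ[𝓞 K] 𝓞 N) :=
    Finite.of_equiv _ (galRestrict (𝓞 K) K N (𝓞 N)).toEquiv
  obtain ⟨σ, hσ⟩ := IsArithFrobAt.exists_of_isInvariant (𝓞 K) (𝓞 N ≃ₐ[𝓞 K] 𝓞 N) P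
  refine ⟨P, (galRestrict (𝓞 K) K N (𝓞 N)).symm σ, inferInstance, hPv, fun a => ?_⟩
  have h1 := hσ a
  have h2 : Nat.card (𝓞 K ⧸ P.under (𝓞 K)) = nm v := by
    unfold nm
    rw [Ideal.absNorm_apply, Submodule.cardQuot_apply]
    have h3 : P.under (𝓞 K) = v.asIdeal := hPv
    rw [h3]
  rw [h2] at h1
  have h4 : RingOfIntegers.mapAlgHom
      ((((galRestrict (𝓞 K) K N (𝓞 N)).symm σ : N ≃ₐ[K] N)) : N →ₐ[K] N) a = σ a := by
    apply RingOfIntegers.ext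
    have h5 := algebraMap_galRestrict_apply (𝓞 K) ((galRestrict (𝓞 K) K N (𝓞 N)).symm σ) a
    rw [MulEquiv.apply_symm_apply] at h5
    exact h5.symm
  rw [h4]
  exact h1

end MP7ed9c3.Ext
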