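import Pool.Agent.Lib.MP_7ed9c3_nt.Ext.Spec

/-!
# MP_7ed9c3_nt, Ext/GSet: orbit decomposition and Burnside
-/

set_option autoImplicit false

namespace MP7ed9c3.Ext

open NumberField IsDedekindDomain Filter Topology MP7ed9c3.Tw

/-- fixed points, orbit by orbit -/
theorem GSet_fx_eq {G : Type} [_root_.Group G] [Finite G] (Y : Type) [Fintype Y] [MulAction G Y]
    [Fintype (MulAction.orbitRel.Quotient G Y)] (g : G) :
    fx Y g = ∑ ω : MulAction.orbitRel.Quotient G Y,
      fx (G ⧸ MulAction.stabilizer G (Quotient.out ω)) g := by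
  classical
  unfold fx
  have key : ∀ (ω : MulAction.orbitRel.Quotient G Y) (w : Y),
      w ∈ MulAction.orbit G (Quotient.out ω) →
      (Quotient.mk'' w : MulAction.orbitRel.Quotient G Y) = ω := by
    intro ω w hw
    have h1 : (Quotient.mk'' w : MulAction.orbitRel.Quotient G Y) =
        Quotient.mk'' (Quotient.out ω) := Quotient.sound' (MulAction.orbitRel_apply.mpr hw)
    rw [h1]
    exact Quotient.out_eq' ω
  have h : Nat.card {y : Y // g • y = y} = Nat.card
      (Σ ω : MulAction.orbitRel.Quotient G Y,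
        {z : G ⧸ MulAction.stabilizer G (Quotient.out ω) // g • z = z}) := by
    symm
    apply Nat.card_congr
    refine Equiv.ofBijective (fun p => ⟨MulAction.ofQuotientStabilizer G (Quotient.out p.1) p.2.1, ?_⟩)
      ⟨?_, ?_⟩
    · rw [← MulAction.ofQuotientStabilizer_smul, p.2.2]
    · rintro ⟨ω, z, hz⟩ ⟨ω', z', hz'⟩ he
      simp only [Subtype.mk.injEq] at he
      have h1 : ω = ω' := by
        have m1 := MulAction.ofQuotientStabilizer_mem_orbit G (Quotient.out ω) z
        have m2 := MulAction.ofQuotientStabilizer_mem_orbit G (Quotient.out ω') z'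
        have e1 := key _ _ m1
        have e2 := key _ _ m2
        rw [he] at e1
        exact e1.symm.trans e2
      subst h1
      have h2 := MulAction.injective_ofQuotientStabilizer G (Quotient.out ω) he
      subst h2
      rfl
    · rintro ⟨y, hy⟩
      obtain ⟨h, hh⟩ : y ∈ MulAction.orbit G
          (Quotient.out (Quotient.mk'' y : MulAction.orbitRel.Quotient G Y)) := by
        have h1 := Quotient.out_eq' (Quotient.mk'' y : MulAction.orbitRel.Quotient G Y)
        have h2 := Quotient.exact' h1
        have h3 := MulAction.orbitRel_apply.mp h2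
        exact MulAction.mem_orbit_symm.mp h3
      have hz : MulAction.ofQuotientStabilizer G
          (Quotient.out (Quotient.mk'' y : MulAction.orbitRel.Quotient G Y))
          (QuotientGroup.mk h) = y := by
        rw [MulAction.ofQuotientStabilizer_mk]
        exact hh
      refine ⟨⟨Quotient.mk'' y, ⟨QuotientGroup.mk h, ?_⟩⟩, ?_⟩
      · apply MulAction.injective_ofQuotientStabilizer G
        rw [MulAction.ofQuotientStabilizer_smul, hz, hy]
      · apply Subtype.ext
        exact hz
  rw [h, Nat.card_sigma]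
  push_cast
  rfl

theorem GSet_burnside {G : Type} [_root_.Group G] [Fintype G] (Y : Type) [Fintype Y] [MulAction G Y]
    [Fintype (MulAction.orbitRel.Quotient G Y)] :
    (1 / (Fintype.card G : ℝ)) * ∑ g : G, fx Y g =
      (Fintype.card (MulAction.orbitRel.Quotient G Y) : ℝ) := by
  classical
  have h := MulAction.sum_card_fixedBy_eq_card_orbits_mul_card_group G Y
  have h1 : ∑ g : G, fx Y g = ∑ g : G, (Fintype.card (MulAction.fixedBy Y g) : ℝ) := by
    refine Finset.sum_congr rfl fun g _ => ?_
    unfold fx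
    rw [← Nat.card_eq_fintype_card]
    rfl
  have hG : (Fintype.card G : ℝ) ≠ 0 := by
    have : 0 < Fintype.card G := Fintype.card_pos
    positivity
  rw [h1]
  have h2 : ∑ g : G, (Fintype.card (MulAction.fixedBy Y g) : ℝ) =
      (Fintype.card (MulAction.orbitRel.Quotient G Y) : ℝ) * (Fintype.card G : ℝ) := by
    exact_mod_cast h
  rw [h2]
  field_simp

theorem GSet_fx_le {G : Type} [_root_.Group G] (Y : Type) [Finite Y] [MulAction G Y] (g : G) :
    0 ≤ fx Y g ∧ fx Y g ≤ Nat.card Y := by
  unfold fx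
  refine ⟨by positivity, ?_⟩
  exact_mod_cast Nat.card_le_card_of_injective (fun y : {y : Y // g • y = y} => y.1)
    Subtype.val_injective

theorem GSet_Bd {X G : Type} [_root_.Group G] (σ : X → G) (ℓ : X → ℝ) (Y : Type) [Finite Y]
    [MulAction G Y] (u : ℝ) : Bd (fun v => fx Y (σ v) * Real.cos (u * ℓ v)) := by
  refine ⟨Nat.card Y, fun v => ?_⟩
  obtain ⟨h1, h2⟩ := GSet_fx_le Y (σ v)
  rw [abs_mul, abs_of_nonneg h1]
  calc fx Y (σ v) * |Real.cos (u * ℓ v)| ≤ fx Y (σ v) * 1 :=
        mul_le_mul_of_nonneg_left (Real.abs_cos_le_one _) h1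
    _ ≤ Nat.card Y := by linarith

theorem GSet_sum (hM : S_MeanLin) {X : Type} {q : X → ℕ} (hq : Norms q) {ι : Type}
    (s : Finset ι) (g : ι → X → ℝ) (L : ι → ℝ) (hb : ∀ i ∈ s, Bd (g i))
    (hL : ∀ i ∈ s, HasMean q (g i) (L i)) :
    Bd (fun v => ∑ i ∈ s, g i v) ∧ HasMean q (fun v => ∑ i ∈ s, g i v) (∑ i ∈ s, L i) := by
  classical
  obtain ⟨m1, m2, m3, m4, m5⟩ := hM X q hq
  induction s using Finset.induction_on with
  | empty =>
    refine ⟨⟨0, fun v => by simp⟩, ?_⟩
    have h := m2 0 (fun _ => 1) 1 hq.2.2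
    simpa using h
  | insert a s ha ih =>
    obtain ⟨h1, h2⟩ := ih (fun i hi => hb i (Finset.mem_insert_of_mem hi))
      fun i hi => hL i (Finset.mem_insert_of_mem hi)
    have hba := hb a (Finset.mem_insert_self a s)
    constructor
    · obtain ⟨B1, hB1⟩ := h1
      obtain ⟨B2, hB2⟩ := hba
      refine ⟨B2 + B1, fun v => ?_⟩
      simp only [Finset.sum_insert ha]
      exact (abs_add_le _ _).trans (add_le_add (hB2 v) (hB1 v))
    · have h3 := m1 (g a) (fun v => ∑ i ∈ s, g i v) (L a) (∑ i ∈ s, L i) hba h1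
        (hL a (Finset.mem_insert_self a s)) h2
      rw [Finset.sum_insert ha]
      refine h3.congr ?_
      intro x
      congr 1
      unfold Qs
      refine tsum_congr fun v => ?_
      simp only [Finset.sum_insert ha]

theorem gSet (hM : S_MeanLin) (hC : S_CosM) : S_GSet := by
  intro X G _ _ q σ ℓ hq hT Y _ _ u
  classical
  have : Fintype (MulAction.orbitRel.Quotient G Y) := Fintype.ofFinite _
  refine ⟨∑ _ω : MulAction.orbitRel.Quotient G Y, (if u = 0 then (1 : ℝ) else 0), ?_, ?_⟩
  · have h1 := (GSet_sum hM hq (Finset.univ : Finset (MulAction.orbitRel.Quotient G Y))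
      (fun ω v => fx (G ⧸ MulAction.stabilizer G (Quotient.out ω)) (σ v) * Real.cos (u * ℓ v))
      (fun _ => if u = 0 then (1 : ℝ) else 0)
      (fun ω _ => GSet_Bd σ ℓ _ u)
      (fun ω _ => hT (MulAction.stabilizer G (Quotient.out ω)) u)).2
    refine h1.congr ?_
    intro x
    congr 1
    unfold Qs
    refine tsum_congr fun v => ?_
    simp only [GSet_fx_eq Y (σ v), Finset.sum_mul]
  · have h1 : ∀ T : ℝ, gmean (fun (g : G) y => fx Y g * Real.cos (u * y)) T =
        (Fintype.card (MulAction.orbitRel.Quotient G Y) : ℝ) *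
          ((1 / T) * ∫ y in (0 : ℝ)..T, Real.cos (u * y)) := by
      intro T
      unfold gmean
      rw [← GSet_burnside Y]
      have h2 : ∀ y : ℝ, (1 / (Fintype.card G : ℝ)) * ∑ g : G, fx Y g * Real.cos (u * y) =
          ((1 / (Fintype.card G : ℝ)) * ∑ g : G, fx Y g) * Real.cos (u * y) := by
        intro y
        rw [← Finset.sum_mul]
        ring
      simp only [h2]
      rw [intervalIntegral.integral_const_mul]
      ring
    have h2 := (hC u).const_mul (Fintype.card (MulAction.orbitRel.Quotient G Y) : ℝ)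
    rw [Finset.sum_const, Finset.card_univ, nsmul_eq_mul]
    exact h2.congr fun T => (h1 T).symm

end MP7ed9c3.Ext
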