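import Pool.Agent.Lib.MP_7ed9c3_nt.Ext.Spec
import Pool.Agent.Lib.MP_7ed9c3_nt.Tw.All2

/-!
# MP_7ed9c3_nt, part Ext: the facts proved in the other parts
-/

set_option autoImplicit false

namespace MP7ed9c3.Ext

open NumberField IsDedekindDomain Filter Topology MP7ed9c3.Tw

theorem logProd : LogProd := by
  intro K _ _ E hE M hM
  obtain ⟨C, hC⟩ := B2.log_prod hE hM
  exact ⟨C, hC⟩

theorem traceConst : TraceConst := by
  intro K _ _ E hE M hM
  exact Z5.trace_const existsModel goodDataAll traceBoundAll hE hM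

end MP7ed9c3.Ext
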