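import Pool.Agent.Lib.MP_7ed9c3_nt.Ext.Spec

/-!
# MP_7ed9c3_nt, Ext/Master: assembly of the master inequality
-/

set_option autoImplicit false

namespace MP7ed9c3.Ext

open NumberField IsDedekindDomain Filter Topology MP7ed9c3.Tw

theorem Master_summable {X : Type} {q : X → ℕ} (hq : Norms q) {g : X → ℝ} (hg : Bd g) {x : ℝ}
    (hx : 0 < x) : Summable fun v => g v * (q v : ℝ) ^ (-(1 + x)) := by
  obtain ⟨B, hB⟩ := hg
  refine Summable.of_norm_bounded ((hq.2.1 (1 + x) (by linarith)).mul_left B) fun v => ?_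
  rw [Real.norm_eq_abs, abs_mul, abs_of_nonneg (by positivity : 0 ≤ (q v : ℝ) ^ (-(1 + x)))]
  exact mul_le_mul_of_nonneg_right (hB v) (by positivity)

theorem Master_Qs_sum {X : Type} {q : X → ℕ} (hq : Norms q) {m : ℕ} (c : Fin m → ℝ)
    (g : Fin m → X → ℝ) (hg : ∀ j, Bd (g j)) {x : ℝ} (hx : 0 < x) :
    ∑ j, c j * Qs q x (g j) = Qs q x (fun v => ∑ j, c j * g j v) := by
  unfold Qs
  have h1 : ∀ v : X, (∑ j, c j * g j v) * (q v : ℝ) ^ (-(1 + x)) =
      ∑ j, c j * (g j v * (q v : ℝ) ^ (-(1 + x))) := by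
    intro v
    rw [Finset.sum_mul]
    refine Finset.sum_congr rfl fun j _ => ?_
    ring
  simp only [h1]
  rw [Summable.tsum_finsetSum]
  · refine Finset.sum_congr rfl fun j _ => ?_
    rw [tsum_mul_left]
  · intro j _
    exact (Master_summable hq (hg j) hx).mul_left (c j)

theorem Master_Qs_abs {X : Type} {q : X → ℕ} (hq : Norms q) {g : X → ℝ} (hg : Bd g) {x : ℝ}
    (hx : 0 < x) : |Qs q x g| ≤ Qs q x (fun v => |g v|) := by
  unfold Qs
  have hs : Summable fun v => ‖g v * (q v : ℝ) ^ (-(1 + x))‖ := (Master_summable hq hg hx).norm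
  have h := norm_tsum_le_tsum_norm hs
  rw [Real.norm_eq_abs] at h
  refine h.trans (le_of_eq (tsum_congr fun v => ?_))
  rw [Real.norm_eq_abs, abs_mul, abs_of_nonneg (by positivity : 0 ≤ (q v : ℝ) ^ (-(1 + x)))]

theorem Master_Qs_le {X : Type} {q : X → ℕ} (hq : Norms q) {g h : X → ℝ} (hg : Bd g) (hh : Bd h)
    (hg0 : ∀ v, 0 ≤ g v) (hh0 : ∀ v, 0 ≤ h v) (S : Finset X) (hS : ∀ v ∉ S, g v ≤ h v) {x : ℝ}
    (hx : 0 < x) : Qs q x g ≤ Qs q x h + ∑ v ∈ S, g v := by
  classical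
  unfold Qs
  have hs : HasSum (fun v => if v ∈ S then g v else 0) (∑ v ∈ S, g v) := by
    have h1 : HasSum (fun v => if v ∈ S then g v else 0)
        (∑ v ∈ S, (if v ∈ S then g v else 0)) :=
      hasSum_sum_of_ne_finset_zero (fun v hv => if_neg hv)
    have h2 : ∑ v ∈ S, (if v ∈ S then g v else 0) = ∑ v ∈ S, g v :=
      Finset.sum_congr rfl fun v hv => if_pos hv
    rw [h2] at h1
    exact h1
  rw [← hs.tsum_eq, ← (Master_summable hq hh hx).tsum_add hs.summable]
  refine Summable.tsum_le_tsum (fun v => ?_) (Master_summable hq hg hx)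
    ((Master_summable hq hh hx).add hs.summable)
  have hw0 : 0 ≤ (q v : ℝ) ^ (-(1 + x)) := by positivity
  have hw1 : (q v : ℝ) ^ (-(1 + x)) ≤ 1 := by
    apply Real.rpow_le_one_of_one_le_of_nonpos
    · have := hq.1 v
      have h2 : (2 : ℝ) ≤ q v := by exact_mod_cast this
      linarith
    · linarith
  by_cases hv : v ∈ S
  · rw [if_pos hv]
    have h1 := mul_nonneg (hh0 v) hw0
    have h2 := mul_le_mul_of_nonneg_left hw1 (hg0 v)
    linarith
  · rw [if_neg hv, add_zero]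
    exact mul_le_mul_of_nonneg_right (hS v hv) hw0

theorem Master_deg1_le (hF : S_Fib) (K F : Type) [Field K] [NumberField K] [Field F]
    [NumberField F] [Algebra K F] (v : HeightOneSpectrum (𝓞 K)) :
    deg1 K F v ≤ Module.finrank K F := by
  obtain ⟨h1, h2, -⟩ := hF K F v
  refine le_trans ?_ h2
  unfold deg1
  have h3 : Nat.card {w : HeightOneSpectrum (𝓞 F) //
      w.asIdeal.comap (algebraMap (𝓞 K) (𝓞 F)) = v.asIdeal ∧ nm w = nm v} =
      {w : HeightOneSpectrum (𝓞 F) |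
        w.asIdeal.comap (algebraMap (𝓞 K) (𝓞 F)) = v.asIdeal ∧ nm w = nm v}.ncard := rfl
  rw [h3]
  exact Set.ncard_le_ncard (fun w hw => hw.1) h1

/-- the action of the Galois group on the embeddings -/
@[reducible] def Master_act (K F N : Type) [Field K] [Field F] [Field N] [Algebra K F]
    [Algebra K N] : MulAction (N ≃ₐ[K] N) (F →ₐ[K] N) where
  smul g φ := (g : N →ₐ[K] N).comp φ
  one_smul φ := by
    apply AlgHom.ext
    intro a
    rfl
  mul_smul g h φ := by
    apply AlgHom.ext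
    intro a
    rfl

theorem Master_finite (K F : Type) [Field K] [NumberField K] [Field F] [NumberField F]
    [Algebra K F] : FiniteDimensional K F :=
  Module.Finite.of_restrictScalars_finite ℚ K F

theorem Master_log {C ε : ℝ} (hε : 0 < ε) :
    ∀ᶠ x : ℝ in 𝓝[>] 0, C ≤ ε * Real.log (1 / x) := by
  have h1 : Tendsto (fun x : ℝ => Real.log (1 / x)) (𝓝[>] 0) atTop := by
    have h2 : Tendsto (fun x : ℝ => 1 / x) (𝓝[>] 0) atTop := by
      simp only [one_div]
      exact tendsto_inv_nhdsGT_zero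
    exact Real.tendsto_log_atTop.comp h2
  filter_upwards [h1.eventually_ge_atTop (C / ε)] with x hx
  rw [div_le_iff₀ hε] at hx
  linarith

theorem master (hN : S_NormK) (hT : S_TransK) (hW : S_Wei) (hL : S_LSum) (_hM : S_MeanLin)
    (hF : S_Fib) (hTC : TraceConst) (hE : S_ExistsMin) : S_Master := by
  intro K N _ _ _ _ _ _ E hEll m F hemb M hM c t B hB ε hε
  classical
  obtain ⟨hnorm, -⟩ := hN K
  obtain ⟨σ, htrans, hdeg⟩ := hT K N
  have hM₀ : ∀ v : HeightOneSpectrum (𝓞 K), ∃ W : WeierstrassCurve (𝓞 K), IsMinAt E v W :=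
    fun v => hE K E hEll v
  choose M₀ hM₀ using hM₀
  obtain ⟨S₁, hS₁, h2, A, hA0, hA⟩ := hTC K E hEll M₀ hM₀
  have hdeg' : ∀ j, ∃ S : Set (HeightOneSpectrum (𝓞 K)), S.Finite ∧
      ∀ v ∉ S, deg1 K (F j).F v = fix K (F j).F N (σ v) := fun j => hdeg (F j).F (hemb j)
  choose S hSf hS using hdeg'
  have hLS : ∀ j, ∃ C : ℝ, ∀ x t : ℝ, 0 < x → x ≤ 1 →
      |Real.log ‖∏' w : HeightOneSpectrum (𝓞 (F j).F),
          (locDen (M j w) w (3 / 2 + x + t * Complex.I))⁻¹‖ -
        Qs (fun v : HeightOneSpectrum (𝓞 K) => nm v) x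
          (fun v => deg1 K (F j).F v *
            ((tr (M₀ v) v : ℝ) / √(nm v) * Real.cos (t * Real.log (nm v))))| ≤ C :=
    fun j => hL K (F j).F E hEll M₀ (M j) hM₀ (hM j)
  choose C hC using hLS
  set q : HeightOneSpectrum (𝓞 K) → ℕ := fun v => nm v with hq
  have hnm : ∀ v : HeightOneSpectrum (𝓞 K), 0 < √(nm v : ℝ) := by
    intro v
    have h3 := hnorm.1 v
    have h4 : (2 : ℝ) ≤ (nm v : ℝ) := by exact_mod_cast h3
    exact Real.sqrt_pos.mpr (by linarith)
  set l : HeightOneSpectrum (𝓞 K) → ℝ := fun v => (tr (M₀ v) v : ℝ) / √(nm v) with hl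
  have hlA : ∀ v, |l v| ≤ A := by
    intro v
    rw [hl]
    show |(tr (M₀ v) v : ℝ) / √(nm v)| ≤ A
    rw [abs_div, abs_of_pos (hnm v), div_le_iff₀ (hnm v)]
    exact hA v
  have hl2 : ∀ v ∉ S₁, |l v| ≤ 2 := by
    intro v hv
    rw [hl]
    show |(tr (M₀ v) v : ℝ) / √(nm v)| ≤ 2
    rw [abs_div, abs_of_pos (hnm v), div_le_iff₀ (hnm v)]
    exact h2 v hv
  set g : Fin m → HeightOneSpectrum (𝓞 K) → ℝ := fun j v =>
    deg1 K (F j).F v * (l v * Real.cos (t j * Real.log (nm v))) with hg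
  have hgB : ∀ j, Bd (g j) := by
    intro j
    refine ⟨Module.finrank K (F j).F * A, fun v => ?_⟩
    rw [hg]
    show |(deg1 K (F j).F v : ℝ) * (l v * Real.cos (t j * Real.log (nm v)))| ≤ _
    rw [abs_mul, abs_mul, Nat.abs_cast]
    have h3 : (deg1 K (F j).F v : ℝ) ≤ Module.finrank K (F j).F := by
      exact_mod_cast Master_deg1_le hF K (F j).F v
    have h4 := Real.abs_cos_le_one (t j * Real.log (nm v))
    calc (deg1 K (F j).F v : ℝ) * (|l v| * |Real.cos (t j * Real.log (nm v))|) ≤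
          Module.finrank K (F j).F * (A * 1) := by
          have := hlA v
          gcongr
      _ = _ := by ring
  -- the action on the embeddings
  let Y : Fin m → Type := fun j => ((F j).F →ₐ[K] N)
  have hfd : ∀ j, FiniteDimensional K (F j).F := fun j => Master_finite K (F j).F
  let instA : ∀ j, MulAction (N ≃ₐ[K] N) (Y j) := fun j => Master_act K (F j).F N
  let instF : ∀ j, Fintype (Y j) := fun j => Fintype.ofFinite ((F j).F →ₐ[K] N)
  have hfx : ∀ j (s : N ≃ₐ[K] N), fx (Y j) s = (fix K (F j).F N s : ℝ) := fun j s => rfl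
  set H : HeightOneSpectrum (𝓞 K) → ℝ := fun v =>
    ∑ j, c j * (fix K (F j).F N (σ v) * Real.cos (t j * Real.log (nm v))) with hH
  have hwei := hW (HeightOneSpectrum (𝓞 K)) (N ≃ₐ[K] N) q σ (fun v => Real.log (nm v)) hnorm
    htrans m Y c t B (by simpa only [hfx] using hB) (ε / 4) (by linarith)
  simp only [hfx] at hwei
  have hHB : Bd (fun v => 2 * |H v|) := by
    refine ⟨2 * ∑ j, |c j| * Nat.card (Y j), fun v => ?_⟩
    show |2 * (|H v|)| ≤ _
    rw [abs_mul, abs_abs, abs_of_pos (by norm_num : (0 : ℝ) < 2)]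
    apply mul_le_mul_of_nonneg_left _ (by norm_num)
    rw [hH]
    refine (Finset.abs_sum_le_sum_abs _ _).trans (Finset.sum_le_sum fun j _ => ?_)
    rw [abs_mul, abs_mul, Nat.abs_cast]
    apply mul_le_mul_of_nonneg_left _ (abs_nonneg _)
    have h3 : (fix K (F j).F N (σ v) : ℝ) ≤ Nat.card (Y j) := by
      unfold fix
      exact_mod_cast Nat.card_le_card_of_injective
        (fun y : {φ : (F j).F →ₐ[K] N // ((σ v : N ≃ₐ[K] N) : N →ₐ[K] N).comp φ = φ} => y.1)
        Subtype.val_injective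
    calc (fix K (F j).F N (σ v) : ℝ) * |Real.cos (t j * Real.log (nm v))| ≤
          (fix K (F j).F N (σ v) : ℝ) * 1 :=
          mul_le_mul_of_nonneg_left (Real.abs_cos_le_one _) (by positivity)
      _ ≤ Nat.card (Y j) := by linarith
  have hfin : (S₁ ∪ ⋃ j, S j).Finite := hS₁.union (Set.finite_iUnion hSf)
  set T := hfin.toFinset with hTdef
  set Gf : HeightOneSpectrum (𝓞 K) → ℝ := fun v => ∑ j, c j * g j v with hGf
  have hGB : Bd Gf := by
    choose b hb using hgB
    refine ⟨∑ j, |c j| * b j, fun v => ?_⟩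
    rw [hGf]
    refine (Finset.abs_sum_le_sum_abs _ _).trans (Finset.sum_le_sum fun j _ => ?_)
    rw [abs_mul]
    exact mul_le_mul_of_nonneg_left (hb j v) (abs_nonneg _)
  have hGBa : Bd (fun v => |Gf v|) := by
    obtain ⟨b, hb⟩ := hGB
    exact ⟨b, fun v => by rw [abs_abs]; exact hb v⟩
  have hcomp : ∀ v ∉ T, |Gf v| ≤ 2 * |H v| := by
    intro v hv
    rw [hTdef, Set.Finite.mem_toFinset, Set.mem_union, not_or, Set.mem_iUnion, not_exists] at hv
    have h3 : Gf v = l v * H v := by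
      rw [hGf, hH]
      show ∑ j, c j * (deg1 K (F j).F v * (l v * Real.cos (t j * Real.log (nm v)))) =
        l v * ∑ j, c j * (fix K (F j).F N (σ v) * Real.cos (t j * Real.log (nm v)))
      rw [Finset.mul_sum]
      refine Finset.sum_congr rfl fun j _ => ?_
      rw [hS j v (hv.2 j)]
      ring
    rw [h3, abs_mul]
    exact mul_le_mul_of_nonneg_right (hl2 v hv.1) (abs_nonneg _)
  set C' := ∑ j, |c j| * C j + ∑ v ∈ T, |Gf v| with hC'
  have hsmall : ∀ᶠ x : ℝ in 𝓝[>] 0, x ≤ 1 := by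
    have : Set.Iio (1 : ℝ) ∈ 𝓝[>] (0 : ℝ) := mem_nhdsWithin_of_mem_nhds (Iio_mem_nhds one_pos)
    filter_upwards [this] with x hx
    exact le_of_lt hx
  filter_upwards [hwei, Master_log (C := C') (ε := ε / 2) (by linarith), self_mem_nhdsWithin,
    hsmall] with x hx1 hx2 hx0 hx3
  have hx0' : 0 < x := hx0
  have e1 : |∑ j, c j * Real.log ‖lf (M j) (3 / 2 + x + t j * Complex.I)‖ -
      ∑ j, c j * Qs q x (g j)| ≤ ∑ j, |c j| * C j := by
    rw [← Finset.sum_sub_distrib]
    refine (Finset.abs_sum_le_sum_abs _ _).trans (Finset.sum_le_sum fun j _ => ?_)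
    rw [← mul_sub, abs_mul]
    exact mul_le_mul_of_nonneg_left (hC j x (t j) hx0' hx3) (abs_nonneg _)
  rw [Master_Qs_sum hnorm c g hgB hx0'] at e1
  have e2 := Master_Qs_abs hnorm hGB hx0'
  have e3 := Master_Qs_le hnorm hGBa hHB (fun v => abs_nonneg _) (fun v => by positivity) T hcomp
    hx0'
  have e4 : Qs q x (fun v => 2 * |H v|) = 2 * Qs q x (fun v => |H v|) := by
    unfold Qs
    rw [← tsum_mul_left]
    refine tsum_congr fun v => ?_
    ring
  have e5 : |∑ j, c j * Real.log ‖lf (M j) (3 / 2 + x + t j * Complex.I)‖| ≤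
      ∑ j, |c j| * C j + |Qs q x Gf| := by
    have h3 := abs_sub_abs_le_abs_sub
      (∑ j, c j * Real.log ‖lf (M j) (3 / 2 + x + t j * Complex.I)‖) (Qs q x Gf)
    linarith
  rw [e4] at e3
  have e6 : Qs q x (fun v => |H v|) ≤ (B + ε / 4) * Real.log (1 / x) := hx1
  calc |∑ j, c j * Real.log ‖lf (M j) (3 / 2 + x + t j * Complex.I)‖| ≤
        C' + 2 * Qs q x (fun v => |H v|) := by
        rw [hC']
        linarith
    _ ≤ ε / 2 * Real.log (1 / x) + 2 * ((B + ε / 4) * Real.log (1 / x)) := by linarith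
    _ = (2 * B + ε) * Real.log (1 / x) := by ring

end MP7ed9c3.Ext
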