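import Pool.Agent.Lib.MP_7ed9c3_nt.Ext.Spec

/-!
# MP_7ed9c3_nt, part Ext: rules for mean values
-/

set_option autoImplicit false

namespace MP7ed9c3.Ext

open NumberField IsDedekindDomain Filter Topology MP7ed9c3.Tw

/-- Powers of norms with negative exponents are at most one. -/
theorem MeanLin_pow_le_one {n : ℕ} (hn : 2 ≤ n) {x : ℝ} (hx : 0 < x) :
    (n : ℝ) ^ (-(1 + x)) ≤ 1 := by
  apply Real.rpow_le_one_of_one_le_of_nonpos
  · exact_mod_cast (by omega : 1 ≤ n)
  · linarith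

/-- Powers of norms are nonnegative. -/
theorem MeanLin_pow_nonneg (n : ℕ) (x : ℝ) : 0 ≤ (n : ℝ) ^ (-(1 + x)) :=
  Real.rpow_nonneg (Nat.cast_nonneg n) _

/-- Absolute convergence for bounded functions. -/
theorem MeanLin_summable {X : Type} {q : X → ℕ} (hq : Norms q) {g : X → ℝ} (hg : Bd g) {x : ℝ}
    (hx : 0 < x) : Summable (fun v => g v * (q v : ℝ) ^ (-(1 + x))) := by
  obtain ⟨B, hB⟩ := hg
  have h1 := hq.2.1 (1 + x) (by linarith)
  refine Summable.of_norm_bounded (g := fun v => B * (q v : ℝ) ^ (-(1 + x)))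
    (h1.mul_left B) ?_
  intro v
  rw [Real.norm_eq_abs, abs_mul, abs_of_nonneg (MeanLin_pow_nonneg _ _)]
  exact mul_le_mul_of_nonneg_right (hB v) (MeanLin_pow_nonneg _ _)

/-- The logarithm of `1/x` tends to infinity. -/
theorem MeanLin_log : Tendsto (fun x : ℝ => Real.log (1 / x)) (𝓝[>] 0) atTop := by
  simp only [one_div]
  exact Real.tendsto_log_atTop.comp tendsto_inv_nhdsGT_zero

/-- The logarithm of `1/x` is positive. -/
theorem MeanLin_log_pos {x : ℝ} (hx : 0 < x) (hx1 : x < 1) : 0 < Real.log (1 / x) :=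
  Real.log_pos (by rw [lt_div_iff₀ hx]; linarith)

/-- A bounded function divided by the logarithm tends to zero. -/
theorem MeanLin_small {F : ℝ → ℝ} {C : ℝ} (h : ∀ x : ℝ, 0 < x → x ≤ 1 → |F x| ≤ C) :
    Tendsto (fun x => F x / Real.log (1 / x)) (𝓝[>] 0) (𝓝 0) := by
  have h1 : Tendsto (fun x : ℝ => C / Real.log (1 / x)) (𝓝[>] 0) (𝓝 0) :=
    tendsto_const_nhds.div_atTop MeanLin_log
  refine squeeze_zero_norm' ?_ h1
  filter_upwards [Ioo_mem_nhdsGT (zero_lt_one' ℝ)] with x hx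
  have hpos : 0 < Real.log (1 / x) := MeanLin_log_pos hx.1 hx.2
  rw [Real.norm_eq_abs, abs_div, abs_of_pos hpos]
  exact div_le_div_of_nonneg_right (h x hx.1 hx.2.le) hpos.le

/-- Sums of mean values. -/
theorem MeanLin_add {X : Type} {q : X → ℕ} (hq : Norms q) {g h : X → ℝ} {L L' : ℝ} (hg : Bd g)
    (hh : Bd h) (h1 : HasMean q g L) (h2 : HasMean q h L') :
    HasMean q (fun v => g v + h v) (L + L') := by
  unfold HasMean at *
  refine (h1.add h2).congr' ?_
  filter_upwards [self_mem_nhdsWithin] with x hx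
  rw [← add_div]
  congr 1
  unfold Qs
  rw [← (MeanLin_summable hq hg hx).tsum_add (MeanLin_summable hq hh hx)]
  exact tsum_congr fun v => by ring

/-- Multiples of mean values. -/
theorem MeanLin_smul {X : Type} {q : X → ℕ} (c : ℝ) {g : X → ℝ} {L : ℝ}
    (h1 : HasMean q g L) : HasMean q (fun v => c * g v) (c * L) := by
  unfold HasMean at *
  refine (h1.const_mul c).congr fun x => ?_
  rw [← mul_div_assoc]
  congr 1
  unfold Qs
  rw [← tsum_mul_left]
  exact tsum_congr fun v => by ring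

/-- Changing a function on a finite set changes the sum by a bounded amount. -/
theorem MeanLin_finite {X : Type} {q : X → ℕ} (hq : Norms q) {g h : X → ℝ} {S : Set X}
    (hg : Bd g) (hh : Bd h) (hS : S.Finite) (hgh : ∀ v ∉ S, g v = h v) {x : ℝ} (hx : 0 < x) :
    |Qs q x h - Qs q x g| ≤ ∑ v ∈ hS.toFinset, |h v - g v| := by
  have h1 : Qs q x h - Qs q x g = ∑ v ∈ hS.toFinset, (h v - g v) * (q v : ℝ) ^ (-(1 + x)) := by
    unfold Qs
    rw [← (MeanLin_summable hq hh hx).tsum_sub (MeanLin_summable hq hg hx)]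
    rw [tsum_eq_sum (s := hS.toFinset)]
    · exact Finset.sum_congr rfl fun v _ => by ring
    · intro v hv
      have : v ∉ S := by simpa using hv
      rw [hgh v this, sub_self]
  rw [h1]
  refine (Finset.abs_sum_le_sum_abs _ _).trans (Finset.sum_le_sum fun v _ => ?_)
  rw [abs_mul, abs_of_nonneg (MeanLin_pow_nonneg _ _)]
  exact mul_le_of_le_one_right (abs_nonneg _) (MeanLin_pow_le_one (hq.1 v) hx)

/-- Bounded differences do not change mean values. -/
theorem MeanLin_diff {X : Type} {q : X → ℕ} {g h : X → ℝ} {L C : ℝ}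
    (hC : ∀ x : ℝ, 0 < x → x ≤ 1 → |Qs q x h - Qs q x g| ≤ C) (h1 : HasMean q g L) :
    HasMean q h L := by
  unfold HasMean at *
  have h2 := h1.add (MeanLin_small hC)
  rw [add_zero] at h2
  refine h2.congr fun x => ?_
  rw [← add_div]
  congr 1
  ring

/-- Monotonicity of the sums. -/
theorem MeanLin_mono {X : Type} {q : X → ℕ} (hq : Norms q) {g h : X → ℝ} (hg : Bd g)
    (hh : Bd h) (hgh : ∀ v, g v ≤ h v) {x : ℝ} (hx : 0 < x) : Qs q x g ≤ Qs q x h := by
  unfold Qs
  exact (MeanLin_summable hq hg hx).tsum_le_tsum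
    (fun v => mul_le_mul_of_nonneg_right (hgh v) (MeanLin_pow_nonneg _ _))
    (MeanLin_summable hq hh hx)

/-- Upper bounds from mean values. -/
theorem MeanLin_upper {X : Type} {q : X → ℕ} (hq : Norms q) {g h : X → ℝ} {L : ℝ} (hg : Bd g)
    (hh : Bd h) (hgh : ∀ v, g v ≤ h v) (h1 : HasMean q h L) (ε : ℝ) (hε : 0 < ε) :
    ∀ᶠ x : ℝ in 𝓝[>] 0, Qs q x g ≤ (L + ε) * Real.log (1 / x) := by
  unfold HasMean at h1
  filter_upwards [h1.eventually_le_const (lt_add_of_pos_right L hε),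
    Ioo_mem_nhdsGT (zero_lt_one' ℝ)] with x hx hx1
  have hpos : 0 < Real.log (1 / x) := MeanLin_log_pos hx1.1 hx1.2
  refine (MeanLin_mono hq hg hh hgh hx1.1).trans ?_
  rwa [div_le_iff₀ hpos] at hx

/-- Mean values from asymptotic formulas. -/
theorem MeanLin_asymp {X : Type} {q : X → ℕ} (g : X → ℝ) (L C : ℝ)
    (hC : ∀ x : ℝ, 0 < x → x ≤ 1 → |Qs q x g - L * Real.log (1 / x)| ≤ C) : HasMean q g L := by
  unfold HasMean
  have h2 := (MeanLin_small hC).add_const L
  rw [zero_add] at h2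
  refine h2.congr' ?_
  filter_upwards [Ioo_mem_nhdsGT (zero_lt_one' ℝ)] with x hx
  have hpos : 0 < Real.log (1 / x) := MeanLin_log_pos hx.1 hx.2
  field_simp
  ring

/-- **MeanLin**: rules for mean values. -/
theorem meanLin : S_MeanLin := by
  intro X q hq
  refine ⟨fun g h L L' hg hh h1 h2 => MeanLin_add hq hg hh h1 h2,
    fun c g L h1 => MeanLin_smul c h1, ?_, fun g h L hg hh hgh h1 ε hε =>
      MeanLin_upper hq hg hh hgh h1 ε hε, fun g L C hC => MeanLin_asymp g L C hC⟩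
  intro g h L S hg hh hS hgh h1
  exact MeanLin_diff (fun x hx _ => MeanLin_finite hq hg hh hS hgh hx) h1

end MP7ed9c3.Ext
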