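import Pool.Agent.Lib.MP_7ed9c3_nt.Ext.Spec
import Pool.Agent.Lib.MP_7ed9c3_nt.Tw.W8

/-!
# MP_7ed9c3_nt, part Ext: the Euler product does not vanish for Re s > 3/2
-/

set_option autoImplicit false

namespace MP7ed9c3.Ext

open NumberField IsDedekindDomain Filter Topology MP7ed9c3.Tw

theorem nonZ : S_NonZ := by
  classical
  intro K _ _ E hE M hM s hs
  obtain ⟨C, hC⟩ := countPrimes K
  obtain ⟨S, hSfin, hgood, A, hA0, hA⟩ :=
    Z5.trace_const existsModel goodDataAll traceBoundAll hE hM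
  have hpos : 0 < s.re - 3 / 2 := by linarith
  have hs' : s = 3 / 2 + ((s.re - 3 / 2 : ℝ) : ℂ) + (s.im : ℂ) * Complex.I := by
    apply Complex.ext
    · simp
    · simp
  have h := @W8.prod_ne_zero (HeightOneSpectrum (𝓞 K)) (fun v => nm v) (fun v => tr (M v) v)
      (fun v => (M v).Δ ∉ v.asIdeal) (fun v => Classical.propDecidable _) C A hC
      (fun v => (traceBoundAll K (M v) v).1) hA (s.re - 3 / 2) s.im hpos
  rw [← hs'] at h
  have e : lf M s = ∏' v : HeightOneSpectrum (𝓞 K),
      (@eden (nm v) (tr (M v) v) ((M v).Δ ∉ v.asIdeal) (Classical.propDecidable _) s)⁻¹ := by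
    unfold lf
    refine tprod_congr fun v => ?_
    unfold locDen
    exact congrArg _ (Z5.eden_inst _ _ _)
  rw [e]
  exact h

end MP7ed9c3.Ext
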