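import Pool.Agent.Lib.MP_7ed9c3_nt.Ext.Spec

/-!
# MP_7ed9c3_nt, part Ext: the primes of K as a norm function
-/

set_option autoImplicit false

namespace MP7ed9c3.Ext

open NumberField IsDedekindDomain Filter Topology MP7ed9c3.Tw

lemma NormK_mean {X : Type} (q : X → ℕ) (g : X → ℝ) (L C : ℝ)
    (h : ∀ x : ℝ, 0 < x → x ≤ 1 → |Qs q x g - L * Real.log (1 / x)| ≤ C) : HasMean q g L := by
  unfold HasMean
  have hlog : Tendsto (fun x : ℝ => Real.log (1 / x)) (𝓝[>] 0) atTop := by
    have h1 : Tendsto (fun x : ℝ => 1 / x) (𝓝[>] 0) atTop := by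
      simp only [one_div]
      exact tendsto_inv_nhdsGT_zero
    exact Real.tendsto_log_atTop.comp h1
  have h2 : Tendsto (fun x : ℝ => C / Real.log (1 / x)) (𝓝[>] 0) (𝓝 0) :=
    hlog.const_div_atTop C
  rw [tendsto_iff_norm_sub_tendsto_zero]
  refine squeeze_zero' (Eventually.of_forall fun x => norm_nonneg _) ?_ h2
  have h3 : Set.Iic (1 : ℝ) ∈ 𝓝[>] (0 : ℝ) :=
    mem_nhdsWithin_of_mem_nhds (Iic_mem_nhds zero_lt_one)
  filter_upwards [self_mem_nhdsWithin, h3, hlog.eventually_gt_atTop 0] with x hx0 hx1 hl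
  have h4 := h x hx0 hx1
  have h5 : Qs q x g / Real.log (1 / x) - L = (Qs q x g - L * Real.log (1 / x)) /
      Real.log (1 / x) := by
    field_simp
  rw [h5, Real.norm_eq_abs, abs_div, abs_of_pos hl]
  exact div_le_div_of_nonneg_right h4 hl.le

lemma NormK_primeSum (K : Type) [Field K] [NumberField K] (x u : ℝ) :
    primeSum K x u = Qs (fun v : HeightOneSpectrum (𝓞 K) => nm v) x
      (fun v => Real.cos (u * Real.log (nm v))) := by
  unfold primeSum Qs
  refine tsum_congr fun v => ?_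
  rw [mul_comm]
  rfl

theorem normK (h1 : S_ZetaSum) (h2 : S_ZetaCosK) (h3 : S_MeanLin) (h4 : S_Reg) : S_NormK := by
  intro K _ _
  have hN : Norms (fun v : HeightOneSpectrum (𝓞 K) => nm v) := by
    refine ⟨fun v => ?_, fun σ hσ => ?_, ?_⟩
    · have : 1 < Ideal.absNorm v.asIdeal := HeightOneSpectrum.one_lt_absNorm v
      exact this
    · exact (h1 K).2.1 σ hσ
    · obtain ⟨C, hC⟩ := (h2 K).1
      refine NormK_mean _ _ 1 C fun x hx hx1 => ?_
      have h := hC x hx hx1
      rw [NormK_primeSum] at h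
      have e : (fun v : HeightOneSpectrum (𝓞 K) => Real.cos (0 * Real.log (nm v))) =
          fun _ => (1 : ℝ) := by
        funext v
        rw [zero_mul, Real.cos_zero]
      rw [e] at h
      rw [one_mul]
      exact h
  refine ⟨hN, ?_⟩
  intro F _ _ _ u
  obtain ⟨C, hC⟩ := h4 K F ∅ 1 Set.finite_empty zero_le_one
  have h5 := hC (fun w => Real.cos (u * Real.log (nm w)))
    (fun v => Real.cos (u * Real.log (nm v))) (fun w => Real.abs_cos_le_one _)
    (fun v => Real.abs_cos_le_one _) (fun v _ w _ hw => by simp only [hw])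
  have key : ∀ L C' : ℝ, (∀ x : ℝ, 0 < x → x ≤ 1 →
      |primeSum F x u - L * Real.log (1 / x)| ≤ C') →
      HasMean (fun v : HeightOneSpectrum (𝓞 K) => nm v)
        (fun v => (deg1 K F v : ℝ) * Real.cos (u * Real.log (nm v))) L := by
    intro L C' h
    refine NormK_mean _ _ L (C + C') fun x hx hx1 => ?_
    have h6 := h5 x hx hx1
    have h7 := h x hx hx1
    rw [NormK_primeSum] at h7
    rw [abs_le] at h6 h7 ⊢
    constructor
    · linarith [h6.2, h7.1]
    · linarith [h6.1, h7.2]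
  by_cases hu : u = 0
  · rw [if_pos hu]
    obtain ⟨C', hC'⟩ := (h2 F).1
    refine key 1 C' fun x hx hx1 => ?_
    rw [hu, one_mul]
    exact hC' x hx hx1
  · rw [if_neg hu]
    obtain ⟨C', hC'⟩ := (h2 F).2 u hu
    refine key 0 C' fun x hx hx1 => ?_
    rw [zero_mul, sub_zero]
    exact hC' x hx hx1

end MP7ed9c3.Ext
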