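import Pool.Agent.Lib.MP_7ed9c3_nt.Ext.Spec

/-!
# MP_7ed9c3_nt, part Ext: from the logarithm to the meromorphic order (module Ord)
-/

set_option autoImplicit false

namespace MP7ed9c3.Ext

open NumberField IsDedekindDomain Filter Topology MP7ed9c3.Tw

/-- The map `x ↦ z + x` from the right of `0` to a punctured neighbourhood of `z`. -/
theorem Ord_tendsto (z : ℂ) :
    Tendsto (fun x : ℝ => z + (x : ℂ)) (𝓝[>] 0) (𝓝[≠] z) := by
  refine tendsto_nhdsWithin_iff.mpr ⟨?_, ?_⟩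
  · have h : Tendsto (fun x : ℝ => z + (x : ℂ)) (𝓝 0) (𝓝 (z + ((0 : ℝ) : ℂ))) :=
      (continuous_const.add Complex.continuous_ofReal).tendsto 0
    rw [Complex.ofReal_zero, add_zero] at h
    exact h.mono_left nhdsWithin_le_nhds
  · filter_upwards [self_mem_nhdsWithin] with x hx
    have hx' : (0 : ℝ) < x := hx
    simp only [Set.mem_compl_iff, Set.mem_singleton_iff, add_eq_left, Complex.ofReal_eq_zero]
    exact hx'.ne'

/-- The logarithm of a meromorphic function to the right of a point. -/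
theorem Ord_asymp (z : ℂ) (f : ℂ → ℂ) (hf : MeromorphicAt f z)
    (h : ∀ᶠ x : ℝ in 𝓝[>] 0, f (z + x) ≠ 0) :
    ∃ (a : ℤ) (C : ℝ), meromorphicOrderAt f z = a ∧
      ∀ᶠ x : ℝ in 𝓝[>] 0, |Real.log ‖f (z + x)‖ - a * Real.log x| ≤ C := by
  have hT := Ord_tendsto z
  have hne : meromorphicOrderAt f z ≠ ⊤ := by
    intro htop
    rw [meromorphicOrderAt_eq_top_iff] at htop
    obtain ⟨x, hx, hx'⟩ := (h.and (hT.eventually htop)).exists
    exact hx hx'
  obtain ⟨a, ha⟩ := WithTop.ne_top_iff_exists.mp hne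
  obtain ⟨f₀, hf₀, hf₀z, hev⟩ := (meromorphicOrderAt_eq_int_iff hf).mp ha.symm
  refine ⟨a, |Real.log ‖f₀ z‖| + 1, ha.symm, ?_⟩
  have hlog : Tendsto (fun x : ℝ => Real.log ‖f₀ (z + x)‖) (𝓝[>] 0) (𝓝 (Real.log ‖f₀ z‖)) := by
    have h1 : Tendsto (fun x : ℝ => f₀ (z + x)) (𝓝[>] 0) (𝓝 (f₀ z)) :=
      hf₀.continuousAt.tendsto.comp (hT.mono_right nhdsWithin_le_nhds)
    exact h1.norm.log (norm_ne_zero_iff.mpr hf₀z)
  have hne0 : ∀ᶠ x : ℝ in 𝓝[>] 0, f₀ (z + x) ≠ 0 :=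
    (hf₀.continuousAt.tendsto.comp (hT.mono_right nhdsWithin_le_nhds)).eventually_ne hf₀z
  filter_upwards [hT.eventually hev, hlog.abs.eventually_lt_const (lt_add_one _), hne0,
    self_mem_nhdsWithin] with x hx hl hn hpos
  have hpos' : (0 : ℝ) < x := hpos
  rw [hx, norm_smul, norm_zpow, add_sub_cancel_left, Complex.norm_real, Real.norm_eq_abs,
    abs_of_pos hpos', Real.log_mul (zpow_pos hpos' a).ne' (norm_ne_zero_iff.mpr hn),
    Real.log_zpow, add_sub_cancel_left]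
  exact hl.le

/-- **Ord**: from the logarithm to the order. -/
theorem ord : S_Ord := by
  intro z f g κ hf hg hκ h
  obtain ⟨a, C, ha, hC⟩ := Ord_asymp z f hf (h.mono fun x hx => hx.1)
  obtain ⟨b, D, hb, hD⟩ := Ord_asymp z g hg (h.mono fun x hx => hx.2.1)
  rw [ha, hb]
  by_contra hab
  have hab' : a ≠ b := fun e => hab (by rw [e])
  have h1 : (1 : ℝ) ≤ |(a : ℝ) - b| := by
    have h2 : (1 : ℤ) ≤ |a - b| := Int.one_le_abs (sub_ne_zero.mpr hab')
    have h3 : ((1 : ℤ) : ℝ) ≤ ((|a - b| : ℤ) : ℝ) := by exact_mod_cast h2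
    rw [Int.cast_abs, Int.cast_sub, Int.cast_one] at h3
    exact h3
  have hlim : Tendsto (fun x : ℝ => (1 - κ) * Real.log (1 / x)) (𝓝[>] 0) atTop := by
    refine Tendsto.const_mul_atTop (sub_pos.mpr hκ) ?_
    have h4 : Tendsto (fun x : ℝ => -Real.log x) (𝓝[>] 0) atTop :=
      tendsto_neg_atBot_atTop.comp Real.tendsto_log_nhdsGT_zero
    refine h4.congr fun x => ?_
    rw [one_div, Real.log_inv]
  have h01 : ∀ᶠ x : ℝ in 𝓝[>] 0, x ∈ Set.Ioo (0 : ℝ) 1 := Ioo_mem_nhdsGT zero_lt_one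
  obtain ⟨x, ⟨⟨⟨hx, hx1⟩, hx2⟩, hx3⟩, hx5⟩ :=
    ((((h.and hC).and hD).and (hlim.eventually_gt_atTop (C + D))).and h01).exists
  have hlog : Real.log (1 / x) = -Real.log x := by rw [one_div, Real.log_inv]
  have hneg : Real.log x ≤ 0 := Real.log_nonpos hx5.1.le hx5.2.le
  have key : |((a : ℝ) - b) * Real.log x| ≤ κ * Real.log (1 / x) + C + D := by
    have e : ((a : ℝ) - b) * Real.log x =
        (Real.log ‖f (z + x)‖ - Real.log ‖g (z + x)‖) -
          (Real.log ‖f (z + x)‖ - a * Real.log x) + (Real.log ‖g (z + x)‖ - b * Real.log x) := by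
      ring
    rw [e]
    have t1 := abs_add_le ((Real.log ‖f (z + x)‖ - Real.log ‖g (z + x)‖) -
          (Real.log ‖f (z + x)‖ - a * Real.log x)) (Real.log ‖g (z + x)‖ - b * Real.log x)
    have t2 := abs_sub (Real.log ‖f (z + x)‖ - Real.log ‖g (z + x)‖)
          (Real.log ‖f (z + x)‖ - a * Real.log x)
    linarith [hx.2.2]
  rw [abs_mul, abs_of_nonpos hneg] at key
  have h6 : -Real.log x ≤ |(a : ℝ) - b| * -Real.log x := by
    nlinarith [neg_nonneg.mpr hneg]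
  rw [hlog] at key hx3
  nlinarith [hx3]

end MP7ed9c3.Ext
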