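import Pool.Agent.Lib.MP_7ed9c3_nt.Ext.Spec

/-!
# An integral primitive element and its conductor
-/

set_option autoImplicit false

namespace MP7ed9c3.Ext

open NumberField IsDedekindDomain Filter Topology MP7ed9c3.Tw
open scoped nonZeroDivisors IntermediateField

/-- One element. -/
theorem Prim_one (K F : Type) [Field K] [NumberField K] [Field F] [NumberField F] [Algebra K F]
    (θ : 𝓞 F) (hθ : IntermediateField.adjoin K {(θ : F)} = ⊤) (a : 𝓞 F) :
    ∃ (b : 𝓞 K) (p : Polynomial (𝓞 K)), b ≠ 0 ∧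
      algebraMap (𝓞 K) (𝓞 F) b * a = Polynomial.aeval θ p := by
  have h1 : (a : F) ∈ (IntermediateField.adjoin K {(θ : F)}).toSubalgebra := by
    rw [hθ]
    trivial
  rw [IntermediateField.adjoin_simple_toSubalgebra_of_isAlgebraic
    (Algebra.IsAlgebraic.isAlgebraic (R := K) (θ : F)),
    Algebra.adjoin_singleton_eq_range_aeval] at h1
  obtain ⟨p, hp⟩ := h1
  obtain ⟨b, hb, hb2⟩ := IsLocalization.integerNormalization_spec (𝓞 K)⁰ p
  refine ⟨b, IsLocalization.integerNormalization (𝓞 K)⁰ p, nonZeroDivisors.ne_zero hb, ?_⟩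
  apply RingOfIntegers.coe_injective
  have h2 : Polynomial.map (algebraMap (𝓞 K) K) (IsLocalization.integerNormalization (𝓞 K)⁰ p) =
      Polynomial.C (algebraMap (𝓞 K) K b) * p := by
    rw [hb2]
    ext i
    rw [Polynomial.coeff_smul, Polynomial.coeff_C_mul, Algebra.smul_def]
  have h3 := congrArg (Polynomial.aeval (θ : F)) h2
  rw [Polynomial.aeval_map_algebraMap, Polynomial.aeval_algebraMap_apply, map_mul,
    Polynomial.aeval_C] at h3
  have hp' : Polynomial.aeval (θ : F) p = (a : F) := hp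
  rw [h3, hp', map_mul, ← IsScalarTower.algebraMap_apply, ← IsScalarTower.algebraMap_apply]

theorem Prim_theta (K F : Type) [Field K] [NumberField K] [Field F] [NumberField F]
    [Algebra K F] : ∃ θ : 𝓞 F, IntermediateField.adjoin K {(θ : F)} = ⊤ := by
  obtain ⟨α, hα⟩ := Field.exists_primitive_element K F
  obtain ⟨⟨θ, ⟨m', m, hm, rfl⟩⟩, h⟩ :=
    IsLocalization.surj (Algebra.algebraMapSubmonoid (𝓞 F) ℤ⁰) α
  refine ⟨θ, ?_⟩
  rw [eq_top_iff, ← hα, IntermediateField.adjoin_simple_le_iff]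
  have hm0 : (m : F) ≠ 0 := by
    have := nonZeroDivisors.ne_zero hm
    exact_mod_cast this
  have h1 : α * (m : F) = (θ : F) := by
    simpa using h
  have h2 : α = (θ : F) * ((m : F))⁻¹ := by
    rw [← h1, mul_inv_cancel_right₀ hm0]
  rw [h2]
  apply mul_mem
  · exact IntermediateField.mem_adjoin_simple_self K (θ : F)
  · apply inv_mem
    exact intCast_mem _ m

theorem prim : S_Prim := by
  intro K F _ _ _ _ _
  obtain ⟨θ, hθ⟩ := Prim_theta K F
  have hfin : (⊤ : Submodule (𝓞 K) (𝓞 F)).FG := Module.Finite.fg_top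
  obtain ⟨S, hS⟩ := hfin
  choose b p hb hbp using Prim_one K F θ hθ
  refine ⟨θ, ∏ a ∈ S, b a, Finset.prod_ne_zero_iff.mpr fun a _ => hb a, hθ, ?_⟩
  intro a
  have ha : a ∈ Submodule.span (𝓞 K) (S : Set (𝓞 F)) := by
    rw [hS]
    trivial
  classical
  induction ha using Submodule.span_induction with
  | mem x hx =>
    refine ⟨Polynomial.C (∏ y ∈ S.erase x, b y) * p x, ?_⟩
    rw [map_mul, Polynomial.aeval_C, ← hbp x, ← mul_assoc, ← map_mul,
      Finset.prod_erase_mul S b hx]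
  | zero => exact ⟨0, by simp⟩
  | add x y _ _ hx hy =>
    obtain ⟨p1, h1⟩ := hx
    obtain ⟨p2, h2⟩ := hy
    exact ⟨p1 + p2, by rw [mul_add, h1, h2, map_add]⟩
  | smul c x _ hx =>
    obtain ⟨p1, h1⟩ := hx
    refine ⟨Polynomial.C c * p1, ?_⟩
    rw [map_mul, Polynomial.aeval_C, ← h1, Algebra.smul_def]
    ring

end MP7ed9c3.Ext
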