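import Pool.Agent.Lib.MP_7ed9c3_nt.Ext.Spec

/-!
# MP_7ed9c3_nt, part Ext: regrouping of sums over the primes of F (task 5063)
-/

set_option autoImplicit false

namespace MP7ed9c3.Ext

open NumberField IsDedekindDomain Filter Topology MP7ed9c3.Tw

/-- sums over fibres -/
theorem Reg_hasSum_fiber {W V A : Type} [NormedAddCommGroup A] [CompleteSpace A] (π : W → V)
    (F : V → Finset W) (hF : ∀ v w, w ∈ F v ↔ π w = v) (f : W → A) (hf : Summable f) :
    HasSum (fun v => ∑ w ∈ F v, f w) (∑' w, f w) := by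
  have h1 : HasSum (f ∘ Equiv.sigmaFiberEquiv π) (∑' w, f w) :=
    (Equiv.sigmaFiberEquiv π).hasSum_iff.2 hf.hasSum
  refine h1.sigma (fun v => ?_)
  have h2 : HasSum (f ∘ ((↑) : {w // w ∈ F v} → W)) (∑ w ∈ F v, f w) := (F v).hasSum f
  let e : {w // w ∈ F v} ≃ {w // π w = v} := Equiv.subtypeEquivRight (fun w => hF v w)
  refine e.hasSum_iff.1 ?_
  exact h2

theorem Reg_compare {W V : Type} (π : W → V) (F : V → Finset W) (hF : ∀ v w, w ∈ F v ↔ π w = v)
    (f : W → ℝ) (hf : Summable f) (g B : V → ℝ) (hB : Summable B)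
    (h : ∀ v, |(∑ w ∈ F v, f w) - g v| ≤ B v) :
    |∑' w, f w - ∑' v, g v| ≤ ∑' v, B v := by
  have h1 := Reg_hasSum_fiber π F hF f hf
  have hr : Summable (fun v => (∑ w ∈ F v, f w) - g v) := Summable.of_norm_bounded hB h
  have hg : Summable g := by
    have := h1.summable.sub hr
    simpa using this
  have h2 : ∑' w, f w - ∑' v, g v = ∑' v, ((∑ w ∈ F v, f w) - g v) := by
    rw [h1.summable.tsum_sub hg, h1.tsum_eq]
  rw [h2, ← Real.norm_eq_abs]
  exact tsum_of_norm_bounded hB.hasSum h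

theorem Reg_two_le {K : Type} [Field K] [NumberField K] (v : HeightOneSpectrum (𝓞 K)) :
    2 ≤ nm v := by
  have : 1 < Ideal.absNorm v.asIdeal := HeightOneSpectrum.one_lt_absNorm v
  exact this

theorem Reg_pow_le_one {K : Type} [Field K] [NumberField K] (v : HeightOneSpectrum (𝓞 K)) (x : ℝ)
    (hx : 0 < x) : (nm v : ℝ) ^ (-(1 + x)) ≤ 1 := by
  have hn : (2 : ℝ) ≤ nm v := by exact_mod_cast Reg_two_le v
  exact Real.rpow_le_one_of_one_le_of_nonpos (by linarith) (by linarith)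

theorem reg (h1 : S_ZetaSum) (h2 : S_Fib) : S_Reg := by
  classical
  intro K F _ _ _ _ _ S A hS hA
  let Fb : HeightOneSpectrum (𝓞 K) → Finset (HeightOneSpectrum (𝓞 F)) :=
    fun v => (h2 K F v).1.toFinset
  let π : HeightOneSpectrum (𝓞 F) → HeightOneSpectrum (𝓞 K) := fun w => w.under (𝓞 K)
  have hmem : ∀ v w, w ∈ Fb v ↔ w.asIdeal.comap (algebraMap (𝓞 K) (𝓞 F)) = v.asIdeal := by
    intro v w
    show w ∈ (h2 K F v).1.toFinset ↔ _
    rw [Set.Finite.mem_toFinset]
    rfl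
  have hF : ∀ v w, w ∈ Fb v ↔ π w = v := by
    intro v w
    rw [hmem, HeightOneSpectrum.ext_iff]
    rfl
  set n : ℝ := (Module.finrank K F : ℝ) with hn
  have hn0 : 0 ≤ n := Nat.cast_nonneg _
  have hcard : ∀ v, ((Fb v).card : ℝ) ≤ n := by
    intro v
    have e : (Fb v).card = {w : HeightOneSpectrum (𝓞 F) |
        w.asIdeal.comap (algebraMap (𝓞 K) (𝓞 F)) = v.asIdeal}.ncard :=
      (Set.ncard_eq_toFinset_card _ (h2 K F v).1).symm
    rw [e, hn]
    exact_mod_cast (h2 K F v).2.1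
  -- the primes of the same norm
  let Gb : HeightOneSpectrum (𝓞 K) → Finset (HeightOneSpectrum (𝓞 F)) :=
    fun v => (Fb v).filter (fun w => nm w = nm v)
  have hdeg : ∀ v, (deg1 K F v : ℝ) = (Gb v).card := by
    intro v
    have : deg1 K F v = (Gb v).card := by
      refine Nat.subtype_card (Gb v) (fun w => ?_)
      show w ∈ (Fb v).filter (fun w => nm w = nm v) ↔ _
      rw [Finset.mem_filter, hmem]
    rw [this]
  have hdegn : ∀ v, (deg1 K F v : ℝ) ≤ n := by
    intro v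
    rw [hdeg]
    refine le_trans ?_ (hcard v)
    exact_mod_cast Finset.card_filter_le _ _
  let B : HeightOneSpectrum (𝓞 K) → ℝ := fun v =>
    (if v ∈ hS.toFinset then 2 * n * A else 0) + n * A * (nm v : ℝ) ^ (-2 : ℝ)
  have hB : Summable B := by
    refine Summable.add ?_ (Summable.mul_left _ ((h1 K).2.1 2 (by norm_num)))
    refine summable_of_ne_finset_zero (s := hS.toFinset) (fun v hv => ?_)
    rw [if_neg hv]
  refine ⟨∑' v, B v, fun f g hf hg hfg x hx _ => ?_⟩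
  have hterm : ∀ w : HeightOneSpectrum (𝓞 F),
      |f w * (nm w : ℝ) ^ (-(1 + x))| ≤ A * (nm w : ℝ) ^ (-(1 + x)) := by
    intro w
    have h0 : 0 ≤ (nm w : ℝ) ^ (-(1 + x)) := by positivity
    rw [abs_mul, abs_of_nonneg h0]
    exact mul_le_mul_of_nonneg_right (hf w) h0
  have hsum : Summable (fun w : HeightOneSpectrum (𝓞 F) => f w * (nm w : ℝ) ^ (-(1 + x))) := by
    refine Summable.of_norm_bounded
      (Summable.mul_left A ((h1 F).2.1 (1 + x) (by linarith))) (fun w => ?_)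
    exact hterm w
  refine Reg_compare π Fb hF _ hsum _ B hB (fun v => ?_)
  have hnv : (2 : ℝ) ≤ nm v := by exact_mod_cast Reg_two_le v
  have hq : 0 ≤ (nm v : ℝ) ^ (-2 : ℝ) := by positivity
  have hnA : 0 ≤ n * A := mul_nonneg hn0 hA
  by_cases hv : v ∈ hS.toFinset
  · have b1 : |∑ w ∈ Fb v, f w * (nm w : ℝ) ^ (-(1 + x))| ≤ n * A := by
      refine (Finset.abs_sum_le_sum_abs _ _).trans ?_
      refine (Finset.sum_le_card_nsmul (Fb v) _ A (fun w _ => ?_)).trans ?_
      · refine (hterm w).trans ?_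
        exact mul_le_of_le_one_right hA (Reg_pow_le_one w x hx)
      · rw [nsmul_eq_mul]
        exact mul_le_mul_of_nonneg_right (hcard v) hA
    have b2 : |(deg1 K F v : ℝ) * g v * (nm v : ℝ) ^ (-(1 + x))| ≤ n * A := by
      have h0 : 0 ≤ (nm v : ℝ) ^ (-(1 + x)) := by positivity
      rw [abs_mul, abs_mul, abs_of_nonneg h0, Nat.abs_cast]
      have h3 : (deg1 K F v : ℝ) * |g v| ≤ n * A :=
        mul_le_mul (hdegn v) (hg v) (abs_nonneg _) hn0
      have h4 : 0 ≤ (deg1 K F v : ℝ) * |g v| := by positivity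
      exact (mul_le_of_le_one_right h4 (Reg_pow_le_one v x hx)).trans h3
    show _ ≤ (if v ∈ hS.toFinset then 2 * n * A else 0) + n * A * (nm v : ℝ) ^ (-2 : ℝ)
    rw [if_pos hv]
    have b3 : 0 ≤ n * A * (nm v : ℝ) ^ (-2 : ℝ) := mul_nonneg hnA hq
    refine (abs_sub _ _).trans ?_
    linarith
  · have hv' : v ∉ S := by
      rw [Set.Finite.mem_toFinset] at hv
      exact hv
    show _ ≤ (if v ∈ hS.toFinset then 2 * n * A else 0) + n * A * (nm v : ℝ) ^ (-2 : ℝ)
    rw [if_neg hv, zero_add]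
    rw [← Finset.sum_filter_add_sum_filter_not (Fb v) (fun w => nm w = nm v)]
    have e1 : ∑ w ∈ (Fb v).filter (fun w => nm w = nm v), f w * (nm w : ℝ) ^ (-(1 + x)) =
        (deg1 K F v : ℝ) * g v * (nm v : ℝ) ^ (-(1 + x)) := by
      rw [hdeg v, mul_assoc, ← nsmul_eq_mul, ← Finset.sum_const]
      refine Finset.sum_congr rfl (fun w hw => ?_)
      rw [Finset.mem_filter, hmem] at hw
      rw [hfg v hv' w hw.1 hw.2, hw.2]
    rw [e1, add_sub_cancel_left]
    refine (Finset.abs_sum_le_sum_abs _ _).trans ?_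
    have e2 : ∀ w ∈ (Fb v).filter (fun w => ¬ nm w = nm v),
        |f w * (nm w : ℝ) ^ (-(1 + x))| ≤ A * (nm v : ℝ) ^ (-2 : ℝ) := by
      intro w hw
      rw [Finset.mem_filter, hmem] at hw
      have hle : ((nm v : ℝ)) ^ 2 ≤ nm w := by exact_mod_cast (h2 K F v).2.2 w hw.1 hw.2
      refine (hterm w).trans (mul_le_mul_of_nonneg_left ?_ hA)
      have hsq : (1 : ℝ) ≤ (nm v : ℝ) ^ 2 := by nlinarith
      have h5 : (nm w : ℝ) ^ (-(1 + x)) ≤ (nm w : ℝ) ^ (-1 : ℝ) :=
        Real.rpow_le_rpow_of_exponent_le (hsq.trans hle) (by linarith)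
      have h6 : (nm w : ℝ) ^ (-1 : ℝ) ≤ ((nm v : ℝ) ^ 2) ^ (-1 : ℝ) :=
        Real.rpow_le_rpow_of_nonpos (by positivity) hle (by norm_num)
      have h7 : ((nm v : ℝ) ^ 2) ^ (-1 : ℝ) = (nm v : ℝ) ^ (-2 : ℝ) := by
        rw [← Real.rpow_natCast, ← Real.rpow_mul (by positivity)]
        norm_num
      rw [← h7]
      exact h5.trans h6
    refine (Finset.sum_le_card_nsmul _ _ _ e2).trans ?_
    rw [nsmul_eq_mul, ← mul_assoc]
    refine mul_le_mul_of_nonneg_right ?_ hq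
    refine mul_le_mul_of_nonneg_right ?_ hA
    refine le_trans ?_ (hcard v)
    exact_mod_cast Finset.card_filter_le _ _

end MP7ed9c3.Ext
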