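import Pool.Agent.Lib.MP_7ed9c3_nt.Ext.Spec

/-!
# MP_7ed9c3_nt, Ext: symmetric groups (`S_Sym`)
-/

set_option autoImplicit false

namespace MP7ed9c3.Ext

open NumberField

/-- `8 D_n ≤ 3 n!` for `n ≥ 3`. -/
private theorem num_le (n : ℕ) :
    8 * numDerangements (n + 3) ≤ 3 * (n + 3).factorial ∧
      8 * numDerangements (n + 4) ≤ 3 * (n + 4).factorial := by
  induction n with
  | zero => decide
  | succ n ih =>
    refine ⟨ih.2, ?_⟩
    rw [show n + 1 + 4 = (n + 3) + 2 by ring, numDerangements_add_two]
    have h1 : (n + 3 + 2).factorial = (n + 4) * ((n + 3).factorial + (n + 4).factorial) := by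
      rw [Nat.factorial_succ (n + 4), Nat.factorial_succ (n + 3)]
      ring
    rw [h1]
    calc 8 * ((n + 3 + 1) * (numDerangements (n + 3) + numDerangements (n + 3 + 1)))
        = (n + 4) * (8 * numDerangements (n + 3) + 8 * numDerangements (n + 4)) := by ring
      _ ≤ (n + 4) * (3 * (n + 3).factorial + 3 * (n + 4).factorial) :=
          Nat.mul_le_mul_left _ (Nat.add_le_add ih.1 ih.2)
      _ = 3 * ((n + 4) * ((n + 3).factorial + (n + 4).factorial)) := by ring

private theorem num_le' (n : ℕ) (h : 3 ≤ n) : 8 * numDerangements n ≤ 3 * n.factorial := by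
  obtain ⟨m, rfl⟩ := Nat.exists_eq_add_of_le h
  rw [add_comm]
  exact (num_le m).1

section

variable (K F N : Type) [Field K] [NumberField K] [Field F] [NumberField F] [Field N]
  [NumberField N] [Algebra K F] [Algebra K N]

/-- The action on the embeddings. -/
private def act : (N ≃ₐ[K] N) →* Equiv.Perm (F →ₐ[K] N) where
  toFun g :=
    { toFun := fun φ => (g : N →ₐ[K] N).comp φ
      invFun := fun φ => (g.symm : N →ₐ[K] N).comp φ
      left_inv := fun φ => by ext x; simp
      right_inv := fun φ => by ext x; simp }
  map_one' := by ext φ x; simp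
  map_mul' := fun g h => by ext φ x; simp

omit [NumberField N] in
private theorem card_emb [IsGalois K N] (h : Nonempty (F →ₐ[K] N)) :
    Fintype.card (F →ₐ[K] N) = Module.finrank K F := by
  obtain ⟨φ⟩ := h
  let pb := Field.powerBasisOfFiniteOfSeparable K F
  rw [← Nat.card_eq_fintype_card,
    AlgHom.natCard_of_powerBasis pb (Algebra.IsSeparable.isSeparable K pb.gen) ?_, pb.finrank]
  have h1 : (minpoly K (φ pb.gen)) = minpoly K pb.gen := minpoly.algHom_eq φ φ.injective _
  rw [← h1]
  exact Normal.splits inferInstance _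

end

theorem sym : S_Sym := by
  intro K F N _ _ _ _ _ _ _ _ _ hne hn hsurj
  classical
  have hcard := card_emb K F N hne
  set Y := F →ₐ[K] N with hY
  let f := act K F N
  have hf : Function.Surjective f := by
    intro π
    obtain ⟨g, hg⟩ := hsurj π
    exact ⟨g, Equiv.ext hg⟩
  let k := (Finset.univ.filter fun g : N ≃ₐ[K] N => f g = 1).card
  have hfib : ∀ π : Equiv.Perm Y, (Finset.univ.filter fun g : N ≃ₐ[K] N => f g = π).card = k :=
    fun π => MonoidHom.card_fiber_eq_of_mem_range f (hf π) (hf 1)
  have hall : Fintype.card (N ≃ₐ[K] N) = (Fintype.card Y).factorial * k := by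
    rw [← Finset.card_univ, Finset.card_eq_sum_card_fiberwise (f := f) (t := Finset.univ)
      (fun _ _ => Finset.mem_univ _), Finset.sum_congr rfl (fun π _ => hfib π), Finset.sum_const,
      Finset.card_univ, Fintype.card_perm, smul_eq_mul]
  have hder : Fintype.card {g : N ≃ₐ[K] N // ∀ φ : Y, (g : N →ₐ[K] N).comp φ ≠ φ} =
      numDerangements (Fintype.card Y) * k := by
    rw [← card_derangements_eq_numDerangements, Fintype.card_subtype,
      Finset.card_eq_sum_card_fiberwise (f := f)
        (t := Finset.univ.filter fun π => π ∈ derangements Y)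
      (fun g hg => by
        have hg' := (Finset.mem_filter.1 (Finset.mem_coe.1 hg)).2
        exact Finset.mem_coe.2 (Finset.mem_filter.2 ⟨Finset.mem_univ _, hg'⟩))]
    rw [Finset.sum_congr rfl (g := fun _ => k) (fun π hπ => by
      rw [← hfib π]
      congr 1
      ext g
      simp only [Finset.mem_filter, Finset.mem_univ, true_and, and_iff_right_iff_imp]
      rintro rfl
      exact (Finset.mem_filter.1 hπ).2), Finset.sum_const, smul_eq_mul]
    congr 1
    rw [← Fintype.card_subtype]
  have hk : 0 < k := Finset.card_pos.2 ⟨1, by simp⟩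
  unfold der
  rw [Nat.card_eq_fintype_card, Nat.card_eq_fintype_card, hall, hder, hcard]
  have h1 := num_le' _ hn
  have h2 : (0 : ℝ) < ((Module.finrank K F).factorial * k : ℕ) := by
    exact_mod_cast Nat.mul_pos (Nat.factorial_pos _) hk
  rw [div_le_div_iff₀ h2 (by norm_num)]
  have h3 : (numDerangements (Module.finrank K F) * k) * 8 ≤
      3 * ((Module.finrank K F).factorial * k) := by
    calc (numDerangements (Module.finrank K F) * k) * 8
        = 8 * numDerangements (Module.finrank K F) * k := by ring
      _ ≤ 3 * (Module.finrank K F).factorial * k := Nat.mul_le_mul_right _ h1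
      _ = _ := by ring
  exact_mod_cast h3

end MP7ed9c3.Ext
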