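import Pool.Agent.Lib.MP_7ed9c3_nt.Ext.Spec

/-!
# MP_7ed9c3_nt, part Ext, TrEq: the traces at primes of degree one
-/

set_option autoImplicit false

namespace MP7ed9c3.Ext

open NumberField IsDedekindDomain Filter Topology MP7ed9c3.Tw

theorem TrEq_finite_mem {K : Type} [Field K] [NumberField K] {x : 𝓞 K} (hx : x ≠ 0) :
    {v : HeightOneSpectrum (𝓞 K) | x ∈ v.asIdeal}.Finite := by
  have h0 : Ideal.span {x} ≠ 0 := by
    intro h
    exact hx (Ideal.span_singleton_eq_bot.mp h)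
  refine (Ideal.finite_factors h0).subset ?_
  intro v hv
  simp only [Set.mem_ofPred_eq] at hv ⊢
  rw [Ideal.dvd_span_singleton]
  exact hv

theorem TrEq_affCount {A B : Type} [CommRing A] [CommRing B] (ψ : A →+* B)
    (hψ : Function.Bijective ψ) (W : WeierstrassCurve A) :
    affCount (W.map ψ) = affCount W := by
  unfold affCount
  refine (Nat.card_congr (Equiv.subtypeEquiv
    ((Equiv.ofBijective ψ hψ).prodCongr (Equiv.ofBijective ψ hψ)) fun p => ?_)).symm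
  rw [← hψ.1.eq_iff]
  simp only [map_add, map_mul, map_pow, Equiv.prodCongr_apply, Prod.map_fst, Prod.map_snd,
    Equiv.ofBijective_apply, WeierstrassCurve.map_a₁, WeierstrassCurve.map_a₂,
    WeierstrassCurve.map_a₃, WeierstrassCurve.map_a₄, WeierstrassCurve.map_a₆]

theorem trEq (n2 : ExistsModel) (n3 : GoodData) : S_TrEq := by
  intro K F _ _ _ _ _ E hE
  obtain ⟨W₀, hΔ, C, hC⟩ := n2 K E hE
  have h6 : (6 : 𝓞 K) ≠ 0 := by norm_num
  refine ⟨{v | W₀.Δ ∈ v.asIdeal ∨ (6 : 𝓞 K) ∈ v.asIdeal},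
    (TrEq_finite_mem hΔ).union (TrEq_finite_mem h6), ?_⟩
  intro v hv w hw hnm M M' hM hM'
  simp only [Set.mem_ofPred_eq, not_or] at hv
  obtain ⟨-, e1⟩ := n3 K E W₀ ⟨C, hC⟩ v M hv.1 hv.2 hM
  set W₁ : WeierstrassCurve (𝓞 F) := W₀.map (algebraMap (𝓞 K) (𝓞 F)) with hW₁
  have hcomm : (algebraMap K F).comp (algebraMap (𝓞 K) K) =
      (algebraMap (𝓞 F) F).comp (algebraMap (𝓞 K) (𝓞 F)) := RingHom.ext fun x => rfl
  have hmod : C.map (algebraMap K F) • E.map (algebraMap K F) = W₁.map (algebraMap (𝓞 F) F) := by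
    rw [WeierstrassCurve.map_variableChange, hC, hW₁, WeierstrassCurve.map_map,
      WeierstrassCurve.map_map, hcomm]
  have hmem : ∀ x : 𝓞 K, algebraMap (𝓞 K) (𝓞 F) x ∈ w.asIdeal → x ∈ v.asIdeal := by
    intro x hx
    rw [← hw]
    exact hx
  have hΔ1 : W₁.Δ ∉ w.asIdeal := by
    intro h
    rw [hW₁, WeierstrassCurve.map_Δ] at h
    exact hv.1 (hmem _ h)
  have h61 : (6 : 𝓞 F) ∉ w.asIdeal := by
    intro h
    refine hv.2 (hmem 6 ?_)
    rw [map_ofNat]
    exact h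
  obtain ⟨-, e2⟩ := n3 F (E.map (algebraMap K F)) W₁ ⟨_, hmod⟩ w M' hΔ1 h61 hM'
  rw [e1, e2]
  set ψ : 𝓞 K ⧸ v.asIdeal →+* 𝓞 F ⧸ w.asIdeal :=
    Ideal.quotientMap w.asIdeal (algebraMap (𝓞 K) (𝓞 F)) hw.ge with hψdef
  have hinj : Function.Injective ψ := Ideal.quotientMap_injective' hw.le
  have hcard : ∀ (L : Type) [Field L] [NumberField L] (u : HeightOneSpectrum (𝓞 L)),
      Nat.card (𝓞 L ⧸ u.asIdeal) = nm u := by
    intro L _ _ u
    unfold nm
    rw [Ideal.absNorm_apply, Submodule.cardQuot_apply]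
  have hF : Finite (𝓞 F ⧸ w.asIdeal) := Ideal.finiteQuotientOfFreeOfNeBot _ w.ne_bot
  have hbij : Function.Bijective ψ := by
    refine hinj.bijective_of_nat_card_le ?_
    rw [hcard, hcard, hnm]
  have hred : red W₁ w = (red W₀ v).map ψ := by
    unfold red
    rw [hW₁, WeierstrassCurve.map_map, WeierstrassCurve.map_map, hψdef,
      Ideal.quotientMap_comp_mk]
  unfold tr
  rw [hred, TrEq_affCount ψ hbij, hnm]

end MP7ed9c3.Ext
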