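import Pool.Agent.Lib.MP_7ed9c3_nt.Ext.Spec

/-! The mean values of the fixed point numbers of the transitive sets. -/

set_option autoImplicit false

namespace MP7ed9c3.Ext

open NumberField IsDedekindDomain Filter Topology MP7ed9c3.Tw

theorem TransK_deg1_le (hFib : S_Fib) (K F : Type) [Field K] [NumberField K] [Field F]
    [NumberField F] [Algebra K F] (v : HeightOneSpectrum (𝓞 K)) :
    deg1 K F v ≤ Module.finrank K F := by
  obtain ⟨hfin, hcard, -⟩ := hFib K F v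
  refine le_trans ?_ hcard
  unfold deg1
  have h1 : Nat.card {w : HeightOneSpectrum (𝓞 F) //
      w.asIdeal.comap (algebraMap (𝓞 K) (𝓞 F)) = v.asIdeal ∧ nm w = nm v} =
      {w : HeightOneSpectrum (𝓞 F) |
        w.asIdeal.comap (algebraMap (𝓞 K) (𝓞 F)) = v.asIdeal ∧ nm w = nm v}.ncard := rfl
  rw [h1]
  exact Set.ncard_le_ncard (fun w hw => hw.1) hfin

theorem transK (hN : S_NormK) (hD : S_Deg) (hF : S_FixF) (hFib : S_Fib) (hM : S_MeanLin) :
    S_TransK := by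
  intro K N _ _ _ _ _ _
  obtain ⟨σ, hσ⟩ := hD K N
  refine ⟨σ, ?_, fun F _ _ _ h => hσ F h⟩
  intro H u
  obtain ⟨F, iF, iNF, iA, hne, hfix⟩ := hF K N H
  obtain ⟨S, hS, hS'⟩ := hσ F hne
  have hmean := (hN K).2 F u
  have h3 := (hM (HeightOneSpectrum (𝓞 K)) (fun v => nm v) (hN K).1).2.2.1
  refine h3 _ _ _ S ?_ ?_ hS ?_ hmean
  · refine ⟨Module.finrank K F, fun v => ?_⟩
    rw [abs_mul]
    have h1 : |(deg1 K F v : ℝ)| ≤ Module.finrank K F := by
      rw [Nat.abs_cast]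
      exact_mod_cast TransK_deg1_le hFib K F v
    calc |(deg1 K F v : ℝ)| * |Real.cos (u * Real.log (nm v))| ≤
          (Module.finrank K F : ℝ) * 1 :=
          mul_le_mul h1 (Real.abs_cos_le_one _) (abs_nonneg _) (Nat.cast_nonneg _)
      _ = _ := mul_one _
  · refine ⟨Nat.card ((N ≃ₐ[K] N) ⧸ H), fun v => ?_⟩
    rw [abs_mul]
    have h1 : |fx ((N ≃ₐ[K] N) ⧸ H) (σ v)| ≤ Nat.card ((N ≃ₐ[K] N) ⧸ H) := by
      unfold fx
      rw [Nat.abs_cast]
      exact_mod_cast Nat.card_le_card_of_injective _ Subtype.val_injective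
    calc |fx ((N ≃ₐ[K] N) ⧸ H) (σ v)| * |Real.cos (u * Real.log (nm v))| ≤
          (Nat.card ((N ≃ₐ[K] N) ⧸ H) : ℝ) * 1 :=
          mul_le_mul h1 (Real.abs_cos_le_one _) (abs_nonneg _) (Nat.cast_nonneg _)
      _ = _ := mul_one _
  · intro v hv
    have h1 := hS' v hv
    rw [hfix (σ v)] at h1
    unfold fx
    rw [h1]

end MP7ed9c3.Ext
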