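import Pool.Agent.Lib.MP_7ed9c3_nt.Ext.Spec

/-!
# MP_7ed9c3_nt, part Ext: the quotient L(E/F)/L(E/K)
-/

set_option autoImplicit false

namespace MP7ed9c3.Ext

open NumberField IsDedekindDomain Filter Topology MP7ed9c3.Tw

/-- the two fields -/
noncomputable def Two_F (K F : Type) [Field K] [NumberField K] [Field F] [NumberField F]
    [Algebra K F] : Fin 2 → Over K := Fin.cons ⟨F⟩ (fun _ => ⟨K⟩)

lemma Two_fix (K N : Type) [Field K] [Field N] [Algebra K N] (g : N ≃ₐ[K] N) :
    fix K K N g = 1 := by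
  unfold fix
  have h : ∀ φ ψ : K →ₐ[K] N, φ = ψ := by
    intro φ ψ
    apply AlgHom.ext
    intro a
    have h1 := φ.commutes a
    have h2 := ψ.commutes a
    exact h1.trans h2.symm
  rw [Nat.card_eq_one_iff_unique]
  refine ⟨⟨fun a b => Subtype.ext (h _ _)⟩, ⟨⟨Algebra.ofId K N, h _ _⟩⟩⟩

lemma Two_gmean {G : Type} [Fintype G] (a : G → ℝ) (s : ℝ → ℝ) (T D : ℝ)
    (hD : (1 / (Fintype.card G : ℝ)) * ∑ g : G, |a g - 1| = D) :
    gmean (fun (g : G) y => |(a g - 1) * s y|) T =
      D * ((1 / T) * ∫ y in (0 : ℝ)..T, |s y|) := by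
  unfold gmean
  have h1 : ∀ y : ℝ, (1 / (Fintype.card G : ℝ)) * ∑ g : G, |(a g - 1) * s y| = D * |s y| := by
    intro y
    rw [← hD, mul_assoc, Finset.sum_mul]
    congr 1
    exact Finset.sum_congr rfl fun g _ => abs_mul _ _
  simp only [h1]
  rw [intervalIntegral.integral_const_mul]
  ring

theorem two (h1 : S_Master) (h2 : S_Burn) (h3 : S_AbsCos) : S_Two := by
  intro K F N _ _ _ _ _ _ _ _ _ hemb E hE M M' hM hM' t ε hε
  have hburn := h2 K F N hemb
  have hder : 0 ≤ der K F N := by unfold der; positivity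
  -- the family of models
  let MM : ∀ j : Fin 2, HeightOneSpectrum (𝓞 (Two_F K F j).F) →
      WeierstrassCurve (𝓞 (Two_F K F j).F) :=
    Fin.cases (motive := fun j => HeightOneSpectrum (𝓞 (Two_F K F j).F) →
      WeierstrassCurve (𝓞 (Two_F K F j).F)) M' (fun _ => M)
  have hemb2 : ∀ j : Fin 2, Nonempty ((Two_F K F j).F →ₐ[K] N) := by
    intro j
    refine Fin.cases (motive := fun j => Nonempty ((Two_F K F j).F →ₐ[K] N)) hemb (fun _ => ?_) j
    exact ⟨Algebra.ofId K N⟩
  have hMM : ∀ (j : Fin 2) (w : HeightOneSpectrum (𝓞 (Two_F K F j).F)),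
      IsMinAt (E.map (algebraMap K (Two_F K F j).F)) w (MM j w) := by
    intro j
    refine Fin.cases (motive := fun j => ∀ w : HeightOneSpectrum (𝓞 (Two_F K F j).F),
      IsMinAt (E.map (algebraMap K (Two_F K F j).F)) w (MM j w)) hM' (fun i => ?_) j
    intro w
    show IsMinAt (E.map (algebraMap K K)) w (M w)
    rw [Algebra.algebraMap_self, WeierstrassCurve.map_id]
    exact hM w
  have key : ∀ B : ℝ, (∀ᶠ T : ℝ in atTop,
      2 * der K F N * ((1 / T) * ∫ y in (0 : ℝ)..T, |Real.cos (t * y)|) ≤ B) →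
      ∀ ε' : ℝ, 0 < ε' → ∀ᶠ x : ℝ in 𝓝[>] 0,
        |Real.log ‖lf M' (3 / 2 + x + t * Complex.I)‖ -
          Real.log ‖lf M (3 / 2 + x + t * Complex.I)‖| ≤ (2 * B + ε') * Real.log (1 / x) := by
    intro B hB ε' hε'
    have h := h1 K N E hE 2 (Two_F K F) hemb2 MM hMM (Fin.cons 1 (fun _ => -1)) (fun _ => t) B
      (by
        filter_upwards [hB] with T hT
        refine le_trans (le_of_eq ?_) hT
        rw [← Two_gmean (fun g : N ≃ₐ[K] N => (fix K F N g : ℝ)) (fun y => Real.cos (t * y)) T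
          (2 * der K F N) hburn]
        congr 1
        funext g y
        rw [Fin.sum_univ_two]
        show |(1 : ℝ) * (fix K F N g * Real.cos (t * y)) +
          (-1) * (fix K K N g * Real.cos (t * y))| = _
        rw [Two_fix]
        congr 1
        push_cast
        ring) ε' hε'
    filter_upwards [h] with x hx
    rw [Fin.sum_univ_two] at hx
    have e : |(1 : ℝ) * Real.log ‖lf M' (3 / 2 + x + t * Complex.I)‖ +
        (-1) * Real.log ‖lf M (3 / 2 + x + t * Complex.I)‖| ≤ (2 * B + ε') * Real.log (1 / x) := hx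
    rw [one_mul, neg_one_mul, ← sub_eq_add_neg] at e
    exact e
  by_cases ht : t = 0
  · rw [if_pos ht]
    have hB : ∀ᶠ T : ℝ in atTop,
        2 * der K F N * ((1 / T) * ∫ y in (0 : ℝ)..T, |Real.cos (t * y)|) ≤ 2 * der K F N := by
      filter_upwards [eventually_gt_atTop (0 : ℝ)] with T hT
      have e : ∀ y : ℝ, |Real.cos (t * y)| = 1 := by
        intro y
        rw [ht, zero_mul, Real.cos_zero, abs_one]
      simp only [e]
      rw [intervalIntegral.integral_const, smul_eq_mul, mul_one, sub_zero,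
        one_div_mul_cancel hT.ne', mul_one]
    have h := key _ hB ε hε
    filter_upwards [h] with x hx
    refine hx.trans (le_of_eq ?_)
    ring
  · rw [if_neg ht]
    have h4 := (h3 t ht).const_mul (2 * der K F N)
    have hB : ∀ᶠ T : ℝ in atTop,
        2 * der K F N * ((1 / T) * ∫ y in (0 : ℝ)..T, |Real.cos (t * y)|) ≤
          2 * der K F N * (2 / Real.pi) + ε / 4 := by
      have h5 := h4.eventually_lt_const
        (show 2 * der K F N * (2 / Real.pi) < 2 * der K F N * (2 / Real.pi) + ε / 4 by linarith)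
      filter_upwards [h5] with T hT
      exact hT.le
    have h := key _ hB (ε / 2) (by linarith)
    filter_upwards [h] with x hx
    refine hx.trans (le_of_eq ?_)
    ring

end MP7ed9c3.Ext
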