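import Pool.Agent.Lib.MP_7ed9c3_nt.Ext.Spec

/-!
# MP_7ed9c3_nt, part Ext: absolute values by Weierstrass approximation
-/

set_option autoImplicit false

namespace MP7ed9c3.Ext

open NumberField IsDedekindDomain Filter Topology MP7ed9c3.Tw

/-- Bounded functions, continuous in the second variable. -/
def Wei_Adm {G : Type} (h : G → ℝ → ℝ) : Prop :=
  (∃ B : ℝ, ∀ g y, |h g y| ≤ B) ∧ ∀ g, Continuous (h g)

/-- Functions having a common mean value in both senses. -/
def Wei_Good {X G : Type} [Fintype G] (q : X → ℕ) (σ : X → G) (ℓ : X → ℝ) (h : G → ℝ → ℝ) :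
    Prop :=
  ∃ L : ℝ, HasMean q (fun v => h (σ v) (ℓ v)) L ∧ Tendsto (gmean h) atTop (𝓝 L)

/-- Linearity of the mean, sums. -/
theorem Wei_gmean_add {G : Type} [Fintype G] {h h' : G → ℝ → ℝ} (hh : ∀ g, Continuous (h g))
    (hh' : ∀ g, Continuous (h' g)) (T : ℝ) :
    gmean (fun g y => h g y + h' g y) T = gmean h T + gmean h' T := by
  unfold gmean
  rw [← mul_add, ← intervalIntegral.integral_add]
  · congr 1
    refine intervalIntegral.integral_congr fun y _ => ?_
    simp only [Finset.sum_add_distrib, mul_add]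
  · exact (continuous_const.mul (continuous_finsetSum _ fun g _ => hh g)).intervalIntegrable _ _
  · exact (continuous_const.mul (continuous_finsetSum _ fun g _ => hh' g)).intervalIntegrable _ _

/-- Linearity of the mean, multiples. -/
theorem Wei_gmean_smul {G : Type} [Fintype G] (c : ℝ) (h : G → ℝ → ℝ) (T : ℝ) :
    gmean (fun g y => c * h g y) T = c * gmean h T := by
  unfold gmean
  have h1 : ∀ y : ℝ, (1 / (Fintype.card G : ℝ)) * ∑ g : G, c * h g y =
      c * ((1 / (Fintype.card G : ℝ)) * ∑ g : G, h g y) := by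
    intro y
    rw [← Finset.mul_sum]
    ring
  simp only [h1]
  rw [intervalIntegral.integral_const_mul]
  ring

/-- Monotonicity of the mean. -/
theorem Wei_gmean_mono {G : Type} [Fintype G] {h h' : G → ℝ → ℝ} (hh : ∀ g, Continuous (h g))
    (hh' : ∀ g, Continuous (h' g)) (hle : ∀ g y, h g y ≤ h' g y) {T : ℝ} (hT : 0 < T) :
    gmean h T ≤ gmean h' T := by
  unfold gmean
  refine mul_le_mul_of_nonneg_left ?_ (by positivity)
  refine intervalIntegral.integral_mono_on hT.le ?_ ?_ fun y _ => ?_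
  · exact (continuous_const.mul (continuous_finsetSum _ fun g _ => hh g)).intervalIntegrable _ _
  · exact (continuous_const.mul (continuous_finsetSum _ fun g _ => hh' g)).intervalIntegrable _ _
  · exact mul_le_mul_of_nonneg_left (Finset.sum_le_sum fun g _ => hle g y) (by positivity)

/-- The mean of a constant. -/
theorem Wei_gmean_const {G : Type} [Fintype G] [Nonempty G] (c : ℝ) {T : ℝ} (hT : 0 < T) :
    gmean (fun (_ : G) _ => c) T = c := by
  unfold gmean
  have h1 : (Fintype.card G : ℝ) ≠ 0 := by exact_mod_cast Fintype.card_ne_zero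
  simp only [Finset.sum_const, Finset.card_univ, nsmul_eq_mul, intervalIntegral.integral_const,
    smul_eq_mul]
  field_simp
  ring

/-- The trigonometric polynomial. -/
noncomputable def Wei_h0 {G : Type} [_root_.Group G] {m : ℕ} (Y : Fin m → Type)
    [∀ j, MulAction G (Y j)] (c t : Fin m → ℝ) (g : G) (y : ℝ) : ℝ :=
  ∑ j, c j * (fx (Y j) g * Real.cos (t j * y))

/-- It is admissible. -/
theorem Wei_h0_bound {G : Type} [_root_.Group G] {m : ℕ} (Y : Fin m → Type)
    [∀ j, Fintype (Y j)] [∀ j, MulAction G (Y j)] (c t : Fin m → ℝ) (g : G) (y : ℝ) :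
    |Wei_h0 Y c t g y| ≤ ∑ j, |c j| * (Fintype.card (Y j) : ℝ) := by
  unfold Wei_h0
  refine (Finset.abs_sum_le_sum_abs _ _).trans (Finset.sum_le_sum fun j _ => ?_)
  rw [abs_mul, abs_mul]
  refine mul_le_mul_of_nonneg_left ?_ (abs_nonneg _)
  have h1 : |fx (Y j) g| ≤ (Fintype.card (Y j) : ℝ) := by
    unfold fx
    rw [abs_of_nonneg (Nat.cast_nonneg _)]
    have : Nat.card {y : Y j // g • y = y} ≤ Nat.card (Y j) :=
      Nat.card_le_card_of_injective _ Subtype.val_injective
    rw [Nat.card_eq_fintype_card (α := Y j)] at this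
    exact_mod_cast this
  calc |fx (Y j) g| * |Real.cos (t j * y)| ≤ (Fintype.card (Y j) : ℝ) * 1 :=
        mul_le_mul h1 (Real.abs_cos_le_one _) (abs_nonneg _) (Nat.cast_nonneg _)
    _ = _ := mul_one _

/-- It is continuous. -/
theorem Wei_h0_cont {G : Type} [_root_.Group G] {m : ℕ} (Y : Fin m → Type)
    [∀ j, MulAction G (Y j)] (c t : Fin m → ℝ) (g : G) : Continuous (Wei_h0 Y c t g) := by
  unfold Wei_h0
  fun_prop

/-- Polynomials of the trigonometric polynomial are good. -/
theorem Wei_poly (hL : S_MeanLin) (hA : S_Alg) {X G : Type} [_root_.Group G] [Fintype G]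
    {q : X → ℕ} {σ : X → G} {ℓ : X → ℝ} (hq : Norms q) (hT : TransHyp q σ ℓ) {m : ℕ}
    (Y : Fin m → Type) [∀ j, Fintype (Y j)] [∀ j, MulAction G (Y j)] (c t : Fin m → ℝ)
    (p : Polynomial ℝ) :
    Wei_Good q σ ℓ (fun g y => p.eval (Wei_h0 Y c t g y)) := by
  have hadd := (hL X q hq).1
  have hsmul := (hL X q hq).2.1
  have hbd : ∀ p : Polynomial ℝ, Bd (fun v => p.eval (Wei_h0 Y c t (σ v) (ℓ v))) := by
    intro p
    obtain ⟨C, hC⟩ := IsCompact.exists_bound_of_continuousOn
      (isCompact_Icc (a := -(∑ j, |c j| * (Fintype.card (Y j) : ℝ)))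
        (b := ∑ j, |c j| * (Fintype.card (Y j) : ℝ))) (f := fun z => p.eval z)
      p.continuous.continuousOn
    refine ⟨C, fun v => ?_⟩
    have := hC _ (abs_le.mp (Wei_h0_bound Y c t (σ v) (ℓ v)))
    rwa [Real.norm_eq_abs] at this
  induction p using Polynomial.induction_on' with
  | add p r hp hr =>
    obtain ⟨L1, h1, h2⟩ := hp
    obtain ⟨L2, h3, h4⟩ := hr
    refine ⟨L1 + L2, ?_, ?_⟩
    · have := hadd _ _ L1 L2 (hbd p) (hbd r) h1 h3
      simpa only [Polynomial.eval_add] using this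
    · refine (h2.add h4).congr fun T => ?_
      rw [← Wei_gmean_add]
      · simp only [Polynomial.eval_add]
      · exact fun g => p.continuous.comp (Wei_h0_cont Y c t g)
      · exact fun g => r.continuous.comp (Wei_h0_cont Y c t g)
  | monomial n a =>
    obtain ⟨L, h1, h2⟩ := hA X G q σ ℓ hq hT m Y c t n
    refine ⟨a * L, ?_, ?_⟩
    · have := hsmul a _ L h1
      simp only [Polynomial.eval_monomial]
      exact this
    · refine (h2.const_mul a).congr fun T => ?_
      rw [← Wei_gmean_smul]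
      simp only [Polynomial.eval_monomial]
      rfl

/-- **Wei**: absolute values. -/
theorem wei (hL : S_MeanLin) (hA : S_Alg) : S_Wei := by
  intro X G _ _ q σ ℓ hq hT m Y _ _ c t B hB ε hε
  set R : ℝ := ∑ j, |c j| * (Fintype.card (Y j) : ℝ) with hR
  obtain ⟨p, hp⟩ := exists_polynomial_near_of_continuousOn (-R) R (fun z => |z|)
    continuous_abs.continuousOn (ε / 4) (by positivity)
  obtain ⟨L, h1, h2⟩ := Wei_poly hL hA hq hT Y c t p
  have hin : ∀ (g : G) (y : ℝ), Wei_h0 Y c t g y ∈ Set.Icc (-R) R := fun g y =>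
    abs_le.mp (Wei_h0_bound Y c t g y)
  have hc1 : ∀ g : G, Continuous fun y => p.eval (Wei_h0 Y c t g y) := fun g =>
    p.continuous.comp (Wei_h0_cont Y c t g)
  have hc2 : ∀ g : G, Continuous fun y => |Wei_h0 Y c t g y| := fun g => (Wei_h0_cont Y c t g).abs
  have hLB : L ≤ B + ε / 4 := by
    refine le_of_tendsto h2 ?_
    filter_upwards [hB, eventually_gt_atTop 0] with T hT1 hT0
    have h3 : gmean (fun (g : G) y => p.eval (Wei_h0 Y c t g y)) T ≤
        gmean (fun (g : G) y => |Wei_h0 Y c t g y| + ε / 4) T := by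
      refine Wei_gmean_mono hc1 (fun g => (hc2 g).add continuous_const) (fun g y => ?_) hT0
      have := (abs_lt.mp (hp _ (hin g y))).2
      change _ ≤ |Wei_h0 Y c t g y| + ε / 4
      linarith
    rw [Wei_gmean_add hc2 (fun _ => continuous_const), Wei_gmean_const _ hT0] at h3
    have h4 : gmean (fun (g : G) y => |Wei_h0 Y c t g y|) T ≤ B := hT1
    linarith
  have hBd1 : Bd (fun v => |Wei_h0 Y c t (σ v) (ℓ v)|) := by
    refine ⟨R, fun v => ?_⟩
    rw [abs_abs]
    exact Wei_h0_bound Y c t _ _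
  have hBd2 : Bd (fun v => p.eval (Wei_h0 Y c t (σ v) (ℓ v))) := by
    refine ⟨R + ε / 4, fun v => ?_⟩
    have h5 := hp _ (hin (σ v) (ℓ v))
    have h6 := Wei_h0_bound Y c t (σ v) (ℓ v)
    have h7 := abs_add_le (p.eval (Wei_h0 Y c t (σ v) (ℓ v)) - |Wei_h0 Y c t (σ v) (ℓ v)|)
      (|Wei_h0 Y c t (σ v) (ℓ v)|)
    rw [sub_add_cancel, abs_abs] at h7
    linarith
  have hBd3 : Bd (fun _ : X => ε / 4) := ⟨|ε / 4|, fun _ => le_rfl⟩
  have hconst : HasMean q (fun _ : X => ε / 4) (ε / 4) := by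
    have := (hL X q hq).2.1 (ε / 4) _ 1 hq.2.2
    simpa only [mul_one] using this
  have hmean := (hL X q hq).1 _ _ _ _ hBd2 hBd3 h1 hconst
  have hBd4 : Bd (fun v => p.eval (Wei_h0 Y c t (σ v) (ℓ v)) + ε / 4) := by
    obtain ⟨C, hC⟩ := hBd2
    exact ⟨C + |ε / 4|, fun v => (abs_add_le _ _).trans (add_le_add (hC v) le_rfl)⟩
  have hfin := (hL X q hq).2.2.2.1 _ _ _ hBd1 hBd4 (fun v => by
    have := (abs_lt.mp (hp _ (hin (σ v) (ℓ v)))).1
    linarith) hmean (ε / 4) (by positivity)
  filter_upwards [hfin, Ioo_mem_nhdsGT (zero_lt_one' ℝ)] with x hx hx1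
  have hpos : 0 < Real.log (1 / x) :=
    Real.log_pos (by rw [lt_div_iff₀ hx1.1]; linarith [hx1.2])
  refine le_trans hx ?_
  refine mul_le_mul_of_nonneg_right ?_ hpos.le
  linarith

end MP7ed9c3.Ext
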