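import Pool.Agent.Lib.MP_7ed9c3_nt.Ext.Homs
import Pool.Agent.Lib.MP_7ed9c3_nt.Ext.Frob
import Pool.Agent.Lib.MP_7ed9c3_nt.Ext.Prim
import Pool.Agent.Lib.MP_7ed9c3_nt.Ext.Bij
import Pool.Agent.Lib.MP_7ed9c3_nt.Ext.Cnt
import Pool.Agent.Lib.MP_7ed9c3_nt.Ext.Deg
import Pool.Agent.Lib.MP_7ed9c3_nt.Ext.FixF
import Pool.Agent.Lib.MP_7ed9c3_nt.Ext.Fib
import Pool.Agent.Lib.MP_7ed9c3_nt.Ext.Reg
import Pool.Agent.Lib.MP_7ed9c3_nt.Ext.TrEq
import Pool.Agent.Lib.MP_7ed9c3_nt.Ext.LSum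
import Pool.Agent.Lib.MP_7ed9c3_nt.Ext.MeanLin
import Pool.Agent.Lib.MP_7ed9c3_nt.Ext.CosM
import Pool.Agent.Lib.MP_7ed9c3_nt.Ext.GSet
import Pool.Agent.Lib.MP_7ed9c3_nt.Ext.Alg
import Pool.Agent.Lib.MP_7ed9c3_nt.Ext.Wei
import Pool.Agent.Lib.MP_7ed9c3_nt.Ext.NormK
import Pool.Agent.Lib.MP_7ed9c3_nt.Ext.TransK
import Pool.Agent.Lib.MP_7ed9c3_nt.Ext.Master
import Pool.Agent.Lib.MP_7ed9c3_nt.Ext.ExistsMin
import Pool.Agent.Lib.MP_7ed9c3_nt.Ext.Burn
import Pool.Agent.Lib.MP_7ed9c3_nt.Ext.AbsCos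
import Pool.Agent.Lib.MP_7ed9c3_nt.Ext.Two
import Pool.Agent.Lib.MP_7ed9c3_nt.Ext.Sym
import Pool.Agent.Lib.MP_7ed9c3_nt.Ext.Ord
import Pool.Agent.Lib.MP_7ed9c3_nt.Ext.NonZ
import Pool.Agent.Lib.MP_7ed9c3_nt.Ext.Glue

/-!
# MP_7ed9c3_nt, part Ext: assembly
-/

set_option autoImplicit false

namespace MP7ed9c3.Ext

open NumberField IsDedekindDomain Filter Topology MP7ed9c3.Tw

theorem regAll : S_Reg := reg zetaSum fib

theorem lSumAll : S_LSum := lSum logProd traceConst regAll (trEq existsModel goodDataAll)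

theorem gSetAll : S_GSet := gSet meanLin cosM

theorem algAll : S_Alg := alg meanLin gSetAll

theorem weiAll : S_Wei := wei meanLin algAll

theorem normKAll : S_NormK := normK zetaSum zetaCosKAll meanLin regAll

theorem degAll : S_Deg := deg homs frob (bij prim) cnt

theorem transKAll : S_TransK := transK normKAll degAll fixF fib meanLin

/-- The master inequality. -/
theorem masterAll : S_Master :=
  master normKAll transKAll weiAll lSumAll meanLin fib traceConst existsMin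

theorem twoAll : S_Two := two masterAll burn absCos

end MP7ed9c3.Ext
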