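import Pool.Agent.Lib.MP_7ed9c3_nt.Ext.All

/-!
# Elliptic curves over the extensions of a number field, on the boundary line

Let `K` be a number field, `N` a finite Galois extension of `K` with group `G`, `F_j` finite
extensions of `K` embeddable into `N`, and `E` an elliptic curve over `K`.  For real `c_j`, `t_j`
the upper limit of `|∑ c_j log |L(E/F_j, 3/2 + x + i t_j)|| / log(1/x)` as `x → 0+` is at most twice
the mean of `|∑ c_j Fix_j(g) cos(t_j y)|` over `(g, y) ∈ G × ℝ`, where `Fix_j(g)` is the number of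
`K`-embeddings of `F_j` into `N` fixed by `g`.

Consequence: let `F/K` be finite and `δ` the proportion of the `g ∈ G` which fix no `K`-embedding of
`F` into `N`.  If `δ < 1/4`, or `t ≠ 0` and `δ < π/8`, then continuations of `L(E/F,s)` and
`L(E/K,s)` to a neighbourhood of `3/2 + i t` have the same order at this point.  If `[F:K] ≥ 3` and
`G` induces all permutations of the embeddings of `F`, then `δ ≤ 3/8 < π/8`.
-/

set_option autoImplicit false

namespace MP7ed9c3.Ext.Final

open NumberField IsDedekindDomain MP7ed9c3 Topology Filter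

/-- The Euler product `L(E,s)`, computed with models `M v` of `E` that are minimal at `v`. -/
noncomputable def lfun {K : Type} [Field K] [NumberField K]
    (M : HeightOneSpectrum (𝓞 K) → WeierstrassCurve (𝓞 K)) (s : ℂ) : ℂ :=
  ∏' v : HeightOneSpectrum (𝓞 K), (locDen (M v) v s)⁻¹

/-- A number field with an embedding of `K`. -/
structure Over (K : Type) [Field K] where
  /-- the field -/
  F : Type
  [field : Field F]
  [nf : NumberField F]
  [alg : Algebra K F]

attribute [instance] Over.field Over.nf Over.alg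

/-- The number of the `K`-embeddings of `F` into `N` fixed by `g`. -/
noncomputable def fixed (K F N : Type) [Field K] [Field F] [Field N] [Algebra K F] [Algebra K N]
    (g : N ≃ₐ[K] N) : ℕ :=
  Nat.card {φ : F →ₐ[K] N // (g : N →ₐ[K] N).comp φ = φ}

/-- The proportion of the elements of the Galois group which fix no `K`-embedding of `F`. -/
noncomputable def deranged (K F N : Type) [Field K] [Field F] [Field N] [Algebra K F]
    [Algebra K N] : ℝ :=
  (Nat.card {g : N ≃ₐ[K] N // ∀ φ : F →ₐ[K] N, (g : N →ₐ[K] N).comp φ ≠ φ} : ℝ) /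
    (Nat.card (N ≃ₐ[K] N) : ℝ)

/-- The mean of `|∑ c_j Fix_j(g) cos(t_j y)|` over `(g, y) ∈ G × [0,T]`. -/
noncomputable def mean (K N : Type) [Field K] [NumberField K] [Field N] [NumberField N]
    [Algebra K N] {m : ℕ} (F : Fin m → Over K) (c t : Fin m → ℝ) (T : ℝ) : ℝ :=
  (1 / T) * ∫ y in (0 : ℝ)..T, (1 / (Fintype.card (N ≃ₐ[K] N) : ℝ)) *
    ∑ g : N ≃ₐ[K] N, |∑ j, c j * (fixed K (F j).F N g * Real.cos (t j * y))|

/-- `Φ` continues `L(E,s)` meromorphically to a neighbourhood of `3/2 + i t`. -/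
def ContinuesAt {K : Type} [Field K] [NumberField K]
    (M : HeightOneSpectrum (𝓞 K) → WeierstrassCurve (𝓞 K)) (t : ℝ) (Φ : ℂ → ℂ) : Prop :=
  MeromorphicAt Φ (3 / 2 + t * Complex.I) ∧
    ∀ᶠ s in 𝓝 (3 / 2 + t * Complex.I : ℂ), 3 / 2 < s.re → Φ s = lfun M s

theorem result :
    ∀ (K N : Type) [Field K] [NumberField K] [Field N] [NumberField N] [Algebra K N]
      [IsGalois K N] (E : WeierstrassCurve K) [E.IsElliptic],
    -- the inequality
    (∀ (m : ℕ) (F : Fin m → Over K), (∀ j, Nonempty ((F j).F →ₐ[K] N)) →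
      ∀ M : ∀ j, HeightOneSpectrum (𝓞 (F j).F) → WeierstrassCurve (𝓞 (F j).F),
        (∀ j w, IsMinAt (E.map (algebraMap K (F j).F)) w (M j w)) →
      ∀ (c t : Fin m → ℝ) (B : ℝ), (∀ᶠ T : ℝ in atTop, mean K N F c t T ≤ B) →
      ∀ ε : ℝ, 0 < ε → ∀ᶠ x : ℝ in 𝓝[>] 0,
        |∑ j, c j * Real.log ‖lfun (M j) (3 / 2 + x + t j * Complex.I)‖| ≤
          (2 * B + ε) * Real.log (1 / x)) ∧
    -- one extension
    ∀ (F : Type) [Field F] [NumberField F] [Algebra K F], Nonempty (F →ₐ[K] N) →
      (∀ (M : HeightOneSpectrum (𝓞 K) → WeierstrassCurve (𝓞 K))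
        (M' : HeightOneSpectrum (𝓞 F) → WeierstrassCurve (𝓞 F)), (∀ v, IsMinAt E v (M v)) →
        (∀ w, IsMinAt (E.map (algebraMap K F)) w (M' w)) →
        ∀ t : ℝ, deranged K F N < 1 / 4 ∨ (t ≠ 0 ∧ deranged K F N < Real.pi / 8) →
        ∀ Φ Φ' : ℂ → ℂ, ContinuesAt M t Φ → ContinuesAt M' t Φ' →
          meromorphicOrderAt Φ' (3 / 2 + t * Complex.I) =
            meromorphicOrderAt Φ (3 / 2 + t * Complex.I)) ∧
      (3 ≤ Module.finrank K F →
        (∀ π : Equiv.Perm (F →ₐ[K] N), ∃ g : N ≃ₐ[K] N, ∀ φ, (g : N →ₐ[K] N).comp φ = π φ) →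
        deranged K F N ≤ 3 / 8) := by
  intro K N _ _ _ _ _ _ E hE
  refine ⟨?_, ?_⟩
  · intro m F hF M hM c t B hB ε hε
    exact Ext.masterAll K N E hE m (fun j => ⟨(F j).F⟩) hF M hM c t B hB ε hε
  · intro F _ _ _ hF
    refine ⟨?_, ?_⟩
    · intro M M' hM hM' t ht Φ Φ' hΦ hΦ'
      have hE' : (E.map (algebraMap K F)).IsElliptic := inferInstance
      set κ : ℝ := if t = 0 then 4 * deranged K F N else 8 * deranged K F N / Real.pi with hκ
      have hd0 : 0 ≤ deranged K F N := by unfold deranged; positivity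
      have hpi := Real.pi_pos
      have hκ1 : κ < 1 := by
        rw [hκ]
        split_ifs with h0
        · rcases ht with h | ⟨h, _⟩
          · linarith
          · exact absurd h0 h
        · rw [div_lt_one hpi]
          rcases ht with h | ⟨_, h⟩
          · have := Real.pi_gt_three
            linarith
          · linarith
      have h2 := Ext.twoAll K F N hF E hE M M' hM hM' t ((1 - κ) / 2) (by linarith)
      refine Ext.ord (3 / 2 + t * Complex.I) Φ' Φ (κ + (1 - κ) / 2) hΦ'.1 hΦ.1 (by linarith) ?_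
      have hpath : Tendsto (fun x : ℝ => (3 / 2 + t * Complex.I : ℂ) + x) (𝓝[>] 0)
          (𝓝 (3 / 2 + t * Complex.I)) := by
        have hc : Continuous fun x : ℝ => (3 / 2 + t * Complex.I : ℂ) + x := by fun_prop
        have := (hc.tendsto 0).mono_left (nhdsWithin_le_nhds (s := Set.Ioi (0 : ℝ)))
        simpa using this
      filter_upwards [h2, hpath.eventually hΦ.2, hpath.eventually hΦ'.2, self_mem_nhdsWithin]
        with x b1 b2 b3 b4
      have hx : 0 < x := b4
      have hre : 3 / 2 < ((3 / 2 + t * Complex.I : ℂ) + x).re := by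
        simp [hx]
      have e : (3 / 2 + t * Complex.I : ℂ) + x = 3 / 2 + x + t * Complex.I := by ring
      have c1 := b2 hre
      have c2 := b3 hre
      have n1 : lfun M ((3 / 2 + t * Complex.I : ℂ) + x) ≠ 0 := Ext.nonZ K E hE M hM _ hre
      have n2 : lfun M' ((3 / 2 + t * Complex.I : ℂ) + x) ≠ 0 :=
        Ext.nonZ F (E.map (algebraMap K F)) hE' M' hM' _ hre
      rw [c1, c2]
      refine ⟨n2, n1, ?_⟩
      rw [e]
      exact b1
    · intro hn hperm
      exact Ext.sym K F N hF hn hperm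

end MP7ed9c3.Ext.Final
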