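import Pool.Agent.Lib.MP_7ed9c3_nt.Ext.Spec

/-!
# MP_7ed9c3_nt, part Ext: primes of degree one are homomorphisms
-/

set_option autoImplicit false
set_option linter.unusedSectionVars false

namespace MP7ed9c3.Ext

open NumberField IsDedekindDomain Filter Topology MP7ed9c3.Tw

variable {K F : Type} [Field K] [NumberField K] [Field F] [NumberField F] [Algebra K F]

/-- The norm is the cardinality of the quotient. -/
theorem Homs_nm (v : HeightOneSpectrum (𝓞 K)) : nm v = Nat.card (𝓞 K ⧸ v.asIdeal) := by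
  unfold nm
  rw [Ideal.absNorm_apply, Submodule.cardQuot_apply]

/-- The map on residue fields. -/
noncomputable def Homs_res (v : HeightOneSpectrum (𝓞 K)) (w : HeightOneSpectrum (𝓞 F))
    (h : w.asIdeal.comap (algebraMap (𝓞 K) (𝓞 F)) = v.asIdeal) :
    (𝓞 K ⧸ v.asIdeal) →ₐ[𝓞 K] (𝓞 F ⧸ w.asIdeal) :=
  Ideal.Quotient.liftₐ v.asIdeal (Algebra.ofId (𝓞 K) (𝓞 F ⧸ w.asIdeal)) (by
    intro a ha
    rw [← h, Ideal.mem_comap] at ha
    rw [Algebra.ofId_apply]
    rw [← Ideal.Quotient.mk_algebraMap]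
    exact Ideal.Quotient.eq_zero_iff_mem.mpr ha)

/-- Residue fields are finite. -/
theorem Homs_finite (v : HeightOneSpectrum (𝓞 K)) : Finite (𝓞 K ⧸ v.asIdeal) :=
  Ideal.finiteQuotientOfFreeOfNeBot v.asIdeal v.ne_bot

/-- A prime of degree one is the kernel of a homomorphism. -/
theorem Homs_exists (v : HeightOneSpectrum (𝓞 K)) (w : HeightOneSpectrum (𝓞 F))
    (h : w.asIdeal.comap (algebraMap (𝓞 K) (𝓞 F)) = v.asIdeal) (hn : nm w = nm v) :
    ∃ φ : 𝓞 F →ₐ[𝓞 K] (𝓞 K ⧸ v.asIdeal), RingHom.ker φ = w.asIdeal := by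
  have hinj : Function.Injective (Homs_res v w h) := by
    have := v.isMaximal
    let := Ideal.Quotient.field v.asIdeal
    have : Nontrivial (𝓞 F ⧸ w.asIdeal) := Ideal.Quotient.nontrivial_iff.mpr w.isPrime.ne_top
    exact RingHom.injective (Homs_res v w h).toRingHom
  have := Homs_finite w
  have hbij : Function.Bijective (Homs_res v w h) := by
    refine (Nat.bijective_iff_injective_and_card _).mpr ⟨hinj, ?_⟩
    rw [← Homs_nm, ← Homs_nm, hn]
  let e := AlgEquiv.ofBijective (Homs_res v w h) hbij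
  refine ⟨(e.symm : (𝓞 F ⧸ w.asIdeal) →ₐ[𝓞 K] (𝓞 K ⧸ v.asIdeal)).comp
    (Ideal.Quotient.mkₐ (𝓞 K) w.asIdeal), ?_⟩
  ext a
  rw [RingHom.mem_ker, AlgHom.comp_apply, Ideal.Quotient.mkₐ_eq_mk]
  change e.symm (Ideal.Quotient.mk w.asIdeal a) = 0 ↔ _
  rw [map_eq_zero_iff _ e.symm.injective, Ideal.Quotient.eq_zero_iff_mem]

/-- The kernel of a homomorphism contracts to the prime below. -/
theorem Homs_comap (v : HeightOneSpectrum (𝓞 K)) (φ : 𝓞 F →ₐ[𝓞 K] (𝓞 K ⧸ v.asIdeal)) :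
    (RingHom.ker φ).comap (algebraMap (𝓞 K) (𝓞 F)) = v.asIdeal := by
  ext a
  rw [Ideal.mem_comap, RingHom.mem_ker, φ.commutes, Ideal.Quotient.algebraMap_eq,
    Ideal.Quotient.eq_zero_iff_mem]

/-- Homomorphisms to the residue field are surjective. -/
theorem Homs_surj (v : HeightOneSpectrum (𝓞 K)) (φ : 𝓞 F →ₐ[𝓞 K] (𝓞 K ⧸ v.asIdeal)) :
    Function.Surjective φ := by
  intro z
  obtain ⟨b, rfl⟩ := Ideal.Quotient.mk_surjective z
  exact ⟨algebraMap (𝓞 K) (𝓞 F) b, by rw [φ.commutes, Ideal.Quotient.algebraMap_eq]⟩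

/-- The kernel of a homomorphism as a prime. -/
noncomputable def Homs_prime (v : HeightOneSpectrum (𝓞 K))
    (φ : 𝓞 F →ₐ[𝓞 K] (𝓞 K ⧸ v.asIdeal)) : HeightOneSpectrum (𝓞 F) where
  asIdeal := RingHom.ker φ
  isPrime := by
    have := v.isPrime
    exact RingHom.ker_isPrime _
  ne_bot := by
    intro h0
    have h1 := Homs_comap v φ
    rw [h0] at h1
    apply v.ne_bot
    rw [← h1]
    ext a
    rw [Ideal.mem_comap, Ideal.mem_bot, Ideal.mem_bot, map_eq_zero_iff]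
    exact RingOfIntegers.algebraMap.injective K F

/-- The norm of the kernel. -/
theorem Homs_nm_prime (v : HeightOneSpectrum (𝓞 K))
    (φ : 𝓞 F →ₐ[𝓞 K] (𝓞 K ⧸ v.asIdeal)) : nm (Homs_prime v φ) = nm v := by
  rw [Homs_nm, Homs_nm]
  exact Nat.card_congr (Ideal.quotientKerAlgEquivOfSurjective (Homs_surj v φ)).toEquiv

/-- Homomorphisms with the same kernel are equal. -/
theorem Homs_inj (v : HeightOneSpectrum (𝓞 K)) (φ ψ : 𝓞 F →ₐ[𝓞 K] (𝓞 K ⧸ v.asIdeal))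
    (h : RingHom.ker φ = RingHom.ker ψ) : φ = ψ := by
  ext a
  obtain ⟨b, hb⟩ := Ideal.Quotient.mk_surjective (φ a)
  have h1 : a - algebraMap (𝓞 K) (𝓞 F) b ∈ RingHom.ker φ := by
    rw [RingHom.mem_ker, map_sub, φ.commutes, Ideal.Quotient.algebraMap_eq, hb, sub_self]
  rw [h, RingHom.mem_ker, map_sub, ψ.commutes, Ideal.Quotient.algebraMap_eq, sub_eq_zero] at h1
  rw [h1, hb]

/-- **Homs**: primes of degree one are homomorphisms. -/
theorem homs : S_Homs := by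
  intro K F _ _ _ _ _ v
  unfold deg1
  symm
  refine Nat.card_congr (Equiv.ofBijective
    (fun φ : 𝓞 F →ₐ[𝓞 K] (𝓞 K ⧸ v.asIdeal) =>
      (⟨Homs_prime v φ, Homs_comap v φ, Homs_nm_prime v φ⟩ :
        {w : HeightOneSpectrum (𝓞 F) //
          w.asIdeal.comap (algebraMap (𝓞 K) (𝓞 F)) = v.asIdeal ∧ nm w = nm v})) ⟨?_, ?_⟩)
  · intro φ ψ h
    apply Homs_inj v
    have h1 := congrArg (fun w => w.1.asIdeal) h
    exact h1
  · rintro ⟨w, hw, hn⟩
    obtain ⟨φ, hφ⟩ := Homs_exists v w hw hn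
    exact ⟨φ, Subtype.ext (HeightOneSpectrum.ext hφ)⟩

end MP7ed9c3.Ext
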