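import Pool.Agent.Lib.MP_7ed9c3_nt.Ext.Spec

/-!
# MP_7ed9c3_nt, part Ext: the logarithm of the Euler product over an extension (module LSum)
-/

set_option autoImplicit false

namespace MP7ed9c3.Ext

open NumberField IsDedekindDomain Filter Topology MP7ed9c3.Tw

/-- A bound of the normalised trace times a cosine. -/
theorem LSum_bound (a q A B c : ℝ) (h : |a| ≤ A * √q) (hA : 0 ≤ A) (hB : A ≤ B) (hc : |c| ≤ 1) :
    |a / √q * c| ≤ B := by
  rw [abs_mul, abs_div, abs_of_nonneg (Real.sqrt_nonneg q)]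
  have h1 : |a| / √q ≤ A := by
    rcases (Real.sqrt_nonneg q).eq_or_lt with h0 | h0
    · rw [← h0, div_zero]
      exact hA
    · rw [div_le_iff₀ h0]
      exact h
  have h2 : 0 ≤ |a| / √q := div_nonneg (abs_nonneg a) (Real.sqrt_nonneg q)
  calc |a| / √q * |c| ≤ |a| / √q * 1 := mul_le_mul_of_nonneg_left hc h2
    _ = |a| / √q := mul_one _
    _ ≤ A := h1
    _ ≤ B := hB

/-- **LSum**: the logarithm of the Euler product over `F` is a sum over the primes of `K`. -/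
theorem lSum (h1 : LogProd) (h2 : TraceConst) (h3 : S_Reg) (h4 : S_TrEq) : S_LSum := by
  intro K F _ _ _ _ _ E hE M M' hM hM'
  have hE' : (E.map (algebraMap K F)).IsElliptic := by
    have := hE
    infer_instance
  obtain ⟨C₁, hC₁⟩ := h1 F (E.map (algebraMap K F)) hE' M' hM'
  obtain ⟨-, -, -, A₁, hA₁, hb₁⟩ := h2 F (E.map (algebraMap K F)) hE' M' hM'
  obtain ⟨-, -, -, A₂, hA₂, hb₂⟩ := h2 K E hE M hM
  obtain ⟨S, hS, hST⟩ := h4 K F E hE
  obtain ⟨C₂, hC₂⟩ := h3 K F S (max A₁ A₂) hS (le_max_of_le_left hA₁)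
  refine ⟨C₁ + C₂, fun x t hx hx1 => ?_⟩
  have e1 := hC₁ x t hx hx1
  have e2 := hC₂
    (fun w => (tr (M' w) w : ℝ) / √(nm w) * Real.cos (t * Real.log (nm w)))
    (fun v => (tr (M v) v : ℝ) / √(nm v) * Real.cos (t * Real.log (nm v)))
    (fun w => LSum_bound _ _ A₁ _ _ (hb₁ w) hA₁ (le_max_left _ _) (Real.abs_cos_le_one _))
    (fun v => LSum_bound _ _ A₂ _ _ (hb₂ v) hA₂ (le_max_right _ _) (Real.abs_cos_le_one _))
    (fun v hv w hwv hn => by
      have e3 := hST v hv w hwv hn (M v) (M' w) (hM v) (hM' w)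
      simp only [e3, hn])
    x hx hx1
  rw [abs_le] at e1 e2 ⊢
  constructor
  · linarith [e1.1, e2.1]
  · linarith [e1.2, e2.2]

end MP7ed9c3.Ext
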