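import Pool.Agent.Lib.MP_7ed9c3_nt.SpecN
import Pool.Agent.Lib.MP_7ed9c3_nt.Tw.SpecD

/-!
# MP_7ed9c3_nt, part Ext: elliptic curves over the extensions of a number field (specification)

K a number field, N a finite Galois extension of K with group G, F_j finite extensions of K
embeddable into N, E an elliptic curve over K.  MASTER INEQUALITY: for real numbers c_j, t_j

limsup_{x -> 0+} |∑_j c_j log|L(E/F_j, 3/2 + x + i t_j)|| / log(1/x) ≤
    2 * mean over (g, y) in G × ℝ of |∑_j c_j Fix_j(g) cos(t_j y)|,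

Fix_j(g) = number of K-embeddings F_j → N fixed by g.  Only Hasse's bound and the nonvanishing
of the Dedekind zeta functions on Re s = 1 are used.  Corollary: F/K with [F : K] = n ≥ 3 and Galois
group S_n, t ≠ 0: continuations of L(E/F,s) and L(E/K,s) have the same order at 3/2 + i t.

Every statement `S_Name` is a separate module `Ext/Name.lean` with `theorem name : S_Name` (first letter
small), the statements after `from` being hypotheses.  All modules import only this file.
-/

set_option autoImplicit false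

namespace MP7ed9c3.Ext

open NumberField IsDedekindDomain Filter Topology MP7ed9c3.Tw

/-- The number of the primes of `F` over `v` with the same norm. -/
noncomputable def deg1 (K F : Type) [Field K] [NumberField K] [Field F] [NumberField F]
    [Algebra K F] (v : HeightOneSpectrum (𝓞 K)) : ℕ :=
  Nat.card {w : HeightOneSpectrum (𝓞 F) //
    w.asIdeal.comap (algebraMap (𝓞 K) (𝓞 F)) = v.asIdeal ∧ nm w = nm v}

/-- The number of the `K`-embeddings of `F` into `N` fixed by `g`. -/
noncomputable def fix (K F N : Type) [Field K] [Field F] [Field N] [Algebra K F] [Algebra K N]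
    (g : N ≃ₐ[K] N) : ℕ :=
  Nat.card {φ : F →ₐ[K] N // (g : N →ₐ[K] N).comp φ = φ}

/-- `g` is a Frobenius element at the prime `P` of `N` over `v`. -/
def IsFrob (K N : Type) [Field K] [NumberField K] [Field N] [NumberField N] [Algebra K N]
    (v : HeightOneSpectrum (𝓞 K)) (P : Ideal (𝓞 N)) (g : N ≃ₐ[K] N) : Prop :=
  P.IsPrime ∧ P.comap (algebraMap (𝓞 K) (𝓞 N)) = v.asIdeal ∧
    ∀ a : 𝓞 N, RingOfIntegers.mapAlgHom (g : N →ₐ[K] N) a - a ^ nm v ∈ P

/-- Reduction modulo `P` of an embedding of `F` into `N`. -/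
noncomputable def redHom (K F N : Type) [Field K] [NumberField K] [Field F] [NumberField F]
    [Field N] [NumberField N] [Algebra K F] [Algebra K N] (P : Ideal (𝓞 N)) (φ : F →ₐ[K] N) :
    𝓞 F →ₐ[𝓞 K] (𝓞 N ⧸ P) :=
  (Ideal.Quotient.mkₐ (𝓞 K) P).comp (RingOfIntegers.mapAlgHom φ)

/-! ## A. Primes of degree one and fixed embeddings -/

/-- **Homs**: primes of degree one are homomorphisms.

Proof. Let w lie over v with nm w = nm v. The map 𝓞 K/v → 𝓞 F/w is injective, both are finite with the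
same number of elements (`nm` is the cardinality, `Ideal.absNorm_apply`, `Submodule.cardQuot_apply`), so
it is bijective and 𝓞 F → 𝓞 F/w ≅ 𝓞 K/v is an 𝓞 K-algebra homomorphism with kernel w. Conversely the
kernel w of φ : 𝓞 F → 𝓞 K/v over 𝓞 K is maximal (φ is surjective because 𝓞 K → 𝓞 K/v is), comap w =
ker(𝓞 K → 𝓞 K/v) = v ≠ 0, so w ≠ 0, and 𝓞 F/w ≅ 𝓞 K/v gives nm w = nm v. Two homomorphisms φ, φ' with the
same kernel are equal: for a : 𝓞 F choose b : 𝓞 K with φ(a) = b mod v = φ(b); then a - b ∈ ker φ = ker φ',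
so φ'(a) = φ'(b) = b mod v = φ(a). -/
def S_Homs : Prop :=
  ∀ (K F : Type) [Field K] [NumberField K] [Field F] [NumberField F] [Algebra K F]
    (v : HeightOneSpectrum (𝓞 K)),
    deg1 K F v = Nat.card (𝓞 F →ₐ[𝓞 K] (𝓞 K ⧸ v.asIdeal))

/-- **Frob**: existence of Frobenius elements.

Proof. There is a prime P of 𝓞 N over v (integral extension; `Ideal.exists_ideal_over_maximal_of_isIntegral`
or nonemptiness of `Ideal.primesOver`). `AlgHom.IsArithFrobAt`, `IsArithFrobAt.exists_of_isInvariant` in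
`Mathlib/RingTheory/Frobenius.lean` for R = 𝓞 K, S = 𝓞 N, G = N ≃ₐ[K] N (instances
`Algebra.IsInvariant (𝓞 K) (𝓞 N) (N ≃ₐ[K] N)` from `Algebra.isInvariant_of_isGalois` or similar,
`Finite (𝓞 N ⧸ P)`); `Nat.card (𝓞 K ⧸ P.under _) = nm v`. (If the instances are inconvenient: Frobenius by
hand as in the proof of `exists_of_isInvariant`.) -/
def S_Frob : Prop :=
  ∀ (K N : Type) [Field K] [NumberField K] [Field N] [NumberField N] [Algebra K N] [IsGalois K N]
    (v : HeightOneSpectrum (𝓞 K)), ∃ (P : Ideal (𝓞 N)) (g : N ≃ₐ[K] N), IsFrob K N v P g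

/-- **Prim**: an integral primitive element and its conductor.

Proof. `Field.exists_primitive_element K F` and `exists_integral_multiple` (θ = m α, m a nonzero integer or
element of 𝓞 K, K(θ) = K(α)). 𝓞 F is a finitely generated 𝓞 K-module (`RingOfIntegers.instIsNoetherian..`,
`extension_isNoetherian`) with generators a_1..a_r; a_i = ∑_j c_ij θ^j with c_ij ∈ K (`K⟮θ⟯ = ⊤`, power
basis, or `IntermediateField.mem_adjoin_simple_iff` / `Algebra.adjoin`), D a common denominator of all the c_ij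
(`IsLocalization.exist_integer_multiples_of_finset` for 𝓞 K → K). Then D a_i is a polynomial in θ with
coefficients in 𝓞 K, hence so is D a for every 𝓞 K-linear combination a. -/
def S_Prim : Prop :=
  ∀ (K F : Type) [Field K] [NumberField K] [Field F] [NumberField F] [Algebra K F],
    ∃ (θ : 𝓞 F) (D : 𝓞 K), D ≠ 0 ∧ IntermediateField.adjoin K {(θ : F)} = ⊤ ∧
      ∀ a : 𝓞 F, ∃ p : Polynomial (𝓞 K),
        algebraMap (𝓞 K) (𝓞 F) D * a = Polynomial.aeval θ p

/-- **Bij** (from `S_Prim`): outside finitely many primes the reduction is a bijection.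

Proof. θ, D₂ from `S_Prim`. For embeddings φ ≠ ψ of F into N: φ(θ) ≠ ψ(θ) (K(θ) = F); let Δ ∈ 𝓞 N be the
product of the φ(θ) - ψ(θ) over all pairs φ ≠ ψ (finitely many embeddings), Δ ≠ 0. There is D₁ ∈ 𝓞 K, D₁ ≠ 0,
with Δ ∣ D₁ in 𝓞 N (constant coefficient of the minimal polynomial of Δ over 𝓞 K, or the norm, or
`Ideal.exists_..._mem_comap`: the ideal (Δ) ≠ 0 meets 𝓞 K nontrivially,
`Ideal.comap_ne_bot_of_integral_mem` or `Ideal.IsIntegralClosure.comap_ne_bot`). D = D₁ D₂.
Let P be a prime not containing D. Injective: if the reductions of φ ≠ ψ agree then φ(θ) - ψ(θ) ∈ P, so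
Δ ∈ P and D₁ ∈ P, contradiction. Surjective: let h : 𝓞 F → 𝓞 N/P be over 𝓞 K. N/K is normal and F embeds
into N, so f = minpoly K θ splits in N; every root of f in N is φ(θ) for an embedding φ (K(θ) = F;
`IntermediateField.algHomAdjoinIntegralEquiv` / `PowerBasis.liftEquiv`) and f is separable: f = ∏_φ (X - φ(θ)).
f has coefficients in 𝓞 K (`minpoly.isIntegrallyClosed_eq_field_fractions'`), so
0 = h(f(θ)) = ∏_φ (h(θ) - φ(θ) mod P) and, P being prime, h(θ) = φ(θ) mod P for some φ. For a ∈ 𝓞 F: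
D₂ a = p(θ), so D₂ h(a) = p(h(θ)) = p(φ(θ)) = φ(D₂ a) = D₂ φ(a) mod P, and D₂ ∉ P: h(a) = φ(a) mod P. -/
def S_Bij : Prop :=
  ∀ (K F N : Type) [Field K] [NumberField K] [Field F] [NumberField F] [Field N] [NumberField N]
    [Algebra K F] [Algebra K N] [IsGalois K N], Nonempty (F →ₐ[K] N) →
    ∃ D : 𝓞 K, D ≠ 0 ∧ ∀ P : Ideal (𝓞 N), P.IsPrime → algebraMap (𝓞 K) (𝓞 N) D ∉ P →
      Function.Bijective (redHom K F N P)

/-- **Cnt**: the fixed embeddings and the homomorphisms into the residue field.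

Proof. Let κ = 𝓞 N/P (a domain), k = 𝓞 K/v, q = nm v = card k, ι : k → κ the injective ring homomorphism
(comap P = v). (1) z ∈ κ is in the image of ι iff z^q = z: the q elements of ι(k) satisfy z^q = z
(`FiniteField.pow_card`) and X^q - X has at most q roots in the domain κ. (2) By `IsFrob`:
redHom P (g∘φ) a = (redHom P φ a)^q for a ∈ 𝓞 F. So, redHom being injective, g∘φ = φ iff
(redHom φ a)^q = redHom φ a for all a, iff redHom φ has values in ι(k). (3) The 𝓞 K-algebra homomorphisms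
𝓞 F → κ with values in ι(k) correspond bijectively to the homomorphisms 𝓞 F → k (compose with ι). As redHom
is bijective, the number of φ with g∘φ = φ is the number of 𝓞 K-homomorphisms 𝓞 F → k. -/
def S_Cnt : Prop :=
  ∀ (K F N : Type) [Field K] [NumberField K] [Field F] [NumberField F] [Field N] [NumberField N]
    [Algebra K F] [Algebra K N] (v : HeightOneSpectrum (𝓞 K)) (P : Ideal (𝓞 N)) (g : N ≃ₐ[K] N),
    IsFrob K N v P g → Function.Bijective (redHom K F N P) →
      Nat.card (𝓞 F →ₐ[𝓞 K] (𝓞 K ⧸ v.asIdeal)) = fix K F N g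

/-- **Deg** (from `S_Homs`, `S_Frob`, `S_Bij`, `S_Cnt`).

Proof. Choose for every v a P and a Frobenius element σ v (`S_Frob`). For F take D from `S_Bij`; S = {v | D ∈ v}
is finite (as in `N5.finite_mem`: `Ideal.finite_factors`). For v ∉ S the prime P over v does not contain D
(comap P = v). -/
def S_Deg : Prop :=
  ∀ (K N : Type) [Field K] [NumberField K] [Field N] [NumberField N] [Algebra K N] [IsGalois K N],
    ∃ σ : HeightOneSpectrum (𝓞 K) → (N ≃ₐ[K] N),
      ∀ (F : Type) [Field F] [NumberField F] [Algebra K F], Nonempty (F →ₐ[K] N) →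
        ∃ S : Set (HeightOneSpectrum (𝓞 K)), S.Finite ∧ ∀ v ∉ S, deg1 K F v = fix K F N (σ v)

/-- **FixF**: the embeddings of the fixed field of H are the cosets of H.

Proof. F = `IntermediateField.fixedField H` (number field: `NumberField.of_intermediateField`; `F.val` is an
embedding). Restriction G → Hom_K(F, N), τ ↦ τ∘F.val is surjective (N/K normal: every embedding of F into N
extends to N, `AlgHom.restrictNormal`.. or `IsAlgClosed`-free version: `AlgHom.liftNormal`,
`IntermediateField`, `Normal`), and τ∘val = τ'∘val iff τ⁻¹τ' fixes F iff τ⁻¹τ' ∈ H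
(`IntermediateField.fixingSubgroup_fixedField`). So G/H → Hom_K(F,N), τH ↦ τ∘val is a G-equivariant bijection
(G acts on Hom_K(F,N) by composition), so the numbers of points fixed by g are equal. -/
def S_FixF : Prop :=
  ∀ (K N : Type) [Field K] [NumberField K] [Field N] [NumberField N] [Algebra K N] [IsGalois K N]
    (H : Subgroup (N ≃ₐ[K] N)), ∃ (F : Type) (_ : Field F) (_ : NumberField F) (_ : Algebra K F),
      Nonempty (F →ₐ[K] N) ∧
      ∀ g : N ≃ₐ[K] N, fix K F N g = Nat.card {y : (N ≃ₐ[K] N) ⧸ H // g • y = y}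

/-! ## B. Sums over primes -/

/-- **Fib**: the primes of F over a prime v of K.

Proof. `Ideal.sum_ramification_inertia (𝓞 F) v K F` : ∑_{w over v} e f = [F : K], every term is ≥ 1; nm w =
(nm v)^f (`Ideal.absNorm_eq_pow_inertiaDeg` or `Ideal.absNorm` of the quotient, a vector space of dimension f
over 𝓞 K/v). If nm w ≠ nm v then f ≥ 2 and nm w ≥ (nm v)². Compare `Tw/W5.lean` (the case [F : K] = 2). -/
def S_Fib : Prop :=
  ∀ (K F : Type) [Field K] [NumberField K] [Field F] [NumberField F] [Algebra K F]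
    (v : HeightOneSpectrum (𝓞 K)),
    {w : HeightOneSpectrum (𝓞 F) |
      w.asIdeal.comap (algebraMap (𝓞 K) (𝓞 F)) = v.asIdeal}.Finite ∧
    {w : HeightOneSpectrum (𝓞 F) |
      w.asIdeal.comap (algebraMap (𝓞 K) (𝓞 F)) = v.asIdeal}.ncard ≤ Module.finrank K F ∧
    ∀ w : HeightOneSpectrum (𝓞 F), w.asIdeal.comap (algebraMap (𝓞 K) (𝓞 F)) = v.asIdeal →
      nm w ≠ nm v → nm v ^ 2 ≤ nm w

/-- The sum of `g` with the weights `q^(-(1+x))`. -/
noncomputable def Qs {X : Type} (q : X → ℕ) (x : ℝ) (g : X → ℝ) : ℝ :=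
  ∑' v, g v * (q v : ℝ) ^ (-(1 + x))

/-- **Reg** (from `S_ZetaSum`, `S_Fib`): regrouping of sums over the primes of F.

f is a function on the primes of F, g on the primes of K, both bounded by A, and for v outside a finite set
S every w over v with nm w = nm v satisfies f w = g v. Then the sum of f over F is the sum of deg1 g over K
up to O(1).

Proof. Use `W6.compare`-style regrouping (module `Tw/W6.lean`, lemmas `hasSum_fiber`, `compare`; copy them, they
need only Mathlib): with the fibres F v = {w over v} (finite, `S_Fib`; every w lies over exactly one v,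
`HeightOneSpectrum.under`), f' w = f w (nm w)^(-(1+x)), g' v = deg1 v g v (nm v)^(-(1+x)):
|∑_{w over v} f' w - g' v| ≤ B v, where for v ∉ S only the w with nm w ≥ (nm v)² remain: B v = n A (nm v)^(-2)
(n = [F : K]; 0 < x), and for v ∈ S: B v = 2 n A (all powers are ≤ 1, deg1 v ≤ n). ∑ B v < ∞ by `S_ZetaSum`
for K (exponent 2); summability of f' by `S_ZetaSum` for F. -/
def S_Reg : Prop :=
  ∀ (K F : Type) [Field K] [NumberField K] [Field F] [NumberField F] [Algebra K F]
    (S : Set (HeightOneSpectrum (𝓞 K))) (A : ℝ), S.Finite → 0 ≤ A →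
    ∃ C : ℝ, ∀ (f : HeightOneSpectrum (𝓞 F) → ℝ) (g : HeightOneSpectrum (𝓞 K) → ℝ),
      (∀ w, |f w| ≤ A) → (∀ v, |g v| ≤ A) →
      (∀ v ∉ S, ∀ w : HeightOneSpectrum (𝓞 F),
        w.asIdeal.comap (algebraMap (𝓞 K) (𝓞 F)) = v.asIdeal → nm w = nm v → f w = g v) →
      ∀ x : ℝ, 0 < x → x ≤ 1 →
        |Qs (fun w : HeightOneSpectrum (𝓞 F) => nm w) x f -
          Qs (fun v : HeightOneSpectrum (𝓞 K) => nm v) x (fun v => deg1 K F v * g v)| ≤ C

/-- **TrEq** (from `ExistsModel`, `GoodData`): the traces at primes of degree one.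

Proof. W₀ an integral model of E (`ExistsModel`), W₁ = W₀.map (algebraMap (𝓞 K) (𝓞 F)) is an integral model
of E over F (map the change of variables; `WeierstrassCurve.map_variableChange` or similar, `map_map`, the
square 𝓞 K → 𝓞 F → F, 𝓞 K → K → F commutes). S = {v | W₀.Δ ∈ v ∨ 6 ∈ v}, finite (`Ideal.finite_factors` as in
`N5.finite_mem`). Let v ∉ S, w over v, nm w = nm v: W₁.Δ = image of W₀.Δ ∉ w and 6 ∉ w (comap w = v), so
`GoodData` over K and over F: tr M v = tr W₀ v, tr M' w = tr W₁ w. The ring homomorphism 𝓞 K/v → 𝓞 F/w is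
injective, hence bijective (same finite cardinality), and maps red W₀ v to red W₁ w, so the numbers of
affine solutions agree, and so do the traces. -/
def S_TrEq : Prop :=
  ∀ (K F : Type) [Field K] [NumberField K] [Field F] [NumberField F] [Algebra K F]
    (E : WeierstrassCurve K), E.IsElliptic →
    ∃ S : Set (HeightOneSpectrum (𝓞 K)), S.Finite ∧ ∀ v ∉ S, ∀ w : HeightOneSpectrum (𝓞 F),
      w.asIdeal.comap (algebraMap (𝓞 K) (𝓞 F)) = v.asIdeal → nm w = nm v →
      ∀ (M : WeierstrassCurve (𝓞 K)) (M' : WeierstrassCurve (𝓞 F)), IsMinAt E v M →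
        IsMinAt (E.map (algebraMap K F)) w M' → tr M' w = tr M v

/-- The statement of `Tw.B2.log_prod` (proved there). -/
def LogProd : Prop :=
  ∀ (K : Type) [Field K] [NumberField K] (E : WeierstrassCurve K), E.IsElliptic →
    ∀ M : HeightOneSpectrum (𝓞 K) → WeierstrassCurve (𝓞 K), (∀ v, IsMinAt E v (M v)) →
    ∃ C : ℝ, ∀ x t : ℝ, 0 < x → x ≤ 1 →
      |Real.log ‖∏' v : HeightOneSpectrum (𝓞 K),
          (locDen (M v) v (3 / 2 + x + t * Complex.I))⁻¹‖ -
        Qs (fun v : HeightOneSpectrum (𝓞 K) => nm v) x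
          (fun v => (tr (M v) v : ℝ) / √(nm v) * Real.cos (t * Real.log (nm v)))| ≤ C

/-- The statement of `Z5.trace_const` (proved there): Hasse's bound. -/
def TraceConst : Prop :=
  ∀ (K : Type) [Field K] [NumberField K] (E : WeierstrassCurve K), E.IsElliptic →
    ∀ M : HeightOneSpectrum (𝓞 K) → WeierstrassCurve (𝓞 K), (∀ v, IsMinAt E v (M v)) →
    ∃ S : Set (HeightOneSpectrum (𝓞 K)), S.Finite ∧
      (∀ v ∉ S, |(tr (M v) v : ℝ)| ≤ 2 * √(nm v)) ∧
      ∃ A : ℝ, 0 ≤ A ∧ ∀ v, |(tr (M v) v : ℝ)| ≤ A * √(nm v)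

/-- **LSum** (from `LogProd`, `TraceConst`, `S_Reg`, `S_TrEq`): the logarithm of the Euler product over F as
a sum over the primes of K.

Proof. `LogProd` over F (for E.map, which is elliptic) gives the sum over the primes w of F of
f w = tr (M' w) w / √(nm w) cos(t log nm w). Put g v = tr (M v) v / √(nm v) cos(t log nm v). Both are bounded
(`TraceConst` over F and over K), and f w = g v for nm w = nm v, w over v, v outside the finite set of
`S_TrEq`. `S_Reg`. -/
def S_LSum : Prop :=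
  ∀ (K F : Type) [Field K] [NumberField K] [Field F] [NumberField F] [Algebra K F]
    (E : WeierstrassCurve K), E.IsElliptic →
    ∀ (M : HeightOneSpectrum (𝓞 K) → WeierstrassCurve (𝓞 K))
      (M' : HeightOneSpectrum (𝓞 F) → WeierstrassCurve (𝓞 F)), (∀ v, IsMinAt E v (M v)) →
      (∀ w, IsMinAt (E.map (algebraMap K F)) w (M' w)) → ∃ C : ℝ, ∀ x t : ℝ, 0 < x → x ≤ 1 →
      |Real.log ‖∏' w : HeightOneSpectrum (𝓞 F),
          (locDen (M' w) w (3 / 2 + x + t * Complex.I))⁻¹‖ -
        Qs (fun v : HeightOneSpectrum (𝓞 K) => nm v) x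
          (fun v => deg1 K F v *
            ((tr (M v) v : ℝ) / √(nm v) * Real.cos (t * Real.log (nm v))))| ≤ C

/-! ## C. Mean values (abstract) -/

/-- Bounded functions. -/
def Bd {X : Type} (g : X → ℝ) : Prop := ∃ B : ℝ, ∀ x, |g x| ≤ B

/-- `g` has the mean value `L`. -/
def HasMean {X : Type} (q : X → ℕ) (g : X → ℝ) (L : ℝ) : Prop :=
  Tendsto (fun x : ℝ => Qs q x g / Real.log (1 / x)) (𝓝[>] 0) (𝓝 L)

/-- Norm functions: `q ≥ 2`, convergence for exponents greater than 1, `∑ q^(-1-x) ~ log(1/x)`. -/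
def Norms {X : Type} (q : X → ℕ) : Prop :=
  (∀ v, 2 ≤ q v) ∧ (∀ σ : ℝ, 1 < σ → Summable fun v => (q v : ℝ) ^ (-σ)) ∧
    HasMean q (fun _ => 1) 1

/-- **MeanLin**: rules for mean values.

Proof. For bounded g and x > 0 the series Qs q x g converges absolutely (`Norms`), so Qs is additive,
homogeneous and monotone in g. log(1/x) → ∞ as x → 0+ (`Real.tendsto_log_atTop`, `tendsto_inv_nhdsGT_zero`). (1), (2): limits
of sums. (3): |Qs g - Qs h| ≤ ∑_{v ∈ S} |g v - h v| (q^(-(1+x)) ≤ 1), a constant. (4): Qs g ≤ Qs h and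
Qs h/log(1/x) → L < L + ε; log(1/x) > 0. (5): Qs g = O(1) means mean value 0; more generally if
|Qs g - L log(1/x)| ≤ C for 0 < x ≤ 1 then HasMean g L. -/
def S_MeanLin : Prop :=
  ∀ (X : Type) (q : X → ℕ), Norms q →
    (∀ (g h : X → ℝ) (L L' : ℝ), Bd g → Bd h → HasMean q g L → HasMean q h L' →
      HasMean q (fun v => g v + h v) (L + L')) ∧
    (∀ (c : ℝ) (g : X → ℝ) (L : ℝ), HasMean q g L → HasMean q (fun v => c * g v) (c * L)) ∧
    (∀ (g h : X → ℝ) (L : ℝ) (S : Set X), Bd g → Bd h → S.Finite → (∀ v ∉ S, g v = h v) →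
      HasMean q g L → HasMean q h L) ∧
    (∀ (g h : X → ℝ) (L : ℝ), Bd g → Bd h → (∀ v, g v ≤ h v) → HasMean q h L →
      ∀ ε : ℝ, 0 < ε → ∀ᶠ x : ℝ in 𝓝[>] 0, Qs q x g ≤ (L + ε) * Real.log (1 / x)) ∧
    (∀ (g : X → ℝ) (L C : ℝ),
      (∀ x : ℝ, 0 < x → x ≤ 1 → |Qs q x g - L * Real.log (1 / x)| ≤ C) → HasMean q g L)

/-- The mean over `G × [0,T]`. -/
noncomputable def gmean {G : Type} [Fintype G] (h : G → ℝ → ℝ) (T : ℝ) : ℝ :=
  (1 / T) * ∫ y in (0 : ℝ)..T, (1 / (Fintype.card G : ℝ)) * ∑ g : G, h g y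

/-- The number of points of a G-set fixed by g. -/
noncomputable def fx {G : Type} [_root_.Group G] (Y : Type) [MulAction G Y] (g : G) : ℝ :=
  (Nat.card {y : Y // g • y = y} : ℝ)

/-- Hypothesis of the abstract part: the mean values of the fixed point numbers of the transitive
G-sets, twisted with cosines. -/
def TransHyp {X G : Type} [_root_.Group G] (q : X → ℕ) (σ : X → G) (ℓ : X → ℝ) : Prop :=
  ∀ (H : Subgroup G) (u : ℝ), HasMean q (fun v => fx (G ⧸ H) (σ v) * Real.cos (u * ℓ v))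
    (if u = 0 then 1 else 0)

/-- **CosM**: the mean of a cosine.

Proof. u = 0: the integrand is 1. u ≠ 0: the integral is sin(u T)/u, bounded. -/
def S_CosM : Prop :=
  ∀ u : ℝ, Tendsto (fun T : ℝ => (1 / T) * ∫ y in (0 : ℝ)..T, Real.cos (u * y)) atTop
    (𝓝 (if u = 0 then 1 else 0))

/-- **GSet** (from `S_MeanLin`, `S_CosM`): all finite G-sets.

Proof. Y is the disjoint union of its orbits and the orbit of y is isomorphic to G/stab(y) as a G-set
(`MulAction.selfEquivSigmaOrbitsQuotientStabilizer`, `MulAction.orbitEquivQuotientStabilizer`, equivariance by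
`MulAction.orbitEquivQuotientStabilizer_symm_apply`): fx Y g = ∑_{orbits} fx (G/stab) g. Sum of the means:
[u = 0] × number of orbits; by Burnside's lemma
(`MulAction.sum_card_fixedBy_eq_card_orbits_mul_card_group`) the number of orbits is
(1/|G|) ∑_g fx Y g. On the other side gmean (fx Y g cos(u y)) T = (1/|G|) ∑_g fx Y g × (1/T) ∫ cos(u y), `S_CosM`. -/
def S_GSet : Prop :=
  ∀ (X G : Type) [_root_.Group G] [Fintype G] (q : X → ℕ) (σ : X → G) (ℓ : X → ℝ), Norms q →
    TransHyp q σ ℓ → ∀ (Y : Type) [Fintype Y] [MulAction G Y] (u : ℝ), ∃ L : ℝ,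
      HasMean q (fun v => fx Y (σ v) * Real.cos (u * ℓ v)) L ∧
      Tendsto (gmean (fun (g : G) y => fx Y g * Real.cos (u * y))) atTop (𝓝 L)

/-- **Alg** (from `S_MeanLin`, `S_GSet`): powers of trigonometric polynomials.

Proof. Call h : G → ℝ → ℝ good if h is bounded, continuous in y for every g, and there is L with
HasMean q (fun v => h (σ v) (ℓ v)) L and gmean h → L. Good functions form a linear space (`S_MeanLin`; gmean is
linear for continuous functions). Let 𝒜 be the linear span of the functions (g, y) ↦ fx Y g cos(u y), Y : Type a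
finite G-set, u real. All elements of 𝒜 are good (`S_GSet`; fx Y g ≤ card Y). 𝒜 contains the constant 1 (Y one
point, u = 0) and is closed under multiplication: fx Y g fx Y' g = fx (Y × Y') g (fixed points of the product) and
cos(u y) cos(u' y) = (cos((u+u') y) + cos((u-u') y))/2. So all powers of h₀ = ∑ c_j fx Y_j cos(t_j y) are good. -/
def S_Alg : Prop :=
  ∀ (X G : Type) [_root_.Group G] [Fintype G] (q : X → ℕ) (σ : X → G) (ℓ : X → ℝ), Norms q →
    TransHyp q σ ℓ → ∀ (m : ℕ) (Y : Fin m → Type) [∀ j, Fintype (Y j)] [∀ j, MulAction G (Y j)]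
      (c t : Fin m → ℝ) (k : ℕ), ∃ L : ℝ,
      HasMean q (fun v => (∑ j, c j * (fx (Y j) (σ v) * Real.cos (t j * ℓ v))) ^ k) L ∧
      Tendsto (gmean (fun (g : G) y => (∑ j, c j * (fx (Y j) g * Real.cos (t j * y))) ^ k)) atTop
        (𝓝 L)

/-- **Wei** (from `S_MeanLin`, `S_Alg`): absolute values.

Proof. Let h₀(g,y) = ∑ c_j fx Y_j g cos(t_j y), |h₀| ≤ R := ∑ |c_j| card Y_j. Let ε > 0. By Weierstrass
(`exists_polynomial_near_continuousMap` or `exists_polynomial_near_of_continuousOn` on [-R, R] for the function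
|z|) there is a real polynomial p with ||z| - p(z)| ≤ ε/4 for |z| ≤ R. By `S_Alg` and linearity p(h₀) has a mean value
L in both senses (p = ∑ a_k z^k). gmean(p(h₀)) ≤ gmean(|h₀|) + ε/4 ≤ B + ε/4 for large T (monotone, T > 0), so
L ≤ B + ε/4. And |h₀(σ v, ℓ v)| ≤ p(h₀(σ v, ℓ v)) + ε/4, the right side has the mean value L + ε/4, so by `S_MeanLin` (4)
Qs |h₀| ≤ (L + ε/4 + ε/4) log(1/x) ≤ (B + ε) log(1/x) for small x. -/
def S_Wei : Prop :=
  ∀ (X G : Type) [_root_.Group G] [Fintype G] (q : X → ℕ) (σ : X → G) (ℓ : X → ℝ), Norms q →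
    TransHyp q σ ℓ → ∀ (m : ℕ) (Y : Fin m → Type) [∀ j, Fintype (Y j)] [∀ j, MulAction G (Y j)]
      (c t : Fin m → ℝ) (B : ℝ),
      (∀ᶠ T : ℝ in atTop,
        gmean (fun (g : G) y => |∑ j, c j * (fx (Y j) g * Real.cos (t j * y))|) T ≤ B) →
      ∀ ε : ℝ, 0 < ε → ∀ᶠ x : ℝ in 𝓝[>] 0,
        Qs q x (fun v => |∑ j, c j * (fx (Y j) (σ v) * Real.cos (t j * ℓ v))|) ≤
          (B + ε) * Real.log (1 / x)

/-! ## D. The master inequality -/

/-- An extension field of `K` which is a number field. -/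
structure Over (K : Type) [Field K] where
  /-- the field -/
  F : Type
  [field : Field F]
  [nf : NumberField F]
  [alg : Algebra K F]

attribute [instance] Over.field Over.nf Over.alg

/-- The Euler product. -/
noncomputable def lf {K : Type} [Field K] [NumberField K]
    (M : HeightOneSpectrum (𝓞 K) → WeierstrassCurve (𝓞 K)) (s : ℂ) : ℂ :=
  ∏' v : HeightOneSpectrum (𝓞 K), (locDen (M v) v s)⁻¹

/-- **NormK** (from `S_ZetaSum`, `S_ZetaCosK`, `S_MeanLin`, `S_Reg`): the primes of K.

Proof. nm v ≥ 2 (`HeightOneSpectrum.one_lt_absNorm`), summability `S_ZetaSum`, and primeSum K x 0 = Qs nm x 1 =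
log(1/x) + O(1) by `S_ZetaCosK`; so `Norms` (HasMean of 1 directly from the definition: |Qs 1 - log(1/x)| ≤ C and
log(1/x) → ∞). Second claim: primeSum F x u = Qs (nm on F) x (cos(u log nm)), by `S_Reg` (S = ∅, A = 1,
f w = cos(u log nm w), g v = cos(u log nm v)) it is Qs (nm on K) x (deg1 cos(u log nm)) + O(1), and `S_ZetaCosK` for F;
`S_MeanLin` (5). -/
def S_NormK : Prop :=
  ∀ (K : Type) [Field K] [NumberField K],
    Norms (fun v : HeightOneSpectrum (𝓞 K) => nm v) ∧
    ∀ (F : Type) [Field F] [NumberField F] [Algebra K F] (u : ℝ),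
      HasMean (fun v : HeightOneSpectrum (𝓞 K) => nm v)
        (fun v => (deg1 K F v : ℝ) * Real.cos (u * Real.log (nm v))) (if u = 0 then 1 else 0)

/-- **TransK** (from `S_NormK`, `S_Deg`, `S_FixF`, `S_Fib`, `S_MeanLin`).

Proof. σ from `S_Deg`. Given H, let F be the field of `S_FixF`: fx (G/H) (σ v) = fix K F N (σ v) = deg1 K F v for v
outside a finite set, both sides are bounded (deg1 ≤ [F : K] by `S_Fib`; fx ≤ card (G/H)), so `S_NormK` and
`S_MeanLin` (3). The second part is `S_Deg`. -/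
def S_TransK : Prop :=
  ∀ (K N : Type) [Field K] [NumberField K] [Field N] [NumberField N] [Algebra K N] [IsGalois K N],
    ∃ σ : HeightOneSpectrum (𝓞 K) → (N ≃ₐ[K] N),
      TransHyp (fun v : HeightOneSpectrum (𝓞 K) => nm v) σ (fun v => Real.log (nm v)) ∧
      ∀ (F : Type) [Field F] [NumberField F] [Algebra K F], Nonempty (F →ₐ[K] N) →
        ∃ S : Set (HeightOneSpectrum (𝓞 K)), S.Finite ∧ ∀ v ∉ S, deg1 K F v = fix K F N (σ v)

/-- **Master** (from `S_NormK`, `S_TransK`, `S_Wei`, `S_LSum`, `S_MeanLin`, `S_Fib`, `TraceConst`,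
`ExistsMin`): the master inequality.

Proof. Choose minimal models M₀ v of E over K (`ExistsMin`). l v = tr (M₀ v) v / √(nm v): bounded by A, and
|l v| ≤ 2 outside a finite set (`TraceConst`). By `S_LSum` for every j:
∑_j c_j log|L_j(3/2 + x + i t_j)| = Qs nm x (l v ∑_j c_j deg1_j(v) cos(t_j log nm v)) + O(1) (linearity of Qs for
bounded functions; deg1 ≤ [F : K], `S_Fib`). Outside a finite set deg1_j(v) = fix_j(σ v) (`S_TransK`) and
|l v| ≤ 2, so the absolute value is at most 2 Qs nm x |∑_j c_j fix_j(σ v) cos(t_j log nm v)| + O(1). Apply `S_Wei` with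
Y_j = (F_j →ₐ[K] N), G acting by composition (g • φ = g∘φ; define the `MulAction` locally; fx (Y_j) g = fix K F_j N g;
finite), ε/4: it is ≤ 2 (B + ε/4) log(1/x) + C ≤ (2 B + ε) log(1/x) for small x. -/
def S_Master : Prop :=
  ∀ (K N : Type) [Field K] [NumberField K] [Field N] [NumberField N] [Algebra K N] [IsGalois K N]
    (E : WeierstrassCurve K), E.IsElliptic → ∀ (m : ℕ) (F : Fin m → Over K),
    (∀ j, Nonempty ((F j).F →ₐ[K] N)) →
    ∀ (M : ∀ j, HeightOneSpectrum (𝓞 (F j).F) → WeierstrassCurve (𝓞 (F j).F)),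
      (∀ j w, IsMinAt (E.map (algebraMap K (F j).F)) w (M j w)) →
    ∀ (c t : Fin m → ℝ) (B : ℝ),
      (∀ᶠ T : ℝ in atTop, gmean (fun (g : N ≃ₐ[K] N) y =>
        |∑ j, c j * (fix K (F j).F N g * Real.cos (t j * y))|) T ≤ B) →
      ∀ ε : ℝ, 0 < ε → ∀ᶠ x : ℝ in 𝓝[>] 0,
        |∑ j, c j * Real.log ‖lf (M j) (3 / 2 + x + t j * Complex.I)‖| ≤
          (2 * B + ε) * Real.log (1 / x)

/-- **ExistsMin**: minimal models exist at every prime.

Proof. Integral models exist (`ExistsModel`) with Δ ≠ 0 (every integral model of an elliptic curve has Δ ≠ 0: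
Δ(W) = u^(-12) Δ(E) ≠ 0). For an integral model W let n(W) be the largest n with W.Δ ∈ v^n (exists as
W.Δ ≠ 0: `Ideal` powers intersect in 0, or `Associates.count`/`emultiplicity`). Take W with n(W) minimal. For
another integral model W' and n with W.Δ ∈ v^n: n ≤ n(W) ≤ n(W'), so W'.Δ ∈ v^(n(W')) ⊆ v^n. -/
def S_ExistsMin : Prop :=
  ∀ (K : Type) [Field K] [NumberField K] (E : WeierstrassCurve K), E.IsElliptic →
    ∀ v : HeightOneSpectrum (𝓞 K), ∃ W : WeierstrassCurve (𝓞 K), IsMinAt E v W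

/-! ## E. One extension F/K -/

/-- The proportion of the elements of the Galois group which fix no embedding of `F`. -/
noncomputable def der (K F N : Type) [Field K] [Field F] [Field N] [Algebra K F] [Algebra K N] : ℝ :=
  (Nat.card {g : N ≃ₐ[K] N // ∀ φ : F →ₐ[K] N, (g : N →ₐ[K] N).comp φ ≠ φ} : ℝ) /
    (Nat.card (N ≃ₐ[K] N) : ℝ)

/-- **Burn**: the L¹ norm of fix - 1.

Proof. G = N ≃ₐ[K] N acts on the nonempty finite set Y = (F →ₐ[K] N) transitively (N/K normal: two embeddings of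
F differ by an automorphism, `AlgHom.liftNormal`/`Normal`), so by Burnside's lemma ∑_g fix g = |G|. For natural
numbers n: |n - 1| = (n - 1) + 2 [n = 0]. So ∑_g |fix g - 1| = 2 #{g : fix g = 0} = 2 der |G|. -/
def S_Burn : Prop :=
  ∀ (K F N : Type) [Field K] [NumberField K] [Field F] [NumberField F] [Field N] [NumberField N]
    [Algebra K F] [Algebra K N] [IsGalois K N], Nonempty (F →ₐ[K] N) →
    (1 / (Fintype.card (N ≃ₐ[K] N) : ℝ)) * ∑ g : N ≃ₐ[K] N, |(fix K F N g : ℝ) - 1| =
      2 * der K F N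

/-- **AbsCos**: the mean of |cos|.

Proof. |cos(t y)| has period π/|t| and integral 2/|t| over a period; (1/T) ∫_0^T → 2/π
(`Function.Periodic.tendsto_atTop_intervalIntegral..` or by hand: between k and k+1 periods). -/
def S_AbsCos : Prop :=
  ∀ t : ℝ, t ≠ 0 →
    Tendsto (fun T : ℝ => (1 / T) * ∫ y in (0 : ℝ)..T, |Real.cos (t * y)|) atTop (𝓝 (2 / Real.pi))

/-- **Two** (from `S_Master`, `S_Burn`, `S_AbsCos`): the quotient L(E/F)/L(E/K).

Proof. `S_Master` with m = 2, F_0 = F, F_1 = K (`⟨K⟩ : Over K`, identity algebra, E.map (algebraMap K K) = E: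
`WeierstrassCurve.map_id`; fix K K N g = 1: there is exactly one K-embedding of K), c = (1, -1), t = (t, t):
the integrand is |fix g - 1| |cos(t y)|, its mean over G × [0,T] is 2 der × (1/T) ∫ |cos(t y)|, which is
≤ 2 der always and tends to 2 der (2/π) if t ≠ 0; B = 2 der, resp. B = (4/π) der + ε/4. -/
def S_Two : Prop :=
  ∀ (K F N : Type) [Field K] [NumberField K] [Field F] [NumberField F] [Field N] [NumberField N]
    [Algebra K F] [Algebra K N] [IsGalois K N], Nonempty (F →ₐ[K] N) →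
    ∀ (E : WeierstrassCurve K), E.IsElliptic →
    ∀ (M : HeightOneSpectrum (𝓞 K) → WeierstrassCurve (𝓞 K))
      (M' : HeightOneSpectrum (𝓞 F) → WeierstrassCurve (𝓞 F)), (∀ v, IsMinAt E v (M v)) →
      (∀ w, IsMinAt (E.map (algebraMap K F)) w (M' w)) →
    ∀ t ε : ℝ, 0 < ε → ∀ᶠ x : ℝ in 𝓝[>] 0,
      |Real.log ‖lf M' (3 / 2 + x + t * Complex.I)‖ -
        Real.log ‖lf M (3 / 2 + x + t * Complex.I)‖| ≤
        ((if t = 0 then 4 * der K F N else 8 * der K F N / Real.pi) + ε) * Real.log (1 / x)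

/-- **Sym**: symmetric groups.

Proof. Let n = [F : K] ≥ 3; Y = (F →ₐ[K] N) has n elements (`AlgHom.card_of_splits`-type lemma: F/K separable, N
normal over K and F embeds into N). The action G → Perm Y is a surjective homomorphism, so all its fibres
have |G|/n! elements and der = (number of derangements of Y)/n! (`card_derangements_eq_numDerangements`)
= numDerangements n / n!. For n ≥ 3 this is ≤ 3/8: 8 numDerangements n ≤ 3 n! for n = 3 (16 ≤ 18), n = 4
(72 ≤ 72) and numDerangements (n+2) = (n+1)(numDerangements n + numDerangements (n+1))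
(`numDerangements_add_two`), (n+1)(n! + (n+1)!) = (n+2)!. -/
def S_Sym : Prop :=
  ∀ (K F N : Type) [Field K] [NumberField K] [Field F] [NumberField F] [Field N] [NumberField N]
    [Algebra K F] [Algebra K N] [IsGalois K N], Nonempty (F →ₐ[K] N) →
    3 ≤ Module.finrank K F →
    (∀ π : Equiv.Perm (F →ₐ[K] N), ∃ g : N ≃ₐ[K] N, ∀ φ, (g : N →ₐ[K] N).comp φ = π φ) →
    der K F N ≤ 3 / 8

/-- **Ord**: from the logarithm to the order.

Proof. Let a, b be the meromorphic orders at s₀ = z. f is not identically zero near s₀ (for small x > 0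
log|f(s₀+x)| would be log 0 = 0 ... see below) — assume f and g are nonzero at s₀ + x for all small x > 0
(hypothesis), so a, b ≠ ⊤ and |f(s₀ + x)| = x^a |f₀(s₀+x)|, f₀ analytic, f₀(s₀) ≠ 0
(`meromorphicOrderAt_eq_int_iff`): log|f(s₀+x)| = -a log(1/x) + O(1), the same for g. So
|a - b| log(1/x) ≤ κ log(1/x) + C for small x, |a - b| ≤ κ < 1, a = b. -/
def S_Ord : Prop :=
  ∀ (z : ℂ) (f g : ℂ → ℂ) (κ : ℝ), MeromorphicAt f z → MeromorphicAt g z → κ < 1 →
    (∀ᶠ x : ℝ in 𝓝[>] 0, f (z + x) ≠ 0 ∧ g (z + x) ≠ 0 ∧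
      |Real.log ‖f (z + x)‖ - Real.log ‖g (z + x)‖| ≤ κ * Real.log (1 / x)) →
    meromorphicOrderAt f z = meromorphicOrderAt g z

/-- **NonZ** (from `EulerLog` and others; see `Tw/W8.lean`): the Euler product does not vanish for
Re s > 3/2.

Proof. As in `Tw/W8.lean`: the product is the exponential of an absolutely convergent series (`EulerLog` with
`TraceConst`, `CountPrimes`). -/
def S_NonZ : Prop :=
  ∀ (K : Type) [Field K] [NumberField K] (E : WeierstrassCurve K), E.IsElliptic →
    ∀ M : HeightOneSpectrum (𝓞 K) → WeierstrassCurve (𝓞 K), (∀ v, IsMinAt E v (M v)) →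
      ∀ s : ℂ, 3 / 2 < s.re → lf M s ≠ 0

end MP7ed9c3.Ext
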